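import Pool.Agent.MP_5cfbf6_gt.Iface

set_option autoImplicit false
set_option linter.unusedSectionVars false

namespace Pool.Agent.MP_5cfbf6_gt

open Set Filter Topology MeasureTheory Module
open scoped Pointwise

variable {ι : Type} [Fintype ι] [DecidableEq ι]
variable {u : ι → E3} {h : ι → ℝ} {Tr : ι → ι → ι → Prop}

lemma aff_fc (u : ι → E3) (h : ι → ℝ) {t : ℝ} (ht : 0 < t) (o : E3) (A : Set ι) :
    fc u (fun l => t * h l + dt (u l) o) A = o +ᵥ (t • fc u h A) := by
  ext x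
  rw [mem_vadd_set_iff_neg_vadd_mem, mem_smul_set_iff_inv_smul_mem₀ ht.ne']
  have e : ∀ l, dt (u l) (t⁻¹ • (-o +ᵥ x)) = (dt (u l) x - dt (u l) o) / t := fun l => by
    rw [vadd_eq_add, dt_smul, dt_add, dt_neg]; field_simp; ring
  simp only [fc, poly, mem_setOf_eq, e, div_le_iff₀ ht, div_eq_iff ht.ne']
  refine and_congr (forall_congr' fun l => ⟨fun H => by linarith, fun H => by linarith⟩)
    (forall₂_congr fun l _ => ⟨fun H => by linarith, fun H => by linarith⟩)

lemma aff_poly (u : ι → E3) (h : ι → ℝ) {t : ℝ} (ht : 0 < t) (o : E3) :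
    poly u (fun l => t * h l + dt (u l) o) = o +ᵥ (t • poly u h) := by
  have e : ∀ h : ι → ℝ, poly u h = fc u h ∅ := fun h => by ext x; simp [fc]
  rw [e, e, aff_fc u h ht]

theorem Sys.affine (S : Sys u h Tr) {t : ℝ} (ht : 0 < t) (o : E3) :
    Sys u (fun l => t * h l + dt (u l) o) Tr := by
  refine ⟨S.s12, S.s23, S.det, fun i j k T l h1 h2 h3 => ?_, fun x hx => ?_, ?_, S.used, S.ne⟩
  · have e : vx u (fun l => t * h l + dt (u l) o) i j k = t • vx u h i j k + o :=
      eq_of_dt3 (S.det _ _ _ T) (by rw [S.vx1 T, dt_add, dt_smul, S.vx1 T])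
        (by rw [S.vx2 T, dt_add, dt_smul, S.vx2 T]) (by rw [S.vx3 T, dt_add, dt_smul, S.vx3 T])
    rw [e, dt_add, dt_smul]
    nlinarith [S.strict i j k T l h1 h2 h3]
  · rw [aff_poly u h ht] at hx
    obtain ⟨_, ⟨y, hy, rfl⟩, rfl⟩ := hx
    obtain ⟨i, j, k, T, H⟩ := S.cover y hy
    refine ⟨i, j, k, T, fun l hl => H l ?_⟩
    simp only [vadd_eq_add, dt_add, dt_smul] at hl
    exact mul_left_cancel₀ ht.ne' (by linarith)
  · rw [aff_poly u h ht]
    exact (S.bdd.smul₀ t).vadd o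

theorem vol_affine (u : ι → E3) (h : ι → ℝ) {t : ℝ} (ht : 0 < t) (o : E3) :
    vol u (fun l => t * h l + dt (u l) o) = t ^ 3 * vol u h := by
  rw [vol, aff_poly u h ht, measure_vadd, Measure.addHaar_smul, ENNReal.toReal_mul,
    ENNReal.toReal_ofReal (abs_nonneg _), vol, abs_of_pos (by positivity)]
  simp

theorem ar_affine (u : ι → E3) (h : ι → ℝ) {t : ℝ} (ht : 0 < t) (o : E3) (i : ι) :
    ar u (fun l => t * h l + dt (u l) o) i = t ^ 2 * ar u h i := by
  rw [ar, aff_fc u h ht, measure_vadd, Measure.euclideanHausdorffMeasure_smul₀ 2 ht.ne', ar]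
  simp [ENNReal.smul_def, abs_of_pos ht]

theorem Opt.affine (O : Opt u h Tr) {t : ℝ} (ht : 0 < t) (o : E3) :
    Opt u (fun l => t * h l + dt (u l) o) Tr := by
  intro u' h' S'
  refine (O u' h' S').trans (le_of_eq ?_)
  simp only [vol_affine u h ht, ar_affine u h ht, ← Finset.mul_sum, mul_pow, ← pow_mul]
  rw [mul_div_mul_left _ _ (by positivity)]

end Pool.Agent.MP_5cfbf6_gt
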