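import Pool.Agent.MP_5cfbf6_gt.Flag

set_option autoImplicit false
set_option linter.unusedSectionVars false

namespace Pool.Agent.MP_5cfbf6_gt

open Set Filter Topology MeasureTheory Module

variable {ι : Type} [Fintype ι] [DecidableEq ι]
variable {u : ι → E3} {h : ι → ℝ} {Tr : ι → ι → ι → Prop}

lemma aa_add_left (y y' z : ι → ℝ) (i : ι) :
    aa u Tr (y + y') z i = aa u Tr y z i + aa u Tr y' z i := by
  simp only [aa, mu_add, ← Finset.sum_add_distrib]
  exact Finset.sum_congr rfl fun j _ => by ring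
lemma aa_add_right (y z z' : ι → ℝ) (i : ι) :
    aa u Tr y (z + z') i = aa u Tr y z i + aa u Tr y z' i := by
  simp only [aa, Pi.add_apply, ← Finset.sum_add_distrib]
  exact Finset.sum_congr rfl fun j _ => by ring
lemma aa_smul_left (t : ℝ) (y z : ι → ℝ) (i : ι) : aa u Tr (t • y) z i = t * aa u Tr y z i := by
  simp only [aa, mu_smul, Finset.mul_sum]
  exact Finset.sum_congr rfl fun j _ => by ring
lemma aa_smul_right (t : ℝ) (y z : ι → ℝ) (i : ι) : aa u Tr y (t • z) i = t * aa u Tr y z i := by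
  simp only [aa, Pi.smul_apply, smul_eq_mul, Finset.mul_sum]
  exact Finset.sum_congr rfl fun j _ => by ring

lemma alg_key (a b v w : E3) :
    dt v (cr a b) * (dt a a * dt b w - dt a b * dt a w)
      - dt w (cr a b) * (dt a a * dt b v - dt a b * dt a v)
      = -dt (cr a b) (cr a b) * det3 a v w := by
  simp [det3, dt]; ring

theorem Sys.aa_symm (S : Sys u h Tr) (hu : ∀ i, dt (u i) (u i) = 1) (y z : ι → ℝ) (i : ι) :
    aa u Tr y z i = aa u Tr z y i := by
  classical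
  let F : ι → ι → ℝ := fun j k => if Tr i j k then
    -(sg (det3 (u i) (u j) (u k)) * det3 (u i) (vx u y i j k) (vx u z i j k)) else 0
  have h1 : aa u Tr y z i - aa u Tr z y i = ∑ j, ∑ k, F j k := by
    simp only [aa, S.mu_eq_sum, ← Finset.sum_sub_distrib]
    refine Finset.sum_congr rfl fun j _ => Finset.sum_congr rfl fun k _ => ?_
    simp only [F]
    by_cases T : Tr i j k
    · simp only [if_pos T]
      have e := alg_key (u i) (u j) (vx u y i j k) (vx u z i j k)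
      rw [hu i, S.vx1 T, S.vx1 T, S.vx2 T, S.vx2 T] at e
      have hp := (S.cr_pos ⟨k, T⟩).ne'
      field_simp
      linear_combination sg (det3 (u i) (u j) (u k)) * e
    · simp only [if_neg T, sub_zero]
  have h2 : ∀ j k, F k j = -F j k := fun j k => by
    simp only [F]
    by_cases T : Tr i j k
    · rw [if_pos T, if_pos (S.s23 _ _ _ T), vx_swap23 u y i j k, vx_swap23 u z i j k,
        det3_swap23 (u i) (u j), sg_neg (S.det _ _ _ T)]
      ring
    · rw [if_neg T, if_neg fun T' => T (S.s23 _ _ _ T'), neg_zero]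
  have h3 : ∑ j, ∑ k, F j k = -∑ j, ∑ k, F j k := by
    conv_lhs => rw [Finset.sum_comm]
    simp only [← Finset.sum_neg_distrib]
    exact Finset.sum_congr rfl fun j _ => Finset.sum_congr rfl fun k _ => h2 j k
  linarith

theorem Sys.TT_swap13 (S : Sys u h Tr) (x y z : ι → ℝ) : TT u Tr x y z = TT u Tr z y x := by
  have e : ∀ x z : ι → ℝ, TT u Tr x y z = ∑ i, ∑ j, x i * mu u Tr y i j * z j
      - ∑ i, ∑ j, mu u Tr y i j * dt (u i) (u j) * (x i * z i) := fun x z => by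
    simp only [TT, aa, Finset.mul_sum, ← Finset.sum_sub_distrib]
    exact Finset.sum_congr rfl fun i _ => Finset.sum_congr rfl fun j _ => by ring
  rw [e, e, Finset.sum_comm]
  congr 1
  · exact Finset.sum_congr rfl fun i _ => Finset.sum_congr rfl fun j _ => by
      rw [S.mu_symm y i j]; ring
  · exact Finset.sum_congr rfl fun i _ => Finset.sum_congr rfl fun j _ => by ring

lemma Sys.mu_lin (S : Sys u h Tr) (o : E3) (i j : ι) : mu u Tr (fun l => dt (u l) o) i j = 0 := by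
  by_cases A : Adj Tr i j
  · have e1 : ep u Tr (fun l => dt (u l) o) i j = o := (eq_sol (S.det _ _ _ (S.kp_spec A).1) o).symm
    have e2 : em u Tr (fun l => dt (u l) o) i j = o := (eq_sol (S.det _ _ _ (S.km_spec A).1) o).symm
    unfold mu
    rw [if_pos A, e1, e2, sub_self, zero_dt, zero_div]
  · exact mu_of_not A _

theorem Sys.closed (S : Sys u h Tr) (hu : ∀ i, dt (u i) (u i) = 1) (y : ι → ℝ) (o : E3) (i : ι) :
    ∑ j, mu u Tr y i j * (dt (u j) o - dt (u i) (u j) * dt (u i) o) = 0 := by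
  have := S.aa_symm hu y (fun l => dt (u l) o) i
  simpa only [aa, S.mu_lin, zero_mul, Finset.sum_const_zero] using this

lemma Sys.alg_step (S : Sys u h Tr) {z : ι → ℝ} (hz : ∀ i j, mu u Tr z i j = 0) {i j k : ι}
    (T : Tr i j k) {w : E3} {a b g : ℝ} (hw : w = a • u i + b • u j + g • u k) (hg : g < 0) :
    ∃ k', Tr i j k' ∧ vx u z i j k' = vx u z i j k ∧ dt w (vx u h i j k) < dt w (vx u h i j k') := by
  obtain ⟨k', T', e⟩ := S.exists_opp T
  have hk : k ≠ k' := by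
    rintro rfl
    nlinarith [sq_nonneg (det3 (u i) (u j) (u k))]
  have h1 := S.strict _ _ _ T' k (S.ne13 T).symm (S.ne23 T).symm hk
  have h2 := S.ep_sub ⟨k, T⟩ z
  rw [hz, zero_smul, sub_eq_zero] at h2
  refine ⟨k', T', ?_, ?_⟩
  · rcases lt_or_gt_of_ne (S.det _ _ _ T) with d | d
    · rw [S.eq_km T d, S.eq_kp T' (by nlinarith)]
      exact h2
    · rw [S.eq_kp T d, S.eq_km T' (by nlinarith)]
      exact h2.symm
  · simp only [hw, add_dt, smul_dt, S.vx1 T, S.vx2 T, S.vx3 T, S.vx1 T', S.vx2 T']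
    nlinarith

theorem Sys.conn (S : Sys u h Tr) {z : ι → ℝ} (hz : ∀ i j, mu u Tr z i j = 0) :
    ∃ o : E3, ∀ l, z l = dt (u l) o := by
  obtain ⟨i0, j0, k0, T0⟩ := S.ne
  refine ⟨vx u z i0 j0 k0, fun l => ?_⟩
  obtain ⟨⟨i, j, k⟩, ⟨T, e⟩, hm⟩ := Set.exists_max_image
    {t : ι × ι × ι | Tr t.1 t.2.1 t.2.2 ∧ vx u z t.1 t.2.1 t.2.2 = vx u z i0 j0 k0}
    (fun t => dt (u l) (vx u h t.1 t.2.1 t.2.2)) (Set.toFinite _) ⟨(i0, j0, k0), T0, rfl⟩
  simp only at T e hm
  rw [← e]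
  by_cases h1 : l = i
  · rw [h1, S.vx1 T]
  by_cases h2 : l = j
  · rw [h2, S.vx2 T]
  by_cases h3 : l = k
  · rw [h3, S.vx3 T]
  exfalso
  obtain ⟨a, b, g, hw⟩ : ∃ a b g : ℝ, u l = a • u i + b • u j + g • u k :=
    ⟨_, _, _, decomp (S.det _ _ _ T) (u l)⟩
  rcases lt_or_ge g 0 with hg | hg
  · obtain ⟨k', T', e1, e2⟩ := S.alg_step hz T hw hg
    exact absurd (hm (i, j, k') ⟨T', e1.trans e⟩) (not_le.2 e2)
  rcases lt_or_ge b 0 with hb | hb
  · obtain ⟨k', T', e1, e2⟩ := S.alg_step hz (S.s23 _ _ _ T) (a := a) (b := g) (g := b)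
      (hw.trans (by abel)) hb
    rw [vx_swap23 u z i j k] at e1
    rw [vx_swap23 u h i j k] at e2
    exact absurd (hm (i, k, k') ⟨T', e1.trans e⟩) (not_le.2 e2)
  rcases lt_or_ge a 0 with ha | ha
  · obtain ⟨k', T', e1, e2⟩ := S.alg_step hz (S.rot T) (a := b) (b := g) (g := a)
      (hw.trans (by abel)) ha
    rw [vx_swap23 u z j i k, vx_swap12 u z i j k] at e1
    rw [vx_swap23 u h j i k, vx_swap12 u h i j k] at e2
    exact absurd (hm (j, k, k') ⟨T', e1.trans e⟩) (not_le.2 e2)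
  obtain ⟨j', k', T'⟩ := S.used l
  have h4 := S.vx1 T' h
  have h5 := S.strict _ _ _ T l h1 h2 h3
  have h6 := S.vx_mem T'
  generalize vx u h l j' k' = x at h4 h6
  rw [hw] at h4 h5
  simp only [add_dt, smul_dt, S.vx1 T, S.vx2 T, S.vx3 T] at h4 h5
  linarith [mul_le_mul_of_nonneg_left (h6 i) ha, mul_le_mul_of_nonneg_left (h6 j) hb,
    mul_le_mul_of_nonneg_left (h6 k) hg]

lemma Sys.alg_DD (S : Sys u h Tr) (hu : ∀ i, dt (u i) (u i) = 1) {c : ι → E3} (hc : Ctr u h c)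
    (i : ι) : ∑ j, DD u Tr h c i j = h i * aa u Tr h h i := by
  have := S.closed hu h (c i) i
  rw [(hc i).1] at this
  rw [← sub_zero (aa u Tr h h i), ← this]
  simp only [DD, aa, ← Finset.sum_sub_distrib, Finset.mul_sum]
  exact Finset.sum_congr rfl fun j _ => by ring

theorem Sys.ar_aa (S : Sys u h Tr) (hu : ∀ i, dt (u i) (u i) = 1) (hh : ∀ i, 0 < h i) (i : ι) :
    ar u h i = aa u Tr h h i / 2 := by
  obtain ⟨c, hc⟩ := S.exists_ctr
  have h1 := S.ar_eq hh hc i
  have h2 : ‖u i‖ = 1 := by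
    have := hu i
    rw [dt_self] at this
    exact (pow_eq_one_iff_of_nonneg (norm_nonneg _) two_ne_zero).1 this
  rw [h2, one_mul, S.alg_DD hu hc, mul_div_assoc] at h1
  exact mul_left_cancel₀ (hh i).ne' h1

theorem Sys.vol_TT (S : Sys u h Tr) (hu : ∀ i, dt (u i) (u i) = 1) (hh : ∀ i, 0 < h i) :
    vol u h = TT u Tr h h h / 6 := by
  obtain ⟨c, hc⟩ := S.exists_ctr
  simp only [S.vol_eq hh hc, S.alg_DD hu hc, TT]

theorem Sys.ar_pos (S : Sys u h Tr) (hh : ∀ i, 0 < h i) (i : ι) : 0 < ar u h i := by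
  obtain ⟨c, hc⟩ := S.exists_ctr
  have h1 := S.ar_eq hh hc i
  have h2 := mul_pos (norm_pos_iff.2 (S.u_ne i)) (S.sum_DD_pos hh hc i)
  exact (mul_pos_iff_of_pos_left (hh i)).1 (by linarith)

theorem Sys.mink (S : Sys u h Tr) (hu : ∀ i, dt (u i) (u i) = 1) (hh : ∀ i, 0 < h i) (o : E3) :
    ∑ i, ar u h i * dt (u i) o = 0 := by
  have h1 := S.TT_swap13 (fun l => dt (u l) o) h h
  have h2 : ∀ i, aa u Tr h (fun l => dt (u l) o) i = 0 := fun i => S.closed hu h o i
  simp only [TT, h2, mul_zero, Finset.sum_const_zero] at h1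
  rw [← zero_div 2, ← h1, Finset.sum_div]
  exact Finset.sum_congr rfl fun i _ => by rw [S.ar_aa hu hh]; ring

theorem Sys.ar_one (S : Sys u 1 Tr) (hu : ∀ i, dt (u i) (u i) = 1) (i : ι) :
    ar u 1 i = (∑ j, mu u Tr 1 i j * (1 - dt (u i) (u j))) / 2 := by
  rw [S.ar_aa hu fun _ => one_pos]
  simp only [aa, Pi.one_apply, mul_one]

end Pool.Agent.MP_5cfbf6_gt
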