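import Mathlib

set_option autoImplicit false

namespace Pool.Agent.MP_5cfbf6_gt

open MeasureTheory

/-- Euclidean 3-space. -/
abbrev E3 := EuclideanSpace ℝ (Fin 3)

/-- A 3-polytope: convex hull of finitely many points, with nonempty interior. -/
def IsPolytope (P : Set E3) : Prop :=
  (∃ S : Finset E3, P = convexHull ℝ (S : Set E3)) ∧ (interior P).Nonempty

/-- Same combinatorial type: the face lattices (exposed faces, including the empty face and the
whole polytope, ordered by inclusion) are isomorphic. -/
def SameType (P Q : Set E3) : Prop :=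
  Nonempty ({F : Set E3 // IsExposed ℝ P F} ≃o {F : Set E3 // IsExposed ℝ Q F})

/-- The 2-faces. -/
def twoFaces (P : Set E3) : Set (Set E3) :=
  {F | IsExposed ℝ P F ∧ Module.finrank ℝ (vectorSpan ℝ F) = 2}

/-- Surface area: sum of the areas of the 2-faces. -/
noncomputable def surfaceArea (P : Set E3) : ℝ :=
  ∑ᶠ F ∈ twoFaces P, (Measure.euclideanHausdorffMeasure 2 F).toReal

/-- Isoperimetric quotient V^2 / S^3. -/
noncomputable def isoQuot (P : Set E3) : ℝ :=
  (volume P).toReal ^ 2 / surfaceArea P ^ 3

/-- `P` is an isoperimetrically best representative of its combinatorial type. -/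
def IsBest (P : Set E3) : Prop :=
  IsPolytope P ∧ ∀ Q : Set E3, IsPolytope Q → SameType P Q → isoQuot Q ≤ isoQuot P

/-- Simple: every vertex lies in exactly three 2-faces. -/
def IsSimple (P : Set E3) : Prop :=
  ∀ v ∈ P.extremePoints ℝ, {F ∈ twoFaces P | v ∈ F}.ncard = 3

end Pool.Agent.MP_5cfbf6_gt
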