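import Pool.Agent.MP_5cfbf6_gt.Defs

set_option autoImplicit false

namespace Pool.Agent.MP_5cfbf6_gt

/-- The dual graph: two different 2-faces are adjacent when they share an edge, that is, when
they have at least two common points. -/
def faceGraph (P : Set E3) : SimpleGraph (twoFaces P) where
  Adj F G := F ≠ G ∧ (F.1 ∩ G.1).Nontrivial
  symm := ⟨fun _ _ h => ⟨h.1.symm, by rw [Set.inter_comm]; exact h.2⟩⟩
  loopless := ⟨fun _ h => h.1 rfl⟩

end Pool.Agent.MP_5cfbf6_gt
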