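import Pool.Agent.MP_5cfbf6_gt.Sys

set_option autoImplicit false
set_option linter.unusedSectionVars false

namespace Pool.Agent.MP_5cfbf6_gt

open Set Filter Topology

variable {ι : Type} [Fintype ι] [DecidableEq ι]

def Adj (Tr : ι → ι → ι → Prop) (i j : ι) : Prop := ∃ k, Tr i j k

open Classical in
noncomputable def kp (u : ι → E3) (Tr : ι → ι → ι → Prop) (i j : ι) : ι :=
  if h : ∃ k, Tr i j k ∧ 0 < det3 (u i) (u j) (u k) then h.choose else i

open Classical in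
noncomputable def km (u : ι → E3) (Tr : ι → ι → ι → Prop) (i j : ι) : ι :=
  if h : ∃ k, Tr i j k ∧ det3 (u i) (u j) (u k) < 0 then h.choose else i

/-- upper endpoint of the edge -/
noncomputable def ep (u : ι → E3) (Tr : ι → ι → ι → Prop) (y : ι → ℝ) (i j : ι) : E3 :=
  vx u y i j (kp u Tr i j)

/-- lower endpoint of the edge -/
noncomputable def em (u : ι → E3) (Tr : ι → ι → ι → Prop) (y : ι → ℝ) (i j : ι) : E3 :=
  vx u y i j (km u Tr i j)

open Classical in
noncomputable def mu (u : ι → E3) (Tr : ι → ι → ι → Prop) (y : ι → ℝ) (i j : ι) : ℝ :=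
  if Adj Tr i j then
    dt (ep u Tr y i j - em u Tr y i j) (cr (u i) (u j)) / dt (cr (u i) (u j)) (cr (u i) (u j))
  else 0

noncomputable def sg (x : ℝ) : ℝ := if 0 < x then 1 else -1

lemma sg_neg {x : ℝ} (h : x ≠ 0) : sg (-x) = -sg x := by
  unfold sg
  rcases lt_or_gt_of_ne h with h | h
  · rw [if_pos (by linarith), if_neg (by linarith)]; ring
  · rw [if_neg (by linarith), if_pos h]

lemma vx_add (u : ι → E3) (y z : ι → ℝ) (i j k : ι) :
    vx u (y + z) i j k = vx u y i j k + vx u z i j k := sol_add _ _ _ _ _ _ _ _ _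

lemma vx_smul (u : ι → E3) (t : ℝ) (y : ι → ℝ) (i j k : ι) :
    vx u (t • y) i j k = t • vx u y i j k := sol_smul _ _ _ _ _ _ _

lemma mu_add (u : ι → E3) (Tr : ι → ι → ι → Prop) (y z : ι → ℝ) (i j : ι) :
    mu u Tr (y + z) i j = mu u Tr y i j + mu u Tr z i j := by
  unfold mu
  split_ifs
  · simp only [ep, em, vx_add, sub_dt, add_dt]; ring
  · simp

lemma mu_smul (u : ι → E3) (Tr : ι → ι → ι → Prop) (t : ℝ) (y : ι → ℝ) (i j : ι) :
    mu u Tr (t • y) i j = t * mu u Tr y i j := by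
  unfold mu
  split_ifs
  · simp only [ep, em, vx_smul, sub_dt, smul_dt]; ring
  · simp

lemma mu_of_not {u : ι → E3} {Tr : ι → ι → ι → Prop} {i j : ι} (h : ¬ Adj Tr i j)
    (y : ι → ℝ) : mu u Tr y i j = 0 := by
  unfold mu; rw [if_neg h]

namespace Sys

variable {u : ι → E3} {h : ι → ℝ} {Tr : ι → ι → ι → Prop}

lemma adj_symm (S : Sys u h Tr) {i j : ι} (A : Adj Tr i j) : Adj Tr j i := by
  obtain ⟨k, T⟩ := A; exact ⟨k, S.s12 _ _ _ T⟩

lemma adj_ne (S : Sys u h Tr) {i j : ι} (A : Adj Tr i j) : i ≠ j := by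
  obtain ⟨k, T⟩ := A; exact S.ne12 T

lemma cr_pos (S : Sys u h Tr) {i j : ι} (A : Adj Tr i j) :
    0 < dt (cr (u i) (u j)) (cr (u i) (u j)) := by
  obtain ⟨k, T⟩ := A; exact dt_self_pos (cr_ne_zero (S.det _ _ _ T))

lemma exists_opp (S : Sys u h Tr) {i j k : ι} (T : Tr i j k) :
    ∃ k', Tr i j k' ∧ det3 (u i) (u j) (u k) * det3 (u i) (u j) (u k') < 0 := by
  set z : E3 := (-det3 (u i) (u j) (u k)) • cr (u i) (u j) with hz
  have hd := S.det _ _ _ T
  have z0 : z ≠ 0 := smul_ne_zero (neg_ne_zero.2 hd) (cr_ne_zero hd)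
  have hne : (fc u h {i, j}).Nonempty := ⟨vx u h i j k, S.vx_mem T, by
    intro l hl
    rcases hl with rfl | rfl
    · exact S.vx1 T h
    · exact S.vx2 T h⟩
  obtain ⟨x, hx, hmax⟩ := (S.isCompact_fc {i, j}).exists_isMaxOn hne
    (f := fun x => dt z x) (Continuous.continuousOn (by fun_prop))
  have hi := hx.2 i (by simp)
  have hj := hx.2 j (by simp)
  obtain ⟨k', T', H⟩ := S.cover2 hx.1 (S.ne12 T) hi hj
  refine ⟨k', T', ?_⟩
  by_contra hc
  push Not at hc
  have zi : dt (u i) z = 0 := by rw [hz, dt_smul, dt_cr_left, mul_zero]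
  have zj : dt (u j) z = 0 := by rw [hz, dt_smul, dt_cr_right, mul_zero]
  have zk : dt (u k') z ≤ 0 := by rw [hz, dt_smul, dt_cr]; linarith
  obtain ⟨δ, hδ, Hm⟩ := exists_move u h x z
  have hmem : x + δ • z ∈ fc u h {i, j} := by
    refine ⟨fun l => ?_, ?_⟩
    · rcases (hx.1 l).eq_or_lt with e | e
      · rw [dt_add, dt_smul, e]
        rcases H l e with rfl | rfl | rfl
        · rw [zi]; simp
        · rw [zj]; simp
        · nlinarith
      · exact (Hm δ (by rw [abs_of_pos hδ]) l e).le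
    · intro l hl
      rcases hl with rfl | rfl
      · rw [dt_add, dt_smul, hi, zi]; simp
      · rw [dt_add, dt_smul, hj, zj]; simp
  have := hmax hmem
  simp only [mem_ofPred_eq, dt_add, dt_smul] at this
  have := mul_pos hδ (dt_self_pos z0)
  linarith

lemma uniq (S : Sys u h Tr) {i j k k' : ι} (T : Tr i j k) (T' : Tr i j k')
    (hs : 0 < det3 (u i) (u j) (u k) * det3 (u i) (u j) (u k')) : k = k' := by
  by_contra hne
  have h1 := S.strict _ _ _ T k' (S.ne13 T').symm (S.ne23 T').symm (Ne.symm hne)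
  have h2 := S.strict _ _ _ T' k (S.ne13 T).symm (S.ne23 T).symm hne
  have e := par_cr (a := u i) (b := u j) (x := vx u h i j k - vx u h i j k')
    (by rw [dt_sub, S.vx1 T, S.vx1 T', sub_self]) (by rw [dt_sub, S.vx2 T, S.vx2 T', sub_self])
  have e1 := congrArg (dt (u k)) e
  have e2 := congrArg (dt (u k')) e
  rw [dt_smul, dt_smul, dt_sub, dt_cr (u i) (u j) (u k), S.vx3 T] at e1
  rw [dt_smul, dt_smul, dt_sub, dt_cr (u i) (u j) (u k'), S.vx3 T'] at e2
  have hp := S.cr_pos ⟨k, T⟩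
  set W := dt (cr (u i) (u j)) (cr (u i) (u j))
  set s := dt (vx u h i j k - vx u h i j k') (cr (u i) (u j))
  have a1 : 0 < s * det3 (u i) (u j) (u k) := by rw [← e1]; apply mul_pos hp; linarith
  have a2 : s * det3 (u i) (u j) (u k') < 0 := by
    rw [← e2]; apply mul_neg_of_pos_of_neg hp; linarith
  nlinarith [mul_pos a1 (neg_pos.2 a2), sq_nonneg s]

lemma kp_spec (S : Sys u h Tr) {i j : ι} (A : Adj Tr i j) :
    Tr i j (kp u Tr i j) ∧ 0 < det3 (u i) (u j) (u (kp u Tr i j)) := by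
  have : ∃ k, Tr i j k ∧ 0 < det3 (u i) (u j) (u k) := by
    obtain ⟨k, T⟩ := A
    obtain ⟨k', T', H⟩ := S.exists_opp T
    rcases lt_or_gt_of_ne (S.det _ _ _ T) with e | e
    · exact ⟨k', T', by nlinarith⟩
    · exact ⟨k, T, e⟩
  unfold kp
  rw [dif_pos this]
  exact this.choose_spec

lemma km_spec (S : Sys u h Tr) {i j : ι} (A : Adj Tr i j) :
    Tr i j (km u Tr i j) ∧ det3 (u i) (u j) (u (km u Tr i j)) < 0 := by
  have : ∃ k, Tr i j k ∧ det3 (u i) (u j) (u k) < 0 := by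
    obtain ⟨k, T⟩ := A
    obtain ⟨k', T', H⟩ := S.exists_opp T
    rcases lt_or_gt_of_ne (S.det _ _ _ T) with e | e
    · exact ⟨k, T, e⟩
    · exact ⟨k', T', by nlinarith⟩
  unfold km
  rw [dif_pos this]
  exact this.choose_spec

lemma eq_kp (S : Sys u h Tr) {i j k : ι} (T : Tr i j k) (hd : 0 < det3 (u i) (u j) (u k)) :
    k = kp u Tr i j :=
  S.uniq T (S.kp_spec ⟨k, T⟩).1 (mul_pos hd (S.kp_spec ⟨k, T⟩).2)

lemma eq_km (S : Sys u h Tr) {i j k : ι} (T : Tr i j k) (hd : det3 (u i) (u j) (u k) < 0) :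
    k = km u Tr i j :=
  S.uniq T (S.km_spec ⟨k, T⟩).1 (mul_pos_of_neg_of_neg hd (S.km_spec ⟨k, T⟩).2)

lemma kp_ne_km (S : Sys u h Tr) {i j : ι} (A : Adj Tr i j) : kp u Tr i j ≠ km u Tr i j := by
  intro e
  have h1 := (S.kp_spec A).2
  have h2 := (S.km_spec A).2
  rw [e] at h1; linarith

lemma kp_swap (S : Sys u h Tr) {i j : ι} (A : Adj Tr i j) : kp u Tr j i = km u Tr i j :=
  S.eq_km (S.s12 _ _ _ (S.kp_spec (S.adj_symm A)).1) (by
    have := (S.kp_spec (S.adj_symm A)).2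
    rw [det3_swap12] at this; linarith)

lemma km_swap (S : Sys u h Tr) {i j : ι} (A : Adj Tr i j) : km u Tr j i = kp u Tr i j :=
  S.eq_kp (S.s12 _ _ _ (S.km_spec (S.adj_symm A)).1) (by
    have := (S.km_spec (S.adj_symm A)).2
    rw [det3_swap12] at this; linarith)

lemma ep_swap (S : Sys u h Tr) {i j : ι} (A : Adj Tr i j) (y : ι → ℝ) :
    ep u Tr y j i = em u Tr y i j := by
  unfold ep em; rw [S.kp_swap A, vx_swap12]

lemma em_swap (S : Sys u h Tr) {i j : ι} (A : Adj Tr i j) (y : ι → ℝ) :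
    em u Tr y j i = ep u Tr y i j := by
  unfold ep em; rw [S.km_swap A, vx_swap12]

lemma ep1 (S : Sys u h Tr) {i j : ι} (A : Adj Tr i j) (y : ι → ℝ) :
    dt (u i) (ep u Tr y i j) = y i := S.vx1 (S.kp_spec A).1 y
lemma ep2 (S : Sys u h Tr) {i j : ι} (A : Adj Tr i j) (y : ι → ℝ) :
    dt (u j) (ep u Tr y i j) = y j := S.vx2 (S.kp_spec A).1 y
lemma em1 (S : Sys u h Tr) {i j : ι} (A : Adj Tr i j) (y : ι → ℝ) :
    dt (u i) (em u Tr y i j) = y i := S.vx1 (S.km_spec A).1 y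
lemma em2 (S : Sys u h Tr) {i j : ι} (A : Adj Tr i j) (y : ι → ℝ) :
    dt (u j) (em u Tr y i j) = y j := S.vx2 (S.km_spec A).1 y
lemma ep_mem (S : Sys u h Tr) {i j : ι} (A : Adj Tr i j) : ep u Tr h i j ∈ poly u h :=
  S.vx_mem (S.kp_spec A).1
lemma em_mem (S : Sys u h Tr) {i j : ι} (A : Adj Tr i j) : em u Tr h i j ∈ poly u h :=
  S.vx_mem (S.km_spec A).1

lemma ep_sub (S : Sys u h Tr) {i j : ι} (A : Adj Tr i j) (y : ι → ℝ) :
    ep u Tr y i j - em u Tr y i j = mu u Tr y i j • cr (u i) (u j) := by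
  have e := par_cr (a := u i) (b := u j) (x := ep u Tr y i j - em u Tr y i j)
    (by rw [dt_sub, S.ep1 A, S.em1 A, sub_self]) (by rw [dt_sub, S.ep2 A, S.em2 A, sub_self])
  have hp := S.cr_pos A
  unfold mu
  rw [if_pos A, div_eq_inv_mul, ← smul_smul, ← e, smul_smul, inv_mul_cancel₀ hp.ne', one_smul]

lemma mu_pos (S : Sys u h Tr) {i j : ι} (A : Adj Tr i j) : 0 < mu u Tr h i j := by
  have e := congrArg (dt (u (kp u Tr i j))) (S.ep_sub A h)
  rw [dt_sub, dt_smul, dt_cr] at e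
  have h1 : dt (u (kp u Tr i j)) (ep u Tr h i j) = h (kp u Tr i j) := S.vx3 (S.kp_spec A).1 h
  have h2 : dt (u (kp u Tr i j)) (em u Tr h i j) < h (kp u Tr i j) :=
    S.strict _ _ _ (S.km_spec A).1 _ (S.ne13 (S.kp_spec A).1).symm
      (S.ne23 (S.kp_spec A).1).symm (S.kp_ne_km A)
  have h3 := (S.kp_spec A).2
  by_contra hc
  push Not at hc
  nlinarith

lemma mu_nonneg (S : Sys u h Tr) (i j : ι) : 0 ≤ mu u Tr h i j := by
  by_cases A : Adj Tr i j
  · exact (S.mu_pos A).le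
  · rw [mu_of_not A]

lemma mu_symm (S : Sys u h Tr) (y : ι → ℝ) (i j : ι) : mu u Tr y j i = mu u Tr y i j := by
  by_cases A : Adj Tr i j
  · unfold mu
    rw [if_pos A, if_pos (S.adj_symm A), S.ep_swap A, S.em_swap A, cr_anti (u i) (u j)]
    simp only [dt_neg, neg_dt, sub_dt]; ring
  · rw [mu_of_not A, mu_of_not (fun B => A (S.adj_symm B))]

/-- points of an edge -/
lemma edge_pt (S : Sys u h Tr) {i j : ι} (hij : i ≠ j) {x : E3} (hx : x ∈ poly u h)
    (hi : dt (u i) x = h i) (hj : dt (u j) x = h j) :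
    Adj Tr i j ∧ ∃ t : ℝ, 0 ≤ t ∧ t ≤ 1 ∧ x = t • ep u Tr h i j + (1 - t) • em u Tr h i j := by
  obtain ⟨k, T, -⟩ := S.cover2 hx hij hi hj
  have A : Adj Tr i j := ⟨k, T⟩
  refine ⟨A, ?_⟩
  have e := par_cr (a := u i) (b := u j) (x := x - em u Tr h i j)
    (by rw [dt_sub, hi, S.em1 A, sub_self]) (by rw [dt_sub, hj, S.em2 A, sub_self])
  have hp := S.cr_pos A
  have hm := S.mu_pos A
  set W := dt (cr (u i) (u j)) (cr (u i) (u j))
  set s := dt (x - em u Tr h i j) (cr (u i) (u j))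
  have e0 : x = em u Tr h i j + (s / W) • cr (u i) (u j) := by
    rw [div_eq_inv_mul, ← smul_smul, ← e, smul_smul, inv_mul_cancel₀ hp.ne', one_smul]; abel
  have e1 : ep u Tr h i j = em u Tr h i j + mu u Tr h i j • cr (u i) (u j) := by
    rw [← S.ep_sub A]; abel
  have b1 := hx (km u Tr i j)
  have b2 := hx (kp u Tr i j)
  have c1 : dt (u (km u Tr i j)) (em u Tr h i j) = h (km u Tr i j) := S.vx3 (S.km_spec A).1 h
  have c2 : dt (u (kp u Tr i j)) (ep u Tr h i j) = h (kp u Tr i j) := S.vx3 (S.kp_spec A).1 h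
  rw [e0, dt_add, dt_smul, dt_cr, c1] at b1
  rw [e1, dt_add, dt_smul, dt_cr] at c2
  rw [e0, dt_add, dt_smul, dt_cr] at b2
  have d1 := (S.km_spec A).2
  have d2 := (S.kp_spec A).2
  have f1 : 0 ≤ s / W := by by_contra hc; push Not at hc; nlinarith
  have f2 : s / W ≤ mu u Tr h i j := by by_contra hc; push Not at hc; nlinarith
  refine ⟨s / W / mu u Tr h i j, by positivity, (div_le_one hm).2 f2, ?_⟩
  rw [e1, smul_add, smul_smul, div_mul_cancel₀ _ hm.ne']
  conv_lhs => rw [e0]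
  module

open Classical in
/-- `mu` as a sum over vertices -/
lemma mu_eq_sum (S : Sys u h Tr) (y : ι → ℝ) (i j : ι) (g : ℝ) :
    mu u Tr y i j * g = ∑ k, if Tr i j k then sg (det3 (u i) (u j) (u k))
      * (dt (vx u y i j k) (cr (u i) (u j)) / dt (cr (u i) (u j)) (cr (u i) (u j))) * g else 0 := by
  by_cases A : Adj Tr i j
  · rw [Finset.sum_eq_add (kp u Tr i j) (km u Tr i j) (S.kp_ne_km A)]
    · rw [if_pos (S.kp_spec A).1, if_pos (S.km_spec A).1]
      unfold mu sg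
      rw [if_pos A, if_pos (S.kp_spec A).2, if_neg (not_lt.2 (S.km_spec A).2.le), sub_dt]
      unfold ep em
      ring
    · intro k _ hk
      rw [if_neg]
      intro T
      rcases lt_or_gt_of_ne (S.det _ _ _ T) with e | e
      · exact hk.2 (S.eq_km T e)
      · exact hk.1 (S.eq_kp T e)
    · simp
    · simp
  · rw [mu_of_not A, zero_mul, Finset.sum_eq_zero]
    intro k _
    rw [if_neg fun T => A ⟨k, T⟩]

end Sys

end Pool.Agent.MP_5cfbf6_gt
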