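import Pool.Agent.MP_5cfbf6_gt.Power

set_option autoImplicit false
set_option linter.unusedSectionVars false

namespace Pool.Agent.MP_5cfbf6_gt

open Set Filter Topology MeasureTheory Module

section Aux

variable {ι : Type} [Fintype ι] [DecidableEq ι] {u : ι → E3} {Tr : ι → ι → ι → Prop}

lemma Grow_dist (C : Crit u Tr) (j b : ι) :
    dt (u j - u b) (u j - u b) = 2 * (1 - dt (u b) (u j)) := by
  rw [dt_sub, sub_dt, sub_dt, C.unit, C.unit, dt_comm (u j) (u b)]; ring

lemma Grow_tri (x y z : E3) :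
    dt (x - z) (x - z) ≤ 2 * dt (x - y) (x - y) + 2 * dt (y - z) (y - z) := by
  simp only [dt, PiLp.sub_apply]
  nlinarith [sq_nonneg (x 0 - 2 * y 0 + z 0), sq_nonneg (x 1 - 2 * y 1 + z 1),
    sq_nonneg (x 2 - 2 * y 2 + z 2)]

lemma Grow_card (C : Crit u Tr) {K : ℝ} {E : ℕ} (hK : 1 ≤ K)
    (H : ∀ i k : ι, rsq u k ^ (E + 1) ≤ K * (1 - dt (u i) (u k) + rsq u i) ^ E * rsq u i)
    (b : ι) {A : ℝ} (hA : 1 ≤ A) :
    ({j | dt (u j - u b) (u j - u b) ≤ A * rsq u b}.ncard : ℝ) ≤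
      72 * 484 * K * (4 * K + 2) * 2 ^ E * A ^ (E + 1) := by
  classical
  set G : Finset ι := Finset.univ.filter fun j => dt (u j - u b) (u j - u b) ≤ A * rsq u b with hG
  have eG : {j | dt (u j - u b) (u j - u b) ≤ A * rsq u b} = (G : Set ι) := by
    ext j; simp [hG]
  rw [eG, ncard_coe_finset]
  have rb := C.rsq_pos b
  have rA : rsq u b ≤ A * rsq u b := le_mul_of_one_le_left rb.le hA
  have mem : ∀ j ∈ G, dt (u j - u b) (u j - u b) ≤ A * rsq u b := fun j hj =>
    (Finset.mem_filter.1 hj).2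
  have up : ∀ j ∈ G, rsq u j ≤ K * (2 * A * rsq u b) := by
    intro j hj
    have h1 := mem j hj
    rw [Grow_dist C] at h1
    have h0 := C.cos_le b j
    have h2 : (1 - dt (u b) (u j) + rsq u b) ^ E ≤ (2 * A * rsq u b) ^ E :=
      pow_le_pow_left₀ (by linarith) (by linarith) E
    have h3 : K ≤ K ^ (E + 1) := le_self_pow₀ hK (by omega)
    refine le_of_pow_le_pow_left₀ (n := E + 1) (by omega) (by positivity) ((H b j).trans ?_)
    rw [mul_pow K, pow_succ (2 * A * rsq u b), ← mul_assoc]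
    exact mul_le_mul (mul_le_mul h3 h2 (pow_nonneg (by linarith) _) (by positivity))
      (by linarith) rb.le (by positivity)
  have low : ∀ j ∈ G, rsq u b ≤ K * (2 * A) ^ E * rsq u j := by
    intro j hj
    have rj := C.rsq_pos j
    rcases le_total (rsq u j) (rsq u b) with h | h
    · have h1 := mem j hj
      rw [Grow_dist C, dt_comm] at h1
      have h0 := C.cos_le j b
      have h2 : (1 - dt (u j) (u b) + rsq u j) ^ E ≤ (2 * A * rsq u b) ^ E :=
        pow_le_pow_left₀ (by linarith) (by linarith) E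
      have h3 : rsq u b ^ E * rsq u b ≤ rsq u b ^ E * (K * (2 * A) ^ E * rsq u j) := by
        calc _ = rsq u b ^ (E + 1) := by ring
          _ ≤ _ := H j b
          _ ≤ K * (2 * A * rsq u b) ^ E * rsq u j := by gcongr
          _ = _ := by rw [mul_pow (2 * A)]; ring
      exact le_of_mul_le_mul_left h3 (by positivity)
    · refine h.trans (le_mul_of_one_le_left rj.le ?_)
      exact one_le_mul_of_one_le_of_one_le hK (one_le_pow₀ (by linarith))
  have pk := C.pack (C.unit b) (ρ := (4 * K + 2) * (A * rsq u b)) (by positivity) G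
    fun j hj x hx => by
      have h1 := Grow_tri x (u j) (u b)
      rw [C.sub_sq (Crit.mem_face hx)] at h1
      have h2 := C.le_rsq hx
      have h3 := up j hj
      have h4 := mem j hj
      linarith
  have h5 : (G.card : ℝ) * rsq u b ≤ ∑ j ∈ G, K * (2 * A) ^ E * (484 * ar u 1 j) := by
    have := Finset.card_nsmul_le_sum G (fun j => K * (2 * A) ^ E * (484 * ar u 1 j)) (rsq u b)
      fun j hj => (low j hj).trans
        (mul_le_mul_of_nonneg_left (C.rsq_le_ar j) (by positivity))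
    rwa [nsmul_eq_mul] at this
  rw [← Finset.mul_sum, ← Finset.mul_sum] at h5
  refine le_of_mul_le_mul_right (h5.trans ?_) rb
  calc _ ≤ K * (2 * A) ^ E * (484 * (72 * ((4 * K + 2) * (A * rsq u b)))) := by gcongr
    _ = _ := by rw [mul_pow]; ring

lemma Grow_walk (C : Crit u Tr) {K c : ℝ} {E : ℕ} (hK : 1 ≤ K) (hc : 2 * K ≤ c)
    (H : ∀ i k : ι, rsq u k ^ (E + 1) ≤ K * (1 - dt (u i) (u k) + rsq u i) ^ E * rsq u i)
    {i j : ι} (p : (adjG Tr).Walk j i) :
    ‖u j - u i‖ + √(rsq u i) ≤ √(rsq u i) * (c * (p.length + 1)) ^ (E + 1) := by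
  induction p with
  | nil =>
    simp only [sub_self, norm_zero, zero_add, SimpleGraph.Walk.length_nil, Nat.cast_zero, mul_one]
    exact le_mul_of_one_le_right (Real.sqrt_nonneg _) (one_le_pow₀ (by linarith))
  | @cons j' j i A p ih =>
    set s := √(rsq u i) with hs
    set a := c * ((p.length : ℝ) + 1) with ha
    have s0 : 0 ≤ s := Real.sqrt_nonneg _
    have ss : s ^ 2 = rsq u i := Real.sq_sqrt (C.rsq_nonneg i)
    have a0 : 0 ≤ a := mul_nonneg (by linarith) (by positivity)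
    have n0 := norm_nonneg (u j - u i)
    have h1 : 1 - dt (u i) (u j) + rsq u i ≤ (s * a ^ (E + 1)) ^ 2 := by
      have e := Grow_dist C j i
      rw [dt_self] at e
      have : (‖u j - u i‖ + s) ^ 2 ≤ (s * a ^ (E + 1)) ^ 2 :=
        pow_le_pow_left₀ (by positivity) ih 2
      nlinarith [mul_nonneg n0 s0]
    have h0 := C.cos_le i j
    have ri := C.rsq_nonneg i
    have h2 : rsq u j ≤ (K * s * a ^ E) ^ 2 := by
      refine le_of_pow_le_pow_left₀ (n := E + 1) (by omega) (by positivity) ((H i j).trans ?_)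
      have h3 : K ≤ (K ^ 2) ^ (E + 1) := by
        rw [← pow_mul]
        exact le_self_pow₀ hK (by omega)
      have h4 : (1 - dt (u i) (u j) + rsq u i) ^ E ≤ ((s * a ^ (E + 1)) ^ 2) ^ E :=
        pow_le_pow_left₀ (by linarith) h1 E
      calc _ ≤ (K ^ 2) ^ (E + 1) * ((s * a ^ (E + 1)) ^ 2) ^ E * s ^ 2 := by
            rw [ss]
            exact mul_le_mul_of_nonneg_right
              (mul_le_mul h3 h4 (pow_nonneg (by linarith) _) (by positivity)) ri
        _ = _ := by ring_nf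
    have h3 : ‖u j' - u j‖ ≤ 2 * (K * s * a ^ E) := by
      have e := Grow_dist C j' j
      rw [dt_self] at e
      have g := C.adj_cos (C.sys.adjG_adj.1 A.symm)
      have g1 := C.cos_le j j'
      have rj := C.rsq_nonneg j
      refine le_of_pow_le_pow_left₀ (n := 2) (by omega) (by positivity) ?_
      nlinarith [mul_nonneg rj (sub_nonneg.2 g1)]
    have h4 : ‖u j' - u i‖ ≤ ‖u j' - u j‖ + ‖u j - u i‖ := norm_sub_le_norm_sub_add_norm_sub _ _ _
    have e : c * (((SimpleGraph.Walk.cons A p).length : ℝ) + 1) = a + c := by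
      rw [SimpleGraph.Walk.length_cons, ha]; push_cast; ring
    rw [e]
    have h5 : a ^ E ≤ (a + c) ^ E := pow_le_pow_left₀ a0 (by linarith) E
    have h6 : s * (a ^ E * (a + c)) ≤ s * (a + c) ^ (E + 1) := by
      rw [pow_succ]
      exact mul_le_mul_of_nonneg_left (mul_le_mul_of_nonneg_right h5 (by linarith)) s0
    have h7 : 2 * K * (s * a ^ E) ≤ c * (s * a ^ E) :=
      mul_le_mul_of_nonneg_right hc (by positivity)
    have h8 : s * (a ^ E * (a + c)) = s * a ^ (E + 1) + c * (s * a ^ E) := by ring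
    linarith

end Aux

lemma Grow_near : ∃ K D : ℕ,
    ∀ (ι : Type) [Fintype ι] [DecidableEq ι] (u : ι → E3) (Tr : ι → ι → ι → Prop), Crit u Tr →
    ∀ (b : ι) (L : ℕ), {j | dt (u j - u b) (u j - u b) ≤ ((L : ℝ) + 1) ^ 2 * rsq u b}.ncard
      ≤ K * (L + 1) ^ D := by
  obtain ⟨K, D, hK, hD, H⟩ := power
  obtain ⟨E, rfl⟩ : ∃ E, D = E + 1 := ⟨D - 1, by omega⟩
  simp only [Nat.add_sub_cancel] at H
  refine ⟨⌈72 * 484 * K * (4 * K + 2) * 2 ^ E⌉₊, 2 * (E + 1), fun ι _ _ u Tr C b L => ?_⟩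
  have h := Grow_card C hK (H ι u Tr C) b (A := ((L : ℝ) + 1) ^ 2)
    (one_le_pow₀ (by linarith [Nat.cast_nonneg (α := ℝ) L]))
  rw [← pow_mul] at h
  have h2 := mul_le_mul_of_nonneg_right (Nat.le_ceil (72 * 484 * K * (4 * K + 2) * 2 ^ E))
    (by positivity : (0 : ℝ) ≤ ((L : ℝ) + 1) ^ (2 * (E + 1)))
  exact_mod_cast h.trans h2

theorem growth : ∃ K D : ℕ,
    ∀ (ι : Type) [Fintype ι] [DecidableEq ι] (u : ι → E3) (Tr : ι → ι → ι → Prop), Crit u Tr →
    ∀ (i : ι) (m : ℕ), {j | (adjG Tr).edist i j ≤ m}.ncard ≤ K * (m + 1) ^ D := by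
  obtain ⟨K, D, hK, hD, H⟩ := power
  obtain ⟨E, rfl⟩ : ∃ E, D = E + 1 := ⟨D - 1, by omega⟩
  simp only [Nat.add_sub_cancel] at H
  obtain ⟨K2, D2, H2⟩ := Grow_near
  set c : ℕ := ⌈2 * K⌉₊ with hc
  have hc1 : 2 * K ≤ c := Nat.le_ceil _
  have hc2 : 1 ≤ c := by
    have : (1 : ℝ) ≤ c := by linarith
    exact_mod_cast this
  refine ⟨K2 * c ^ ((E + 1) * D2), (E + 1) * D2, fun ι _ _ u Tr C i m => ?_⟩
  obtain ⟨L, hL⟩ : ∃ L, (c * (m + 1)) ^ (E + 1) = L + 1 :=
    ⟨(c * (m + 1)) ^ (E + 1) - 1, by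
      have : 1 ≤ (c * (m + 1)) ^ (E + 1) := Nat.one_le_pow _ _ (by positivity)
      omega⟩
  have hL' : ((c : ℝ) * (m + 1)) ^ (E + 1) = L + 1 := by exact_mod_cast hL
  refine le_trans (ncard_le_ncard ?_ (toFinite _)) ((H2 ι u Tr C i L).trans (le_of_eq ?_))
  · intro j hj
    simp only [mem_ofPred_eq] at hj ⊢
    obtain ⟨p, hp⟩ := SimpleGraph.exists_walk_of_edist_ne_top
      (ne_top_of_le_ne_top (ENat.natCast_ne_top m) hj)
    have hm : p.length ≤ m := by
      rw [← hp] at hj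
      exact_mod_cast hj
    have h := Grow_walk C hK hc1 (H ι u Tr C) p.reverse
    rw [SimpleGraph.Walk.length_reverse] at h
    have hm' : (p.length : ℝ) ≤ m := by exact_mod_cast hm
    have s0 := Real.sqrt_nonneg (rsq u i)
    have h2 : ((c : ℝ) * (p.length + 1)) ^ (E + 1) ≤ L + 1 := by
      rw [← hL']
      gcongr
    have h3 : ‖u j - u i‖ ≤ (L + 1) * √(rsq u i) := by
      have := mul_le_mul_of_nonneg_left h2 s0
      linarith
    rw [dt_self, ← Real.sq_sqrt (C.rsq_nonneg i), ← mul_pow]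
    exact pow_le_pow_left₀ (norm_nonneg _) h3 2
  · rw [← hL, ← pow_mul, mul_pow, mul_assoc]

theorem near_card : ∃ K D : ℕ,
    ∀ (ι : Type) [Fintype ι] [DecidableEq ι] (u : ι → E3) (Tr : ι → ι → ι → Prop), Crit u Tr →
    ∀ (b : ι) (L : ℕ), {j | dt (u j - u b) (u j - u b) ≤ ((L : ℝ) + 1) ^ 2 * rsq u b}.ncard
      ≤ K * (L + 1) ^ D := Grow_near

end Pool.Agent.MP_5cfbf6_gt
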