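import Pool.Agent.MP_5cfbf6_gt.Mono
import Pool.Agent.MP_5cfbf6_gt.Face2

set_option autoImplicit false
set_option linter.unusedSectionVars false

namespace Pool.Agent.MP_5cfbf6_gt

open Set Filter Topology MeasureTheory Module

variable {ι : Type} [Fintype ι] [DecidableEq ι]
variable {u : ι → E3} {Tr : ι → ι → ι → Prop}

namespace HoleX

lemma intOm (S : Sys u 1 Tr) (e : E3) {φ : E3 → ℝ} (hφ : Continuous φ) :
    IntegrableOn φ (Om u e) :=
  (hφ.continuousOn.integrableOn_compact S.isCompact).mono_set fun _ hx => hx.1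

lemma contW (e : E3) {t : ℝ} (ht : 0 < t) : Continuous fun x : E3 => WW t (1 - dt e x) :=
  (continuous_WW ht).comp (by fun_prop)

lemma contU (e : E3) {t : ℝ} (ht : 0 < t) :
    Continuous fun x : E3 => t ^ 2 * WW t (1 - dt e x) ^ 2 :=
  continuous_const.mul ((contW e ht).pow 2)

lemma UU_nonneg (u : ι → E3) (e : E3) (t : ℝ) : 0 ≤ UU u e t :=
  integral_nonneg fun _ => by positivity

lemma II_nonneg (u : ι → E3) (e : E3) (t : ℝ) : 0 ≤ II u e t :=
  integral_nonneg fun _ => by unfold WW; positivity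

lemma WW_anti {t a b : ℝ} (ht : 0 < t) (ha : 0 ≤ a) (hab : a ≤ b) : WW t b ≤ WW t a := by
  unfold WW
  exact inv_anti₀ (by positivity) (by nlinarith)

lemma WW_near {t s : ℝ} (ht : 0 < t) (h0 : 0 ≤ s) (h1 : s ≤ 10 ^ 6 * t) :
    WW t s ≤ (10 ^ 12 + 1) * (t ^ 2 * WW t s ^ 2) := by
  have hp := WW_pos ht s
  have e : (s ^ 2 + t ^ 2) * WW t s = 1 := by
    unfold WW
    exact mul_inv_cancel₀ (by positivity)
  have h2 : s ^ 2 + t ^ 2 ≤ (10 ^ 12 + 1) * t ^ 2 := by nlinarith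
  calc WW t s = (s ^ 2 + t ^ 2) * WW t s * WW t s := by rw [e, one_mul]
    _ ≤ (10 ^ 12 + 1) * t ^ 2 * WW t s * WW t s := by gcongr
    _ = _ := by ring

lemma WW_diff {t : ℝ} (ht : 0 < t) (s : ℝ) :
    t ^ 2 * WW t s ^ 2 ≤ 4 / 3 * (WW t s - WW (2 * t) s) := by
  unfold WW
  have h1 : 0 < s ^ 2 + t ^ 2 := by positivity
  have h2 : 0 < s ^ 2 + (2 * t) ^ 2 := by positivity
  have e : 4 / 3 * ((s ^ 2 + t ^ 2)⁻¹ - (s ^ 2 + (2 * t) ^ 2)⁻¹) - t ^ 2 * (s ^ 2 + t ^ 2)⁻¹ ^ 2 =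
      3 * t ^ 2 * s ^ 2 / ((s ^ 2 + t ^ 2) ^ 2 * (s ^ 2 + (2 * t) ^ 2)) := by
    field_simp
    ring
  have : 0 ≤ 3 * t ^ 2 * s ^ 2 / ((s ^ 2 + t ^ 2) ^ 2 * (s ^ 2 + (2 * t) ^ 2)) := by positivity
  linarith

/-- the far part of the region -/
def Far (u : ι → E3) (e : E3) (t : ℝ) : Set E3 := Om u e ∩ {x | 10 ^ 6 * t < 1 - dt e x}

lemma measurableSet_far1 (e : E3) (t : ℝ) : MeasurableSet {x : E3 | 10 ^ 6 * t < 1 - dt e x} :=
  (isOpen_lt continuous_const (by fun_prop)).measurableSet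

lemma measurableSet_Far (u : ι → E3) (e : E3) (t : ℝ) : MeasurableSet (Far u e t) :=
  (measurableSet_Om u e).inter (measurableSet_far1 e t)

lemma ray_len (C : Crit u Tr) {k : ι} {x : E3} (hx : x ∈ fc u 1 {k}) {l : ℝ} (h0 : 0 < l)
    (h : 1 < dt (l • x) (l • x)) : 1 - rsq u k / 2 < l := by
  rw [dt_smul, smul_dt] at h
  have h1 := C.le_rsq hx
  have h2 := C.rsq_nonneg k
  set r := rsq u k
  by_contra hc
  push Not at hc
  have h3 : l * l ≤ (1 - r / 2) * (1 - r / 2) := mul_le_mul hc hc h0.le (by linarith)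
  have h4 : l * (l * dt x x) ≤ l * l * (1 + r) := by
    rw [← mul_assoc]
    exact mul_le_mul_of_nonneg_left h1 (by positivity)
  have h5 : l * l * (1 + r) ≤ (1 - r / 2) * (1 - r / 2) * (1 + r) :=
    mul_le_mul_of_nonneg_right h3 (by linarith)
  have h6 : 0 ≤ r ^ 2 * (3 - r) := mul_nonneg (sq_nonneg r) (by linarith)
  nlinarith

lemma ray_pos {e x : E3} {l : ℝ} (h0 : 0 < l) (h : 0 ≤ dt e (l • x)) : 0 ≤ dt e x := by
  rw [dt_smul] at h
  exact nonneg_of_mul_nonneg_right h h0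

lemma bad1 (C : Crit u Tr) {i k : ι} (hc : dt (u i) (u k) < -0.9995) {x : E3}
    (hx : x ∈ fc u 1 {k}) : dt (u i) x < 0 := by
  have h1 := C.le_rsq hx
  have h2 := C.rsq_le_eight k
  have h3 := dt_sq_le (u i + u k) x
  simp only [add_dt, dt_add, C.unit, dt_comm (u k) (u i), Crit.mem_face hx] at h3
  have h4 := C.neg_le_cos i k
  have h5 := dt_self_nonneg x
  by_contra hn
  push Not at hn
  have h6 : (1 + dt (u i) (u k) + (dt (u i) (u k) + 1)) * dt x x ≤ 0.001 * 9 :=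
    mul_le_mul (by linarith) (by linarith) h5 (by norm_num)
  nlinarith

lemma rsq_small (C : Crit u Tr) {i k : ι} {t : ℝ} (ht : rsq u i ≤ t)
    (hc : -0.9995 ≤ dt (u i) (u k)) (hz : 1 - dt (u i) (u k) < t) : rsq u k ≤ 968000 * t := by
  have t0 : 0 < t := (C.rsq_pos i).trans_le ht
  by_cases e : i = k
  · subst e
    linarith
  · have h1 := C.rsq_le (i := k) (l := i) e
    rw [dt_comm (u k) (u i)] at h1
    have h2 := C.rsq_nonneg k
    have h3 : rsq u k * 0.0005 ≤ rsq u k * (1 + dt (u i) (u k)) :=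
      mul_le_mul_of_nonneg_left (by linarith) h2
    linarith

lemma bad2 (C : Crit u Tr) {i k : ι} {t : ℝ} (ht : rsq u i ≤ t)
    (hc : -0.9995 ≤ dt (u i) (u k)) (hz : 1 - dt (u i) (u k) < t) {x : E3}
    (hx : x ∈ fc u 1 {k}) : 1 - dt (u i) x ≤ 1393 * t := by
  have t0 : 0 < t := (C.rsq_pos i).trans_le ht
  have h1 := rsq_small C ht hc hz
  have h2 := C.dt_tan_sq k i (y := x - u k) (by rw [dt_sub, Crit.mem_face hx, C.unit, sub_self])
  rw [C.sub_sq (Crit.mem_face hx), dt_sub, dt_comm (u k) (u i)] at h2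
  have h3 := C.le_rsq hx
  have h4 := C.cos_le i k
  have h5 : 0 ≤ dt x x - 1 := by
    rw [← C.sub_sq (Crit.mem_face hx)]
    exact dt_self_nonneg _
  set c := dt (u i) (u k)
  have h6 : 1 - c ^ 2 ≤ 2 * t := by nlinarith
  have h7 : (1 - c ^ 2) * (dt x x - 1) ≤ 2 * t * (968000 * t) :=
    mul_le_mul h6 (by linarith) h5 (by positivity)
  have h8 : (dt (u i) x - c) ^ 2 ≤ (1392 * t) ^ 2 := by nlinarith
  have := abs_le_of_sq_le_sq' h8 (by positivity)
  linarith [this.1]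

/-- the integrand of the far part -/
noncomputable def ph (u : ι → E3) (e : E3) (t : ℝ) : E3 → ENNReal :=
  (Far u e t).indicator fun x => ENNReal.ofReal (WW t (1 - dt e x))

lemma measurable_ph (u : ι → E3) (e : E3) {t : ℝ} (ht : 0 < t) : Measurable (ph u e t) :=
  (ENNReal.measurable_ofReal.comp (contW e ht).measurable).indicator (measurableSet_Far u e t)

lemma inner_le (C : Crit u Tr) (i : ι) {k : ι} {t : ℝ} (ht : 0 < t) {x : E3}
    (hx : x ∈ fc u 1 {k}) :
    ∫⁻ l in Ioc (0 : ℝ) 1, ENNReal.ofReal (l ^ 2) * ph u (u i) t (l • x) ≤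
      ENNReal.ofReal (rsq u k / 2 * WW t (1 - dt (u i) x)) := by
  have hr := C.rsq_nonneg k
  calc _ ≤ ∫⁻ l in Ioc (0 : ℝ) 1, (Ioc (1 - rsq u k / 2) 1).indicator
        (fun _ => ENNReal.ofReal (WW t (1 - dt (u i) x))) l := by
        refine setLIntegral_mono' measurableSet_Ioc fun l hl => ?_
        by_cases hm : l • x ∈ Far u (u i) t
        · have h1 := ray_len C hx hl.1 hm.1.2.1
          have h2 := ray_pos hl.1 hm.1.2.2
          have h3 : dt (u i) x ≤ 1 := hx.1 i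
          rw [indicator_of_mem (show l ∈ Ioc (1 - rsq u k / 2) 1 from ⟨h1, hl.2⟩), ph,
            indicator_of_mem hm, ← ENNReal.ofReal_mul (sq_nonneg l)]
          refine ENNReal.ofReal_le_ofReal ?_
          have h4 : WW t (1 - dt (u i) (l • x)) ≤ WW t (1 - dt (u i) x) := by
            refine WW_anti ht (by linarith) ?_
            rw [dt_smul]
            nlinarith [hl.2]
          have h5 : l ^ 2 ≤ 1 := pow_le_one₀ hl.1.le hl.2
          have h6 := WW_pos ht (1 - dt (u i) (l • x))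
          nlinarith
        · rw [ph, indicator_of_notMem hm, mul_zero]
          exact zero_le
    _ ≤ ∫⁻ l, (Ioc (1 - rsq u k / 2) 1).indicator
        (fun _ => ENNReal.ofReal (WW t (1 - dt (u i) x))) l := setLIntegral_le_lintegral _ _
    _ = _ := by
        rw [lintegral_indicator_const measurableSet_Ioc, Real.volume_Ioc,
          ← ENNReal.ofReal_mul (WW_pos ht _).le]
        congr 1
        ring

lemma inner_zero {e x : E3} {t : ℝ} (h : ∀ l ∈ Ioc (0 : ℝ) 1, l • x ∉ Far u e t) :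
    ∫⁻ l in Ioc (0 : ℝ) 1, ENNReal.ofReal (l ^ 2) * ph u e t (l • x) = 0 := by
  refine setLIntegral_eq_zero measurableSet_Ioc fun l hl => ?_
  simp only [ph, indicator_of_notMem (h l hl), mul_zero, Pi.zero_apply]

lemma face_le (C : Crit u Tr) (i k : ι) {t : ℝ} (ht : rsq u i ≤ t) :
    ∫⁻ x in fc u 1 {k}, (∫⁻ l in Ioc (0 : ℝ) 1,
      ENNReal.ofReal (l ^ 2) * ph u (u i) t (l • x)) ∂μHE[2] ≤
      ENNReal.ofReal (10 ^ 13 / 2 * XX u (u i) t k) := by
  have t0 : 0 < t := (C.rsq_pos i).trans_le ht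
  have mf : MeasurableSet (fc u 1 {k}) := (isClosed_fc u 1 {k}).measurableSet
  have zero : (∀ x ∈ fc u 1 {k}, ∀ l ∈ Ioc (0 : ℝ) 1, l • x ∉ Far u (u i) t) →
      ∫⁻ x in fc u 1 {k}, (∫⁻ l in Ioc (0 : ℝ) 1,
        ENNReal.ofReal (l ^ 2) * ph u (u i) t (l • x)) ∂μHE[2] ≤
        ENNReal.ofReal (10 ^ 13 / 2 * XX u (u i) t k) := by
    intro h
    rw [setLIntegral_eq_zero mf fun x hx => inner_zero (h x hx)]
    exact zero_le
  by_cases hc : -0.9995 ≤ dt (u i) (u k)
  · by_cases hz : t ≤ 1 - dt (u i) (u k)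
    · have hr := C.rsq_nonneg k
      have hi : IntegrableOn (fun x => rsq u k / 2 * WW t (1 - dt (u i) x)) (fc u 1 {k}) μHE[2] :=
        C.sys.integrableOn_fc C.unit k (continuous_const.mul (contW _ t0))
      calc _ ≤ ∫⁻ x in fc u 1 {k},
            ENNReal.ofReal (rsq u k / 2 * WW t (1 - dt (u i) x)) ∂μHE[2] :=
            setLIntegral_mono' mf fun x hx => inner_le C i t0 hx
        _ = ENNReal.ofReal (∫ x in fc u 1 {k}, rsq u k / 2 * WW t (1 - dt (u i) x) ∂μHE[2]) :=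
            (ofReal_integral_eq_lintegral_ofReal hi
              (Eventually.of_forall fun x => mul_nonneg (by positivity) (WW_pos t0 _).le)).symm
        _ ≤ _ := by
            refine ENNReal.ofReal_le_ofReal ?_
            rw [integral_const_mul]
            have := C.XX_ge1 i k t0 hz hc
            linarith
    · push Not at hz
      refine zero fun x hx l hl hm => ?_
      have h1 := ray_len C hx hl.1 hm.1.2.1
      have h2 := ray_pos hl.1 hm.1.2.2
      have h3 : dt (u i) x ≤ 1 := hx.1 i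
      have h4 := bad2 C ht hc hz hx
      have h5 := rsq_small C ht hc hz
      have h6 : 10 ^ 6 * t < 1 - dt (u i) (l • x) := hm.2
      rw [dt_smul] at h6
      have h7 : (1 - l) * dt (u i) x ≤ (1 - l) * 1 :=
        mul_le_mul_of_nonneg_left h3 (by linarith [hl.2])
      nlinarith
  · push Not at hc
    refine zero fun x hx l hl hm => ?_
    exact absurd (ray_pos hl.1 hm.1.2.2) (not_le.2 (bad1 C hc hx))

lemma far_le (C : Crit u Tr) (i : ι) {t : ℝ} (ht : rsq u i ≤ t) :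
    ∫ x in Far u (u i) t, WW t (1 - dt (u i) x) ≤ 2 * 10 ^ 13 * UU u (u i) t := by
  have t0 : 0 < t := (C.rsq_pos i).trans_le ht
  have hU := UU_nonneg u (u i) t
  have hi : IntegrableOn (fun x => WW t (1 - dt (u i) x)) (Far u (u i) t) :=
    (intOm C.sys (u i) (contW _ t0)).mono_set inter_subset_left
  rw [← ENNReal.ofReal_le_ofReal_iff (by positivity),
    ofReal_integral_eq_lintegral_ofReal hi (Eventually.of_forall fun x => (WW_pos t0 _).le)]
  have e1 : ∫⁻ x in Far u (u i) t, ENNReal.ofReal (WW t (1 - dt (u i) x)) =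
      ∫⁻ x in poly u 1, ph u (u i) t x := by
    rw [ph, lintegral_indicator (measurableSet_Far u (u i) t),
      Measure.restrict_restrict (measurableSet_Far u (u i) t),
      inter_eq_left.2 (fun x hx => hx.1.1)]
  rw [e1, C.sys.pyr_lintegral (fun _ => one_pos) C.unit (measurable_ph u (u i) t0)]
  calc _ ≤ ∑ k, ENNReal.ofReal (10 ^ 13 / 2 * XX u (u i) t k) := by
        refine Finset.sum_le_sum fun k _ => ?_
        rw [Pi.one_apply, ENNReal.ofReal_one, one_mul]
        exact face_le C i k ht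
    _ = ENNReal.ofReal (∑ k, 10 ^ 13 / 2 * XX u (u i) t k) :=
        (ENNReal.ofReal_sum_of_nonneg fun k _ =>
          mul_nonneg (by positivity) (C.XX_nonneg i k t0)).symm
    _ ≤ _ := by
        refine ENNReal.ofReal_le_ofReal ?_
        rw [← Finset.mul_sum]
        have := C.mono i t0
        linarith

end HoleX

open HoleX

theorem Crit.II_le (C : Crit u Tr) (i : ι) {t : ℝ} (ht : rsq u i ≤ t) :
    II u (u i) t ≤ 10 ^ 14 * UU u (u i) t := by
  have t0 : 0 < t := (C.rsq_pos i).trans_le ht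
  have hU := UU_nonneg u (u i) t
  have iW := intOm C.sys (u i) (contW (u i) t0)
  have iU := intOm C.sys (u i) (contU (u i) t0)
  have e1 := integral_inter_add_sdiff (measurableSet_far1 (u i) t) iW
  have h1 := far_le C i ht
  have md : MeasurableSet (Om u (u i) \ {x : E3 | 10 ^ 6 * t < 1 - dt (u i) x}) :=
    (measurableSet_Om u (u i)).diff (measurableSet_far1 (u i) t)
  have h2 : ∫ x in Om u (u i) \ {x : E3 | 10 ^ 6 * t < 1 - dt (u i) x}, WW t (1 - dt (u i) x) ≤
      ∫ x in Om u (u i) \ {x : E3 | 10 ^ 6 * t < 1 - dt (u i) x},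
        (10 ^ 12 + 1) * (t ^ 2 * WW t (1 - dt (u i) x) ^ 2) := by
    refine setIntegral_mono_on (iW.mono_set sdiff_subset)
      ((iU.mono_set sdiff_subset).const_mul _) md fun x hx => ?_
    have h3 : dt (u i) x ≤ 1 := hx.1.1 i
    exact WW_near t0 (by linarith) (not_lt.1 hx.2)
  have h3 : ∫ x in Om u (u i) \ {x : E3 | 10 ^ 6 * t < 1 - dt (u i) x},
      t ^ 2 * WW t (1 - dt (u i) x) ^ 2 ≤ UU u (u i) t :=
    setIntegral_mono_set iU (Eventually.of_forall fun x => by positivity) sdiff_subset.eventuallyLE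
  rw [integral_const_mul] at h2
  unfold II
  rw [← e1]
  unfold Far at h1
  linarith

theorem UU_le (S : Sys u 1 Tr) (e : E3) {t : ℝ} (ht : 0 < t) :
    UU u e t ≤ 4 / 3 * (II u e t - II u e (2 * t)) := by
  have t2 : 0 < 2 * t := by positivity
  have i1 := intOm S e (contW e ht)
  have i2 := intOm S e (contW e t2)
  unfold UU II
  rw [← integral_sub i1 i2, ← integral_const_mul]
  exact setIntegral_mono_on (intOm S e (contU e ht)) ((i1.sub i2).const_mul _)
    (measurableSet_Om u e) fun x _ => WW_diff ht _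

theorem decay : ∃ K q : ℝ, 1 ≤ K ∧ 0 < q ∧ q < 1 ∧
    ∀ (ι : Type) [Fintype ι] [DecidableEq ι] (u : ι → E3) (Tr : ι → ι → ι → Prop), Crit u Tr →
    ∀ (i k : ι) (m : ℕ), -0.9995 ≤ dt (u i) (u k) → 2 ^ m * rsq u i ≤ 1 - dt (u i) (u k) →
      rsq u k ≤ K * q ^ m * (1 - dt (u i) (u k)) := by
  obtain ⟨q0, hq0⟩ : ∃ q0 : ℝ, q0 = 1 - 3 / (4 * 10 ^ 14) := ⟨_, rfl⟩
  have q1 : 0 < q0 := by rw [hq0]; norm_num
  have q2 : q0 < 1 := by rw [hq0]; norm_num
  refine ⟨10 ^ 18, √q0, by norm_num, Real.sqrt_pos.2 q1, (Real.sqrt_lt' one_pos).2 (by linarith),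
    ?_⟩
  intro ι _ _ u Tr C i k m hc hz
  have r0 := C.rsq_pos i
  have ge : ∀ n : ℕ, rsq u i ≤ 2 ^ n * rsq u i := fun n =>
    le_mul_of_one_le_left r0.le (one_le_pow₀ one_le_two)
  have step : ∀ n : ℕ, II u (u i) (2 ^ n * rsq u i) ≤ q0 ^ n * 10 ^ 21 := by
    intro n
    induction n with
    | zero =>
      have h1 := C.II_le i le_rfl
      have h2 := C.core i
      simp only [pow_zero, one_mul]
      linarith
    | succ n ih =>
      have h1 := C.II_le i (ge n)
      have h2 := UU_le C.sys (u i) (r0.trans_le (ge n))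
      have e : (2 : ℝ) ^ (n + 1) * rsq u i = 2 * (2 ^ n * rsq u i) := by ring
      have h3 : II u (u i) (2 * (2 ^ n * rsq u i)) ≤ q0 * II u (u i) (2 ^ n * rsq u i) := by
        rw [hq0]
        linarith
      rw [e, pow_succ]
      nlinarith [mul_le_mul_of_nonneg_left ih q1.le]
  have t0 : 0 < 2 ^ m * rsq u i := r0.trans_le (ge m)
  have z0 : 0 < 1 - dt (u i) (u k) := t0.trans_le hz
  have h1 := C.XX_ge2 i k t0 hz hc
  have h2 : XX u (u i) (2 ^ m * rsq u i) k ≤ ∑ j, XX u (u i) (2 ^ m * rsq u i) j :=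
    Finset.single_le_sum (fun j _ => C.XX_nonneg i j t0) (Finset.mem_univ k)
  have h3 := C.mono i t0
  have h4 := UU_le C.sys (u i) t0
  have h5 := II_nonneg u (u i) (2 * (2 ^ m * rsq u i))
  have h6 := step m
  have h7 : 0 < q0 ^ m := pow_pos q1 m
  have h8 : XX u (u i) (2 ^ m * rsq u i) k ≤ 10 ^ 23 * q0 ^ m := by linarith
  have h9 : rsq u k ^ 2 ≤ (10 ^ 18 * √q0 ^ m * (1 - dt (u i) (u k))) ^ 2 := by
    have e : (√q0 ^ m) ^ 2 = q0 ^ m := by
      rw [← pow_mul, mul_comm, pow_mul, Real.sq_sqrt q1.le]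
    rw [mul_pow, mul_pow, e]
    have := mul_le_mul_of_nonneg_left h8
      (show 0 ≤ 10 ^ 13 * (1 - dt (u i) (u k)) ^ 2 by positivity)
    linarith
  exact (abs_le_of_sq_le_sq' h9 (by positivity)).2

end Pool.Agent.MP_5cfbf6_gt
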