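import Pool.Agent.MP_5cfbf6_gt.Plane

set_option autoImplicit false
set_option linter.unusedSectionVars false

namespace Pool.Agent.MP_5cfbf6_gt

open Set Filter Topology MeasureTheory Module

variable {ι : Type} [Fintype ι] [DecidableEq ι]

/-- the linear map with columns `a b c` -/
noncomputable def lin (a b c : E3) : E3 →ₗ[ℝ] E3 where
  toFun z := z 0 • a + z 1 • b + z 2 • c
  map_add' x y := by simp only [PiLp.add_apply]; module
  map_smul' t x := by simp only [PiLp.smul_apply, smul_eq_mul, RingHom.id_apply]; module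

lemma lin_apply (a b c z : E3) : lin a b c z = z 0 • a + z 1 • b + z 2 • c := rfl

lemma dt_lin (w a b c z : E3) :
    dt w (lin a b c z) = z 0 * dt w a + z 1 * dt w b + z 2 * dt w c := by
  rw [lin_apply, dt_add, dt_add, dt_smul, dt_smul, dt_smul]

lemma det_lin (a b c : E3) : LinearMap.det (lin a b c) = det3 a b c := by
  rw [← LinearMap.det_toMatrix (EuclideanSpace.basisFun (Fin 3) ℝ).toBasis, Matrix.det_fin_three]
  simp [LinearMap.toMatrix_apply, lin_apply, det3, dt]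
  ring

lemma vol_lin (a b c : E3) (Z : Set E3) :
    volume (lin a b c '' Z) = ENNReal.ofReal |det3 a b c| * volume Z := by
  rw [Measure.addHaar_image_linearMap, det_lin]

/-- closed positive orthant -/
def orth : Set E3 := {z | 0 ≤ z 0 ∧ 0 ≤ z 1 ∧ 0 ≤ z 2}

/-- coordinate tetrahedron -/
def tet (α0 α1 α2 : ℝ) : Set E3 := {z | z ∈ orth ∧ α0 * z 0 + α1 * z 1 + α2 * z 2 ≤ 1}

/-- coordinate tetrahedron cut by a second half-space -/
def cut (α0 α1 α2 β0 β1 β2 : ℝ) : Set E3 :=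
  {z | z ∈ tet α0 α1 α2 ∧ β0 * z 0 + β1 * z 1 + β2 * z 2 ≤ 1}

def QQ (a b : ℝ) : ℝ := a ^ 2 + a * b + b ^ 2

/-- the cut tetrahedron of a perturbation of size `ε` -/
def cutE (A B c a1 a2 b0 b1 b2 ε : ℝ) : Set E3 :=
  cut (1 / (1 + ε ^ 2 * A / 2)) ((1 + ε * a1) / (1 + ε ^ 2 * A / 2))
    ((1 + ε * a2) / (1 + ε ^ 2 * A / 2)) ((c + ε * b0) / (1 + ε ^ 2 * B / 2))
    ((1 + ε * b1) / (1 + ε ^ 2 * B / 2)) ((1 + ε * b2) / (1 + ε ^ 2 * B / 2))

/-- `c i` lies in the relative interior of face `i` -/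
def Ctr (u : ι → E3) (h : ι → ℝ) (c : ι → E3) : Prop :=
  ∀ i, dt (u i) (c i) = h i ∧ ∀ l, l ≠ i → dt (u l) (c i) < h l

/-- absolute determinant of the flag `(c i, ep i j, em i j)` -/
noncomputable def DD (u : ι → E3) (Tr : ι → ι → ι → Prop) (h : ι → ℝ) (c : ι → E3) (i j : ι) : ℝ :=
  mu u Tr h i j * (h i * (h j - dt (u j) (c i)))

/-- twice the mixed area of face `i` (unit normals) -/
noncomputable def aa (u : ι → E3) (Tr : ι → ι → ι → Prop) (y z : ι → ℝ) (i : ι) : ℝ :=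
  ∑ j, mu u Tr y i j * (z j - dt (u i) (u j) * z i)

/-- six times the mixed volume (unit normals) -/
noncomputable def TT (u : ι → E3) (Tr : ι → ι → ι → Prop) (x y z : ι → ℝ) : ℝ :=
  ∑ i, x i * aa u Tr y z i

variable {u : ι → E3} {h : ι → ℝ} {Tr : ι → ι → ι → Prop}

lemma Sys.exists_ctr (S : Sys u h Tr) : ∃ c, Ctr u h c := by
  choose c hc using S.exists_center
  exact ⟨c, hc⟩

lemma Sys.u_inj (S : Sys u 1 Tr) {i j : ι} (hij : i ≠ j) : u i ≠ u j := by
  obtain ⟨c, h1, h2⟩ := S.exists_center i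
  intro e
  have := h2 j hij.symm
  rw [← e, h1] at this
  exact lt_irrefl _ this

lemma Sys.cos_lt (S : Sys u 1 Tr) (hu : ∀ i, dt (u i) (u i) = 1) {i j : ι} (hij : i ≠ j) :
    dt (u i) (u j) < 1 := by
  have := dt_self_pos (sub_ne_zero.2 (S.u_inj hij))
  rw [dt_sub, sub_dt, sub_dt, hu, hu, dt_comm (u j) (u i)] at this
  linarith

lemma Sys.ctr_u (S : Sys u 1 Tr) (hu : ∀ i, dt (u i) (u i) = 1) : Ctr u 1 u :=
  fun i => ⟨hu i, fun _ hl => S.cos_lt hu hl⟩

lemma Sys.u_mem (S : Sys u 1 Tr) (hu : ∀ i, dt (u i) (u i) = 1) (i : ι) : u i ∈ fc u 1 {i} := by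
  refine ⟨fun l => ?_, fun l hl => by rw [mem_singleton_iff.1 hl]; exact hu i⟩
  by_cases e : l = i
  · rw [e]; exact (hu i).le
  · exact (S.cos_lt hu e).le

lemma Sys.DD_nonneg (S : Sys u h Tr) (hh : ∀ i, 0 < h i) {c : ι → E3} (hc : Ctr u h c) (i j : ι) :
    0 ≤ DD u Tr h c i j := by
  by_cases A : Adj Tr i j
  · have := (hc i).2 j (S.adj_ne A).symm
    exact mul_nonneg (S.mu_nonneg i j) (mul_nonneg (hh i).le (by linarith))
  · simp [DD, mu_of_not A]

end Pool.Agent.MP_5cfbf6_gt
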