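import Pool.Agent.MP_5cfbf6_gt.Geo1
import Pool.Agent.MP_5cfbf6_gt.Defs2

set_option autoImplicit false
set_option linter.unusedSectionVars false

namespace Pool.Agent.MP_5cfbf6_gt

open Set Filter Topology MeasureTheory Module

variable {ι : Type} [Fintype ι] [DecidableEq ι]

/-- a best simple polytope circumscribed about the unit ball -/
structure Crit (u : ι → E3) (Tr : ι → ι → ι → Prop) : Prop where
  sys : Sys u 1 Tr
  opt : Opt u 1 Tr
  unit : ∀ i, dt (u i) (u i) = 1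

/-- squared radius of face `i` about its tangent point -/
noncomputable def rsq (u : ι → E3) (i : ι) : ℝ := sSup ((fun x => dt x x - 1) '' fc u 1 {i})

noncomputable def WW (t s : ℝ) : ℝ := (s ^ 2 + t ^ 2)⁻¹

/-- the part of the polytope outside the ball, in the half-space of `e` -/
def Om (u : ι → E3) (e : E3) : Set E3 := {x | x ∈ poly u 1 ∧ 1 < dt x x ∧ 0 ≤ dt e x}

noncomputable def UU (u : ι → E3) (e : E3) (t : ℝ) : ℝ :=
  ∫ x in Om u e, t ^ 2 * WW t (1 - dt e x) ^ 2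

noncomputable def II (u : ι → E3) (e : E3) (t : ℝ) : ℝ := ∫ x in Om u e, WW t (1 - dt e x)

noncomputable def XX (u : ι → E3) (e : E3) (t : ℝ) (k : ι) : ℝ :=
  ∫ x in fc u 1 {k}, (dt e x - dt e (u k)) * (WW t (1 - dt e x) - WW t (1 - dt e (u k))) ∂μHE[2]

/-- the adjacency graph of the faces -/
def adjG (Tr : ι → ι → ι → Prop) : SimpleGraph ι := SimpleGraph.fromRel (Adj Tr)

variable {u : ι → E3} {Tr : ι → ι → ι → Prop}

lemma Sys.adjG_adj {h : ι → ℝ} (S : Sys u h Tr) {i j : ι} : (adjG Tr).Adj i j ↔ Adj Tr i j := by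
  rw [adjG, SimpleGraph.fromRel_adj]
  exact ⟨fun H => H.2.elim id S.adj_symm, fun A => ⟨S.adj_ne A, Or.inl A⟩⟩

lemma WW_pos {t : ℝ} (ht : 0 < t) (s : ℝ) : 0 < WW t s := by unfold WW; positivity

lemma continuous_WW {t : ℝ} (ht : 0 < t) : Continuous (WW t) :=
  Continuous.inv₀ (by fun_prop) fun s => by positivity

lemma measurableSet_Om (u : ι → E3) (e : E3) : MeasurableSet (Om u e) :=
  (isClosed_poly u 1).measurableSet.inter
    ((isOpen_lt continuous_const (by fun_prop : Continuous fun x : E3 => dt x x)).measurableSet.inter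
      (isClosed_le continuous_const (by fun_prop : Continuous fun x : E3 => dt e x)).measurableSet)

namespace Crit

lemma mem_face {i : ι} {x : E3} (hx : x ∈ fc u 1 {i}) : dt (u i) x = 1 := hx.2 i rfl

lemma exists_rsq (C : Crit u Tr) (i : ι) :
    ∃ x ∈ fc u 1 {i}, rsq u i = dt x x - 1 ∧ ∀ y ∈ fc u 1 {i}, dt y y - 1 ≤ dt x x - 1 :=
  (C.sys.isCompact_fc {i}).exists_sSup_image_eq_and_ge ⟨_, C.sys.u_mem C.unit i⟩
    (Continuous.continuousOn (by fun_prop))

lemma le_rsq (C : Crit u Tr) {i : ι} {x : E3} (hx : x ∈ fc u 1 {i}) : dt x x ≤ 1 + rsq u i := by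
  obtain ⟨y, -, e, H⟩ := C.exists_rsq i
  have := H x hx
  linarith

lemma sub_sq (C : Crit u Tr) {i : ι} {x : E3} (hx : dt (u i) x = 1) :
    dt (x - u i) (x - u i) = dt x x - 1 := by
  rw [dt_sub, sub_dt, sub_dt, C.unit, hx, dt_comm x (u i), hx]; ring

lemma rsq_nonneg (C : Crit u Tr) (i : ι) : 0 ≤ rsq u i := by
  have := C.le_rsq (C.sys.u_mem C.unit i)
  rw [C.unit] at this; linarith

lemma rsq_le_eight (C : Crit u Tr) (i : ι) : rsq u i ≤ 8 := by
  obtain ⟨y, hy, e, -⟩ := C.exists_rsq i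
  have := C.sys.radius C.opt C.unit y hy.1
  linarith

lemma cos_le (C : Crit u Tr) (i j : ι) : dt (u i) (u j) ≤ 1 := (C.sys.u_mem C.unit j).1 i

lemma neg_le_cos (C : Crit u Tr) (i j : ι) : -1 ≤ dt (u i) (u j) := by
  have := dt_sq_le (u i) (u j)
  rw [C.unit, C.unit] at this
  nlinarith

/-- fatness -/
lemma rsq_le (C : Crit u Tr) {i l : ι} (hl : l ≠ i) :
    rsq u i * (1 + dt (u i) (u l)) ≤ 484 * (1 - dt (u i) (u l)) := by
  set c := dt (u i) (u l) with hc
  have c1 : c < 1 := C.sys.cos_lt C.unit hl.symm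
  rcases (C.neg_le_cos i l).eq_or_lt with e | c2
  · rw [← hc] at e; rw [← e]; norm_num
  rw [← hc] at c2
  have hs : 0 < 1 - c ^ 2 := by nlinarith
  set s := √(1 - c ^ 2) with hsd
  have s0 : 0 < s := Real.sqrt_pos.2 hs
  have ss : s ^ 2 = 1 - c ^ 2 := Real.sq_sqrt hs.le
  have h := C.sys.fat C.opt C.unit i (e := s⁻¹ • (u l - c • u i)) (ρ := (1 - c) / s)
    (by rw [dt_smul, dt_sub, dt_smul, C.unit, ← hc]; ring)
    (by
      simp only [dt_smul, smul_dt, dt_sub, sub_dt, C.unit, dt_comm (u l) (u i), ← hc]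
      field_simp; linarith)
    (by
      intro x hx
      have h1 : dt (u l) x ≤ 1 := hx.1 l
      rw [smul_dt, sub_dt, smul_dt, mem_face hx, div_eq_inv_mul]
      gcongr; linarith)
  obtain ⟨y, hy, e, -⟩ := C.exists_rsq i
  have h2 := h y hy
  rw [div_pow, ss] at h2
  have h3 : (1 - c) ^ 2 / (1 - c ^ 2) * (1 + c) = 1 - c := by
    field_simp; ring
  have : rsq u i ≤ 484 * ((1 - c) ^ 2 / (1 - c ^ 2)) := by linarith
  calc _ ≤ 484 * ((1 - c) ^ 2 / (1 - c ^ 2)) * (1 + c) := by gcongr; linarith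
    _ = _ := by rw [mul_assoc, h3]

lemma dt_tan_sq (C : Crit u Tr) (i l : ι) {y : E3} (hy : dt (u i) y = 0) :
    dt (u l) y ^ 2 ≤ (1 - dt (u i) (u l) ^ 2) * dt y y := by
  have := dt_sq_le (u l - dt (u i) (u l) • u i) y
  simp only [dt_smul, smul_dt, dt_sub, sub_dt, C.unit, dt_comm (u l) (u i), hy] at this
  nlinarith

/-- the face contains the disc of radius `R / 22` -/
lemma disc (C : Crit u Tr) (i : ι) {y : E3} (hy : dt (u i) y = 0) (h : 484 * dt y y ≤ rsq u i) :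
    u i + y ∈ fc u 1 {i} := by
  refine ⟨fun l => ?_, fun l hl => by
    rw [mem_singleton_iff.1 hl, dt_add, hy, C.unit]; simp⟩
  rw [dt_add]
  by_cases e : l = i
  · rw [e, hy, C.unit]; simp
  have h1 := C.rsq_le e
  have h2 := C.dt_tan_sq i l hy
  have h3 := C.cos_le i l
  have h4 := C.neg_le_cos i l
  rw [dt_comm (u l) (u i)]
  set c := dt (u i) (u l)
  have h5 : dt y y * (1 + c) ≤ 1 - c := by nlinarith
  have h6 : dt (u l) y ^ 2 ≤ (1 - c) ^ 2 := by nlinarith
  have := abs_le_of_sq_le_sq' h6 (by linarith)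
  show c + dt (u l) y ≤ 1
  linarith [this.2]

lemma adj_cos (C : Crit u Tr) {i j : ι} (A : Adj Tr i j) :
    1 - dt (u i) (u j) ≤ rsq u i * (1 + dt (u i) (u j)) := by
  have hx : ep u Tr 1 i j ∈ fc u 1 {i} :=
    ⟨C.sys.ep_mem A, fun l hl => by rw [mem_singleton_iff.1 hl]; exact C.sys.ep1 A 1⟩
  have h1 := C.le_rsq hx
  have h2 := C.dt_tan_sq i j (y := ep u Tr 1 i j - u i) (by rw [dt_sub, mem_face hx, C.unit, sub_self])
  rw [C.sub_sq (mem_face hx), dt_sub, C.sys.ep2 A, dt_comm (u j) (u i)] at h2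
  have h3 := C.sys.cos_lt C.unit (C.sys.adj_ne A)
  have h4 := C.neg_le_cos i j
  set c := dt (u i) (u j)
  simp only [Pi.one_apply] at h2
  have h5 : (1 - c) * (1 - c) ≤ (1 - c) * (rsq u i * (1 + c)) := by
    have : (1 - c ^ 2) * (dt (ep u Tr 1 i j) (ep u Tr 1 i j) - 1) ≤ (1 - c ^ 2) * rsq u i := by
      apply mul_le_mul_of_nonneg_left _ (by nlinarith); linarith
    nlinarith
  exact le_of_mul_le_mul_left h5 (by linarith)

lemma rsq_pos (C : Crit u Tr) (i : ι) : 0 < rsq u i := by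
  obtain ⟨j, k, T⟩ := C.sys.used i
  have h1 := C.adj_cos ⟨k, T⟩
  have h3 := C.sys.cos_lt C.unit (C.sys.ne12 T)
  rcases (C.rsq_nonneg i).eq_or_lt with e | e
  · rw [← e] at h1; linarith
  · exact e

lemma ball_subset (C : Crit u Tr) {x : E3} (hx : dt x x ≤ 1) : x ∈ poly u 1 := by
  intro l
  have := dt_sq_le (u l) x
  rw [C.unit] at this
  show dt (u l) x ≤ 1
  nlinarith

end Crit

end Pool.Agent.MP_5cfbf6_gt
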