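import Pool.Agent.MP_5cfbf6_gt.Edge

set_option autoImplicit false
set_option linter.unusedSectionVars false

namespace Pool.Agent.MP_5cfbf6_gt

open Set Filter Topology MeasureTheory Module

variable {ι : Type} [Fintype ι] [DecidableEq ι]

lemma not_extreme {u : ι → E3} {h : ι → ℝ} {x z : E3} (hz : z ≠ 0)
    (H : ∀ l, dt (u l) x = h l → dt (u l) z = 0) : x ∉ (poly u h).extremePoints ℝ := by
  intro hx
  obtain ⟨δ, hδ, Hm⟩ := exists_move u h x z
  have mem : ∀ t : ℝ, |t| ≤ δ → x + t • z ∈ poly u h := by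
    intro t ht l
    rcases (hx.1 l).eq_or_lt with e | e
    · rw [dt_add, dt_smul, H l e, e]; simp
    · exact (Hm t ht l e).le
  have h1 := mem δ (by rw [abs_of_pos hδ])
  have h2 := mem (-δ) (by rw [abs_neg, abs_of_pos hδ])
  have h3 : x ∈ openSegment ℝ (x + δ • z) (x + (-δ) • z) :=
    ⟨1 / 2, 1 / 2, by norm_num, by norm_num, by norm_num, by module⟩
  have := (mem_extremePoints.1 hx).2 _ h1 _ h2 h3
  have e : δ • z = 0 := by simpa using this.1
  rcases smul_eq_zero.1 e with e | e
  · exact hδ.ne' e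
  · exact hz e

def act (u : ι → E3) (h : ι → ℝ) (F : Set E3) : Set ι := {l | ∀ x ∈ F, dt (u l) x = h l}

def Good (Tr : ι → ι → ι → Prop) (A : Set ι) : Prop :=
  A = univ ∨ ∃ i j k, Tr i j k ∧ ∀ l ∈ A, l = i ∨ l = j ∨ l = k

noncomputable def perp (a : E3) : Submodule ℝ E3 := (ℝ ∙ a)ᗮ

lemma mem_perp {a x : E3} : x ∈ perp a ↔ dt a x = 0 := by
  rw [perp, Submodule.mem_orthogonal_singleton_iff_inner_right, dt_eq_inner]

lemma finrank_perp {a : E3} (ha : a ≠ 0) : finrank ℝ (perp a) = 2 := by
  have : Fact (finrank ℝ E3 = 2 + 1) := ⟨by simp⟩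
  exact Submodule.finrank_orthogonal_span_singleton ha

lemma vectorSpan_le_perp {F : Set E3} {a : E3} {c : ℝ} (H : ∀ x ∈ F, dt a x = c) :
    vectorSpan ℝ F ≤ perp a := by
  rw [vectorSpan_def, Submodule.span_le]
  rintro _ ⟨x, hx, y, hy, rfl⟩
  show x - y ∈ perp a
  rw [mem_perp, dt_sub, H x hx, H y hy, sub_self]

lemma fc_anti (u : ι → E3) (h : ι → ℝ) {A B : Set ι} (hAB : A ⊆ B) : fc u h B ⊆ fc u h A :=
  fun _ hx => ⟨hx.1, fun i hi => hx.2 i (hAB hi)⟩

lemma act_anti (u : ι → E3) (h : ι → ℝ) {F G : Set E3} (hFG : F ⊆ G) :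
    act u h G ⊆ act u h F := fun _ hl x hx => hl x (hFG hx)

/-- an exposed face of an H-polyhedron is cut out by its active constraints -/
lemma exists_relint {u : ι → E3} {h : ι → ℝ} {F : Set E3} (hc : Convex ℝ F) (hF : F ⊆ poly u h)
    (hne : F.Nonempty) : ∃ x ∈ F, ∀ l, dt (u l) x = h l → l ∈ act u h F := by
  classical
  have key : ∀ s : Finset ι, ∃ x ∈ F, ∀ l ∈ s, dt (u l) x = h l → l ∈ act u h F := by
    intro s
    induction s using Finset.induction_on with
    | empty => obtain ⟨x, hx⟩ := hne; exact ⟨x, hx, by simp⟩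
    | insert a s _ ih =>
      obtain ⟨x, hx, H⟩ := ih
      by_cases ha : a ∈ act u h F
      · refine ⟨x, hx, fun l hl e => ?_⟩
        rcases Finset.mem_insert.1 hl with rfl | hl
        · exact ha
        · exact H l hl e
      · simp only [act, mem_ofPred_eq, not_forall] at ha
        obtain ⟨y, hy, hy2⟩ := ha
        refine ⟨(1 / 2 : ℝ) • x + (1 / 2 : ℝ) • y,
          hc hx hy (by norm_num) (by norm_num) (by norm_num), fun l hl e => ?_⟩
        rw [dt_add, dt_smul, dt_smul] at e
        have b1 := hF hx l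
        have b2 := hF hy l
        rcases Finset.mem_insert.1 hl with rfl | hl
        · exact absurd (by linarith) hy2
        · exact H l hl (by linarith)
  obtain ⟨x, hx, H⟩ := key Finset.univ
  exact ⟨x, hx, fun l => H l (Finset.mem_univ l)⟩

lemma fc_act_of_exposed {u : ι → E3} {h : ι → ℝ} {F : Set E3}
    (hF : IsExposed ℝ (poly u h) F) (hne : F.Nonempty) : fc u h (act u h F) = F := by
  apply Subset.antisymm
  · intro x hx
    obtain ⟨x0, hx0, H⟩ := exists_relint (hF.convex (convex_poly u h)) hF.subset hne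
    obtain ⟨l, hl⟩ := hF hne
    obtain ⟨δ, hδ, Hm⟩ := exists_move u h x0 (x0 - x)
    have hm : x0 + δ • (x0 - x) ∈ poly u h := by
      intro i
      rcases (hF.subset hx0 i).eq_or_lt with e | e
      · rw [dt_add, dt_smul, dt_sub, e, hx.2 i (H i e)]; simp
      · exact (Hm δ (by rw [abs_of_pos hδ]) i e).le
    have h0 := hx0
    rw [hl] at h0 ⊢
    have h1 := h0.2 _ hm
    simp only [map_add, map_smul, map_sub, smul_eq_mul] at h1
    refine ⟨hx.1, fun y hy => (h0.2 y hy).trans ?_⟩
    nlinarith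
  · intro x hx
    exact ⟨hF.subset hx, fun i hi => hi x hx⟩

namespace Sys

variable {u : ι → E3} {h : ι → ℝ} {Tr : ι → ι → ι → Prop}

lemma extreme_sub (S : Sys u h Tr) {x : E3} (hx : x ∈ (poly u h).extremePoints ℝ) :
    ∃ i j k, Tr i j k ∧ x = vx u h i j k := by
  obtain ⟨i, j, k, T, H⟩ := S.cover x hx.1
  refine ⟨i, j, k, T, S.eq_vx T ?_ ?_ ?_⟩
  · by_contra hc
    obtain ⟨z, hz, e1, e2⟩ := exists_orth2 (u j) (u k)
    refine not_extreme hz (fun l hl => ?_) hx
    rcases H l hl with rfl | rfl | rfl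
    · exact absurd hl hc
    · exact e1
    · exact e2
  · by_contra hc
    obtain ⟨z, hz, e1, e2⟩ := exists_orth2 (u i) (u k)
    refine not_extreme hz (fun l hl => ?_) hx
    rcases H l hl with rfl | rfl | rfl
    · exact e1
    · exact absurd hl hc
    · exact e2
  · by_contra hc
    obtain ⟨z, hz, e1, e2⟩ := exists_orth2 (u i) (u j)
    refine not_extreme hz (fun l hl => ?_) hx
    rcases H l hl with rfl | rfl | rfl
    · exact e1
    · exact e2
    · exact absurd hl hc

lemma interior_ne (S : Sys u h Tr) : (interior (poly u h)).Nonempty := by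
  obtain ⟨x, hx⟩ := S.exists_strict
  refine ⟨x, mem_interior_iff_mem_nhds.2 ?_⟩
  have : ∀ᶠ y in 𝓝 x, ∀ l, dt (u l) y < h l := by
    rw [eventually_all]
    intro l
    exact ContinuousAt.eventually_lt (Continuous.continuousAt (by fun_prop)) continuousAt_const
      (hx l)
  exact this.mono fun y hy l => (hy l).le

lemma isPolytope (S : Sys u h Tr) : IsPolytope (poly u h) := by
  classical
  refine ⟨⟨(Finset.univ.filter fun t : ι × ι × ι => Tr t.1 t.2.1 t.2.2).image
    fun t => vx u h t.1 t.2.1 t.2.2, ?_⟩, S.interior_ne⟩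
  apply Subset.antisymm
  · rw [← closure_convexHull_extremePoints S.isCompact (convex_poly u h)]
    refine closure_minimal (convexHull_mono ?_) ((Finset.finite_toSet _).isClosed_convexHull ℝ)
    intro x hx
    obtain ⟨i, j, k, T, rfl⟩ := S.extreme_sub hx
    simp only [Finset.coe_image, Finset.coe_filter, Finset.mem_univ, true_and, mem_image,
      mem_ofPred_eq]
    exact ⟨(i, j, k), T, rfl⟩
  · refine convexHull_min ?_ (convex_poly u h)
    intro x hx
    simp only [Finset.coe_image, Finset.coe_filter, Finset.mem_univ, true_and, mem_image,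
      mem_ofPred_eq] at hx
    obtain ⟨t, T, rfl⟩ := hx
    exact S.vx_mem T

lemma fc_univ (S : Sys u h Tr) : fc u h univ = ∅ := by
  rw [eq_empty_iff_forall_notMem]
  intro x hx
  obtain ⟨i, j, k, T, H⟩ := S.cover x hx.1
  obtain ⟨k', T', e⟩ := S.exists_opp T
  rcases H k' (hx.2 k' trivial) with e' | e' | e'
  · exact S.ne13 T' e'.symm
  · exact S.ne23 T' e'.symm
  · rw [e'] at e; nlinarith [sq_nonneg (det3 (u i) (u j) (u k))]

lemma good_spec (S : Sys u h Tr) {A : Set ι} (hA : Good Tr A) :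
    IsExposed ℝ (poly u h) (fc u h A) ∧ act u h (fc u h A) = A := by
  classical
  rcases hA with rfl | ⟨i, j, k, T, H⟩
  · rw [S.fc_univ]
    exact ⟨isExposed_empty, by ext l; simp [act]⟩
  · obtain ⟨x0, hx0, H0⟩ := S.exists_act T A H
    have m0 : x0 ∈ fc u h A := ⟨hx0, fun l hl => (H0 l).2 hl⟩
    refine ⟨fun _ => ⟨dtL (∑ l ∈ Finset.univ.filter (· ∈ A), u l), ?_⟩, ?_⟩
    · ext x
      simp only [mem_ofPred_eq, dtL_apply, sum_dt]
      constructor
      · intro hx
        refine ⟨hx.1, fun y hy => Finset.sum_le_sum fun l hl => ?_⟩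
        rw [hx.2 l (by simpa using hl)]; exact hy l
      · rintro ⟨hx, H1⟩
        refine ⟨hx, fun l hl => ?_⟩
        have h2 := H1 x0 hx0
        by_contra hne
        have : ∑ l ∈ Finset.univ.filter (· ∈ A), dt (u l) x
            < ∑ l ∈ Finset.univ.filter (· ∈ A), dt (u l) x0 := by
          apply Finset.sum_lt_sum
          · intro m hm
            rw [m0.2 m (by simpa using hm)]; exact hx m
          · exact ⟨l, by simpa using hl, by rw [m0.2 l hl]; exact lt_of_le_of_ne (hx l) hne⟩
        linarith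
    · ext l
      exact ⟨fun hl => (H0 l).1 (hl x0 m0), fun hl x hx => hx.2 l hl⟩

lemma exposed_spec (S : Sys u h Tr) {F : Set E3} (hF : IsExposed ℝ (poly u h) F) :
    Good Tr (act u h F) ∧ fc u h (act u h F) = F := by
  rcases F.eq_empty_or_nonempty with rfl | hne
  · have : act u h ∅ = univ := by ext l; simp [act]
    rw [this]; exact ⟨Or.inl rfl, S.fc_univ⟩
  · refine ⟨Or.inr ?_, fc_act_of_exposed hF hne⟩
    obtain ⟨x, hx⟩ := hne
    obtain ⟨i, j, k, T, H⟩ := S.cover x (hF.subset hx)
    exact ⟨i, j, k, T, fun l hl => H l (hl x hx)⟩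

theorem sameType (S : Sys u h Tr) {u' : ι → E3} {h' : ι → ℝ} (S' : Sys u' h' Tr) :
    SameType (poly u h) (poly u' h') := by
  refine ⟨{
    toFun := fun F => ⟨fc u' h' (act u h F.1), (S'.good_spec (S.exposed_spec F.2).1).1⟩
    invFun := fun F => ⟨fc u h (act u' h' F.1), (S.good_spec (S'.exposed_spec F.2).1).1⟩
    left_inv := fun F => Subtype.ext ?_
    right_inv := fun F => Subtype.ext ?_
    map_rel_iff' := ?_ }⟩
  · simp only
    rw [(S'.good_spec (S.exposed_spec F.2).1).2, (S.exposed_spec F.2).2]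
  · simp only
    rw [(S.good_spec (S'.exposed_spec F.2).1).2, (S'.exposed_spec F.2).2]
  · intro F G
    simp only [Equiv.coe_fn_mk, Subtype.mk_le_mk]
    constructor
    · intro H
      have := act_anti u' h' H
      rw [(S'.good_spec (S.exposed_spec F.2).1).2, (S'.good_spec (S.exposed_spec G.2).1).2] at this
      have h2 := fc_anti u h this
      rw [(S.exposed_spec F.2).2, (S.exposed_spec G.2).2] at h2
      exact h2
    · intro H
      exact fc_anti u' h' (act_anti u h H)

lemma good_single (S : Sys u h Tr) (i : ι) : Good Tr {i} := by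
  obtain ⟨j, k, T⟩ := S.used i
  exact Or.inr ⟨i, j, k, T, by simp⟩

lemma vectorSpan_face (S : Sys u h Tr) (i : ι) : vectorSpan ℝ (fc u h {i}) = perp (u i) := by
  apply le_antisymm (vectorSpan_le_perp fun x hx => hx.2 i rfl)
  intro z hz
  rw [mem_perp] at hz
  obtain ⟨c, hc, H⟩ := S.exists_center i
  obtain ⟨δ, hδ, Hm⟩ := exists_move u h c z
  have m1 : c ∈ fc u h {i} := ⟨fun l => by
    by_cases e : l = i
    · rw [e, hc]
    · exact (H l e).le, by simpa using hc⟩
  have m2 : c + δ • z ∈ fc u h {i} := ⟨fun l => by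
    by_cases e : l = i
    · rw [e, dt_add, dt_smul, hc, hz]; simp
    · exact (Hm δ (by rw [abs_of_pos hδ]) l (H l e)).le, by
    intro l hl; rw [mem_singleton_iff.1 hl, dt_add, dt_smul, hc, hz]; simp⟩
  have := vsub_mem_vectorSpan ℝ m2 m1
  simp only [vsub_eq_sub, add_sub_cancel_left] at this
  have h2 := (vectorSpan ℝ (fc u h {i})).smul_mem δ⁻¹ this
  rwa [smul_smul, inv_mul_cancel₀ hδ.ne', one_smul] at h2

lemma twoFaces_eq (S : Sys u h Tr) : twoFaces (poly u h) = range fun i => fc u h {i} := by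
  ext F
  constructor
  · rintro ⟨hF, hd⟩
    obtain ⟨-, e⟩ := S.exposed_spec hF
    rcases F.eq_empty_or_nonempty with rfl | hne
    · rw [vectorSpan_empty] at hd; simp at hd
    rcases (act u h F).eq_empty_or_nonempty with e0 | ⟨i, hi⟩
    · exfalso
      have : F = poly u h := by rw [← e, e0]; ext x; simp [fc]
      have h2 : vectorSpan ℝ F = ⊤ := by
        rw [this, ← direction_affineSpan,
          (convex_poly u h).interior_nonempty_iff_affineSpan_eq_top.1 S.interior_ne,
          AffineSubspace.direction_top]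
      rw [h2] at hd; simp at hd
    · refine ⟨i, ?_⟩
      have : act u h F = {i} := by
        refine Subset.antisymm (fun j hj => ?_) (by simpa using hi)
        by_contra hji
        obtain ⟨x, hx⟩ := hne
        obtain ⟨A, -⟩ := S.edge_pt (Ne.symm hji) (hF.subset hx) (hi x hx) (hj x hx)
        have h1 : vectorSpan ℝ F = perp (u i) :=
          Submodule.eq_of_le_of_finrank_eq (vectorSpan_le_perp hi)
            (by rw [hd, finrank_perp (S.u_ne i)])
        have h2 := vectorSpan_le_perp hj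
        rw [h1] at h2
        have h3 : cr (u i) (cr (u i) (u j)) ∈ perp (u i) := mem_perp.2 (dt_cr_left _ _)
        have h4 := mem_perp.1 (h2 h3)
        have h5 : dt (u j) (cr (u i) (cr (u i) (u j))) = -dt (cr (u i) (u j)) (cr (u i) (u j)) := by
          simp [dt]; ring
        have := S.cr_pos A
        linarith
      simp only
      rw [← this, e]
  · rintro ⟨i, rfl⟩
    exact ⟨(S.good_spec (S.good_single i)).1, by
      simp only; rw [S.vectorSpan_face, finrank_perp (S.u_ne i)]⟩

lemma face_inj (S : Sys u h Tr) : Function.Injective fun i => fc u h {i} := by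
  intro i j e
  have h1 := (S.good_spec (S.good_single i)).2
  have h2 := (S.good_spec (S.good_single j)).2
  simp only at e
  rw [e, h2] at h1
  exact (singleton_injective h1).symm

end Sys

/-- area of face `i` -/
noncomputable def ar (u : ι → E3) (h : ι → ℝ) (i : ι) : ℝ := (μHE[2] (fc u h {i})).toReal

/-- volume -/
noncomputable def vol (u : ι → E3) (h : ι → ℝ) : ℝ := (volume (poly u h)).toReal

lemma Sys.surfaceArea_eq {u : ι → E3} {h : ι → ℝ} {Tr : ι → ι → ι → Prop} (S : Sys u h Tr) :
    surfaceArea (poly u h) = ∑ i, ar u h i := by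
  unfold surfaceArea
  rw [S.twoFaces_eq, finsum_mem_range S.face_inj, finsum_eq_sum_of_fintype]
  rfl

/-- abstract optimality -/
def Opt (u : ι → E3) (h : ι → ℝ) (Tr : ι → ι → ι → Prop) : Prop :=
  ∀ u' h', Sys u' h' Tr → vol u' h' ^ 2 / (∑ i, ar u' h' i) ^ 3 ≤ vol u h ^ 2 / (∑ i, ar u h i) ^ 3

lemma Sys.opt_of_best {u : ι → E3} {h : ι → ℝ} {Tr : ι → ι → ι → Prop} (S : Sys u h Tr)
    (hb : IsBest (poly u h)) : Opt u h Tr := by
  intro u' h' S'
  have := hb.2 _ S'.isPolytope (S.sameType S')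
  unfold isoQuot at this
  rwa [S.surfaceArea_eq, S'.surfaceArea_eq] at this

end Pool.Agent.MP_5cfbf6_gt
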