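import Pool.Agent.MP_5cfbf6_gt.Alg
import Pool.Agent.MP_5cfbf6_gt.Aff
import Pool.Agent.MP_7791e4_an.BM

set_option autoImplicit false
set_option linter.unusedSectionVars false

namespace Pool.Agent.MP_5cfbf6_gt

open Set Filter Topology MeasureTheory Module

variable {ι : Type} [Fintype ι] [DecidableEq ι]
variable {u : ι → E3} {h : ι → ℝ} {Tr : ι → ι → ι → Prop}

lemma Sys.lind_ev (S : Sys u h Tr) (hh : ∀ i, 0 < h i) (y : ι → ℝ) :
    ∀ᶠ t : ℝ in 𝓝 0, Sys u (h + t • y) Tr ∧ ∀ l, 0 < (h + t • y) l := by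
  have hc : Continuous fun t : ℝ => (u, h + t • y) := by fun_prop
  have h1 : Tendsto (fun t : ℝ => (u, h + t • y)) (𝓝 0) (𝓝 (u, h)) := by
    simpa using hc.tendsto 0
  refine (h1.eventually S.eventually).and (eventually_all.2 fun l => ?_)
  have h2 : Continuous fun t : ℝ => (h + t • y) l := by fun_prop
  exact continuousAt_const.eventually_lt h2.continuousAt (by simpa using hh l)

lemma lind_ar_pl {i : ι} {e : E3} (hu : dt (u i) (u i) = 1) (he : dt e e = 1)
    (hne : dt (u i) e = 0) (h : ι → ℝ) :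
    ar u h i = volume.real (pl (h i • u i) e (cr (u i) e) ⁻¹' fc u h {i}) := by
  rw [ar, area_pl (b := h i • u i) hu he hne fun x hx => by
    rw [hx.2 i rfl, dt_smul, hu, mul_one]]
  rfl

open Pointwise in
lemma Sys.lind_bm (S : Sys u h Tr) (hu : ∀ i, dt (u i) (u i) = 1) {y : ι → ℝ}
    (S₁ : Sys u (h + y) Tr) (S₂ : Sys u (h - y) Tr) (i : ι) :
    1 / 2 * √(ar u (h + y) i) + 1 / 2 * √(ar u (h - y) i) ≤ √(ar u h i) := by
  obtain ⟨e, he, hne⟩ := exists_frame (n := u i)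
  have ne : ∀ {g : ι → ℝ}, Sys u g Tr →
      (pl (g i • u i) e (cr (u i) e) ⁻¹' fc u g {i}).Nonempty := fun {g} G => by
    obtain ⟨c, h1, h2⟩ := G.exists_center i
    refine ⟨⟨dt e (c - g i • u i), dt (cr (u i) e) (c - g i • u i)⟩, ?_⟩
    rw [mem_preimage, mem_range_pl (hu i) he hne (by rw [h1, dt_smul, hu, mul_one])]
    refine ⟨fun l => ?_, fun l hl => ?_⟩
    · rcases eq_or_ne l i with rfl | hl
      · exact h1.le
      · exact (h2 l hl).le
    · rw [mem_singleton_iff.1 hl, h1]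
  rw [lind_ar_pl (hu i) he hne, lind_ar_pl (hu i) he hne, lind_ar_pl (hu i) he hne]
  refine (MP_7791e4_an.bm_comb (isCompact_pl (hu i) he hne (S₁.isCompact_fc _))
    (convex_pl _ _ _ (convex_fc _ _ _)) (ne S₁) (isCompact_pl (hu i) he hne (S₂.isCompact_fc _))
    (convex_pl _ _ _ (convex_fc _ _ _)) (ne S₂) (by norm_num) (by norm_num)).trans
    (Real.sqrt_le_sqrt (measureReal_mono ?_
      (isCompact_pl (hu i) he hne (S.isCompact_fc _)).measure_lt_top.ne))
  rintro _ ⟨_, ⟨z, hz, rfl⟩, _, ⟨w, hw, rfl⟩, rfl⟩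
  have e1 : pl (h i • u i) e (cr (u i) e) ((1 / 2 : ℝ) • z + (1 / 2 : ℝ) • w) =
      (1 / 2 : ℝ) • pl ((h + y) i • u i) e (cr (u i) e) z +
        (1 / 2 : ℝ) • pl ((h - y) i • u i) e (cr (u i) e) w := by
    simp only [pl, Complex.add_re, Complex.add_im, Complex.smul_re, Complex.smul_im, smul_eq_mul,
      Pi.add_apply, Pi.sub_apply]
    module
  rw [mem_preimage] at hz hw ⊢
  simp only
  rw [e1]
  refine ⟨fun l => ?_, fun l hl => ?_⟩
  · have h1 := hz.1 l
    have h2 := hw.1 l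
    rw [Pi.add_apply h y l] at h1
    rw [Pi.sub_apply h y l] at h2
    rw [dt_add, dt_smul, dt_smul]
    linarith
  · rw [dt_add, dt_smul, dt_smul, hz.2 l hl, hw.2 l hl, Pi.add_apply, Pi.sub_apply]
    ring

lemma Sys.lind_aa (S : Sys u h Tr) (hu : ∀ i, dt (u i) (u i) = 1) (x y : ι → ℝ) (t : ℝ) (i : ι) :
    aa u Tr (x + t • y) (x + t • y) i =
      aa u Tr x x i + 2 * t * aa u Tr x y i + t ^ 2 * aa u Tr y y i := by
  rw [aa_add_left, aa_add_right, aa_add_right, aa_smul_left, aa_smul_left, aa_smul_right,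
    aa_smul_right, S.aa_symm hu y x]
  ring

theorem Sys.aa_nonpos (S : Sys u h Tr) (hu : ∀ i, dt (u i) (u i) = 1) (hh : ∀ i, 0 < h i)
    {y : ι → ℝ} {i : ι} (hy : aa u Tr h y i = 0) : aa u Tr y y i ≤ 0 := by
  have h1 := S.lind_ev hh y
  have h2 := (show Tendsto (fun t : ℝ => -t) (𝓝 0) (𝓝 0) by
    simpa using (continuous_neg (G := ℝ)).tendsto 0).eventually h1
  obtain ⟨t, ⟨⟨S₁, p₁⟩, S₂, p₂⟩, ht⟩ :=
    (((h1.and h2).filter_mono nhdsWithin_le_nhds).and self_mem_nhdsWithin).exists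
      (f := 𝓝[>] (0 : ℝ))
  have ht' : 0 < t := ht
  have a₁ := S₁.ar_aa hu p₁ i
  have a₂ := S₂.ar_aa hu p₂ i
  have a₀ := S.ar_aa hu hh i
  rw [S.lind_aa hu, hy] at a₁ a₂
  rw [neg_smul, ← sub_eq_add_neg] at S₂ a₂
  have hb := S.lind_bm hu S₁ S₂ i
  have e : ar u (h - t • y) i = ar u (h + t • y) i := by rw [a₁, a₂]; ring
  rw [e] at hb
  have h3 : √(ar u (h + t • y) i) ≤ √(ar u h i) := by linarith
  rw [Real.sqrt_le_sqrt_iff (S.ar_pos hh i).le, a₁, a₀] at h3
  by_contra hc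
  have := mul_pos (pow_pos ht' 2) (not_le.1 hc)
  linarith

lemma Sys.lind_sum_pos (S : Sys u h Tr) (hh : ∀ i, 0 < h i) : 0 < ∑ l, ar u h l := by
  obtain ⟨i, -⟩ := S.ne
  exact Finset.sum_pos (fun l _ => S.ar_pos hh l) ⟨i, Finset.mem_univ i⟩

lemma Sys.lind_vol_pos (S : Sys u h Tr) (hu : ∀ i, dt (u i) (u i) = 1) (hh : ∀ i, 0 < h i) :
    0 < vol u h := by
  obtain ⟨i, -⟩ := S.ne
  rw [S.vol_TT hu hh]
  refine div_pos (Finset.sum_pos (fun l _ => mul_pos (hh l) ?_) ⟨i, Finset.mem_univ i⟩)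
    (by norm_num)
  linarith [S.ar_pos hh l, S.ar_aa hu hh l]

lemma lind_TT_single (x y : ι → ℝ) (i : ι) : TT u Tr (Pi.single i 1) x y = aa u Tr x y i := by
  simp [TT, Pi.single_apply]

theorem Sys.critical (S : Sys u h Tr) (O : Opt u h Tr) (hu : ∀ i, dt (u i) (u i) = 1)
    (hh : ∀ i, 0 < h i) (i : ι) :
    aa u Tr h ((∑ l, ar u h l) • h + (-(3 * vol u h)) • (1 : ι → ℝ)) i = 0 := by
  obtain ⟨y, hy⟩ : ∃ y : ι → ℝ, y = Pi.single i 1 := ⟨_, rfl⟩
  obtain ⟨A, hA⟩ : ∃ A : ι → ℝ → ℝ, A = fun l t =>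
    aa u Tr h h l + 2 * t * aa u Tr h y l + t ^ 2 * aa u Tr y y l := ⟨_, rfl⟩
  have dA : ∀ l, HasDerivAt (A l) (2 * aa u Tr h y l) 0 := fun l => by
    rw [hA]
    have := ((((hasDerivAt_id (0 : ℝ)).const_mul 2).mul_const (aa u Tr h y l)).const_add
      (aa u Tr h h l)).add (((hasDerivAt_id (0 : ℝ)).pow 2).mul_const (aa u Tr y y l))
    refine this.congr_deriv ?_
    simp
  have A0 : ∀ l, A l 0 = aa u Tr h h l := fun l => by simp [hA]
  obtain ⟨V, hV⟩ : ∃ V : ℝ → ℝ, V = fun t => (∑ l, (h l + t * y l) * A l t) / 6 := ⟨_, rfl⟩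
  obtain ⟨F, hF⟩ : ∃ F : ℝ → ℝ, F = fun t => ∑ l, A l t / 2 := ⟨_, rfl⟩
  have dV : HasDerivAt V (aa u Tr h h i / 2) 0 := by
    rw [hV]
    have := (HasDerivAt.fun_sum (u := Finset.univ) fun l _ =>
      (((hasDerivAt_id (0 : ℝ)).mul_const (y l)).const_add (h l)).mul (dA l)).div_const 6
    refine this.congr_deriv ?_
    have e := S.TT_swap13 h h y
    have e2 := lind_TT_single (u := u) (Tr := Tr) h h i
    rw [← hy] at e2
    rw [e2] at e
    simp only [TT] at e e2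
    simp only [A0, id, zero_mul, add_zero, one_mul, Finset.sum_add_distrib, e2,
      mul_left_comm _ (2 : ℝ), ← Finset.mul_sum, e]
    ring
  have dF : HasDerivAt F (aa u Tr h 1 i) 0 := by
    rw [hF]
    have := HasDerivAt.fun_sum (u := Finset.univ) fun l _ => (dA l).div_const 2
    refine this.congr_deriv ?_
    have e := S.TT_swap13 1 h y
    rw [hy, lind_TT_single, ← hy] at e
    rw [← e]
    simp [TT]
  have V0 : V 0 = vol u h := by simp [hV, A0, S.vol_TT hu hh, TT]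
  have F0 : F 0 = ∑ l, ar u h l := by simp [hF, A0, S.ar_aa hu hh]
  have pV := S.lind_vol_pos hu hh
  have pF := S.lind_sum_pos hh
  have hm : IsLocalMax (fun t => V t ^ 2 * F 0 ^ 3 - V 0 ^ 2 * F t ^ 3) 0 := by
    filter_upwards [S.lind_ev hh y] with t ht
    have h1 := O u _ ht.1
    have e1 : vol u (h + t • y) = V t := by
      rw [ht.1.vol_TT hu ht.2, hV, hA]
      simp only [TT, S.lind_aa hu, Pi.add_apply, Pi.smul_apply, smul_eq_mul]
    have e2 : ∑ l, ar u (h + t • y) l = F t := by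
      rw [hF, hA]
      exact Finset.sum_congr rfl fun l _ => by rw [ht.1.ar_aa hu ht.2, S.lind_aa hu]
    have p2 := ht.1.lind_sum_pos ht.2
    rw [div_le_div_iff₀ (pow_pos p2 3) (pow_pos pF 3), e1, e2, ← V0, ← F0] at h1
    linarith
  have hd := hm.hasDerivAt_eq_zero
    (((dV.pow 2).mul_const (F 0 ^ 3)).sub ((dF.pow 3).const_mul (V 0 ^ 2)))
  rw [V0, F0] at hd
  rw [aa_add_right, aa_smul_right, aa_smul_right]
  have : vol u h * (∑ l, ar u h l) ^ 2 *
      ((∑ l, ar u h l) * aa u Tr h h i + -(3 * vol u h) * aa u Tr h 1 i) = 0 := by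
    rw [← hd]
    push_cast
    ring
  exact (mul_eq_zero.1 this).resolve_left (by positivity)

lemma lind_quad {b c : ℝ} (H : ∀ s : ℝ, 2 * s * b + s ^ 2 * c ≤ 0) : b = 0 := by
  have p : 0 < |c| + 1 := by positivity
  have h1 := H (b / (|c| + 1))
  have h2 : 2 * (b / (|c| + 1)) * b + (b / (|c| + 1)) ^ 2 * c =
      b ^ 2 * (2 * (|c| + 1) + c) / (|c| + 1) ^ 2 := by
    field_simp
  rw [h2, div_nonpos_iff] at h1
  have h3 : 0 < 2 * (|c| + 1) + c := by linarith [neg_abs_le c, abs_nonneg c]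
  by_contra hb
  have h4 := mul_pos (pow_pos (abs_pos.2 hb) 2) h3
  rw [sq_abs] at h4
  rcases h1 with h1 | h1
  · linarith [h1.2, pow_pos p 2]
  · linarith [h1.1]

lemma Sys.lind_pos (S : Sys u h Tr) (O : Opt u h Tr) (hu : ∀ i, dt (u i) (u i) = 1)
    (hh : ∀ i, 0 < h i) : Sys u 1 Tr ∧ Opt u 1 Tr := by
  obtain ⟨z, hz⟩ : ∃ z, z = (∑ l, ar u h l) • h + (-(3 * vol u h)) • (1 : ι → ℝ) := ⟨_, rfl⟩
  have z1 : ∀ i, aa u Tr h z i = 0 := fun i => hz ▸ S.critical O hu hh i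
  have z2 : ∀ i, aa u Tr z z i = 0 := by
    have e : TT u Tr h z z = 0 := by
      rw [S.TT_swap13]
      exact Finset.sum_eq_zero fun l _ => by rw [S.aa_symm hu, z1, mul_zero]
    have := (Finset.sum_eq_zero_iff_of_nonpos fun l _ =>
      mul_nonpos_of_nonneg_of_nonpos (hh l).le (S.aa_nonpos hu hh (z1 l))).1 e
    exact fun i => (mul_eq_zero.1 (this i (Finset.mem_univ i))).resolve_left (hh i).ne'
  have z3 : ∀ y i, aa u Tr h y i = 0 → aa u Tr z y i = 0 := fun y i hy =>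
    lind_quad (c := aa u Tr y y i) fun s => by
      have := S.aa_nonpos hu hh (y := z + s • y) (i := i) (by
        rw [aa_add_right, aa_smul_right, z1, hy, mul_zero, add_zero])
      rwa [S.lind_aa hu, z2, zero_add] at this
  have z4 : ∀ y i, aa u Tr z y i = 0 := fun y i => by
    have p : aa u Tr h h i ≠ 0 := by
      have := S.ar_pos hh i
      rw [S.ar_aa hu hh] at this
      intro e
      rw [e] at this
      simp at this
    have := z3 (y + (-(aa u Tr h y i / aa u Tr h h i)) • h) i (by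
      rw [aa_add_right, aa_smul_right]
      field_simp
      ring)
    rwa [aa_add_right, aa_smul_right, S.aa_symm hu z h, z1, mul_zero, add_zero] at this
  obtain ⟨o, ho⟩ := S.conn (z := z) fun i j => by
    rcases eq_or_ne j i with rfl | hij
    · exact mu_of_not (fun A => S.adj_ne A rfl) z
    · simpa [aa, Pi.single_apply, hij.symm] using z4 (Pi.single j 1) i
  have pV := S.lind_vol_pos hu hh
  have pF := S.lind_sum_pos hh
  have e : (fun l => (∑ l, ar u h l) / (3 * vol u h) * h l +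
      dt (u l) ((-(3 * vol u h)⁻¹) • o)) = 1 := by
    funext l
    rw [dt_smul, ← ho l, hz]
    simp only [Pi.add_apply, Pi.smul_apply, Pi.one_apply, smul_eq_mul]
    field_simp
    ring
  have pt : 0 < (∑ l, ar u h l) / (3 * vol u h) := by positivity
  exact ⟨e ▸ S.affine pt _, e ▸ O.affine pt _⟩

theorem Sys.lindelof (S : Sys u h Tr) (O : Opt u h Tr) (hu : ∀ i, dt (u i) (u i) = 1) :
    Sys u 1 Tr ∧ Opt u 1 Tr := by
  obtain ⟨x, hx⟩ := S.exists_strict
  exact (S.affine one_pos (-x)).lind_pos (O.affine one_pos (-x)) hu fun l => by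
    rw [dt_neg]
    linarith [hx l]

end Pool.Agent.MP_5cfbf6_gt
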