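import Pool.Agent.MP_5cfbf6_gt.Iface2

set_option autoImplicit false
set_option linter.unusedSectionVars false

namespace Pool.Agent.MP_5cfbf6_gt

open Set Filter Topology MeasureTheory Module

variable {ι : Type} [Fintype ι] [DecidableEq ι]
variable {u : ι → E3} {Tr : ι → ι → ι → Prop}

/-- coordinates in a frame -/
noncomputable def Slice_co (a b c : E3) : E3 →ₗ[ℝ] E3 where
  toFun x := !₂[dt a x, dt b x, dt c x]
  map_add' x y := by apply ext3 <;> simp [dt_add]
  map_smul' t x := by apply ext3 <;> simp [dt_smul]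

lemma Slice_mp {e f : E3} (he : dt e e = 1) (hf : dt f f = 1) (hef : dt e f = 0) :
    MeasurePreserving (fun x : E3 => ((dt e x, ⟨dt f x, dt (cr e f) x⟩) : ℝ × ℂ)) volume
      ((volume : Measure ℝ).prod (volume : Measure ℂ)) := by
  let L : E3 →ₗᵢ[ℝ] E3 :=
    { toLinearMap := Slice_co f (cr e f) e
      norm_map' := fun x => by
        rw [← sq_eq_sq₀ (norm_nonneg _) (norm_nonneg _), ← dt_self, ← dt_self,
          frame_sq he hf hef x x]
        simp [Slice_co, dt]
        ring }
  have h1 := (L.toLinearIsometryEquiv rfl).measurePreserving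
  have h3 := (MeasurePreserving.id (volume : Measure ℝ)).prod
    Complex.volume_preserving_equiv_real_prod.symm
  exact (h3.comp mp_coord).comp h1

lemma Slice_dt_pl {e f : E3} (he : dt e e = 1) (hef : dt e f = 0) (s : ℝ) (z : ℂ) :
    dt e (pl (s • e) f (cr e f) z) = s := by
  simp only [pl, dt_add, dt_smul, he, hef, dt_cr_left]
  ring

lemma Slice_area {e f : E3} (he : dt e e = 1) (hf : dt f f = 1) (hef : dt e f = 0) (K : Set E3)
    (s : ℝ) : μHE[2] (K ∩ {x | dt e x = s}) = volume (pl (s • e) f (cr e f) ⁻¹' K) := by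
  rw [area_pl (b := s • e) he hf hef fun x hx => by rw [hx.2, dt_smul, he, mul_one]]
  congr 1
  ext z
  simp [Slice_dt_pl he hef]

theorem slice_lintegral {e : E3} (he : dt e e = 1) {K : Set E3} (hK : MeasurableSet K)
    {φ : ℝ → ENNReal} (hφ : Measurable φ) :
    ∫⁻ x in K, φ (dt e x) = ∫⁻ s, φ s * μHE[2] (K ∩ {x | dt e x = s}) := by
  obtain ⟨f, hf, hef⟩ := exists_frame (n := e)
  have hc : Continuous fun p : ℝ × ℂ => pl (p.1 • e) f (cr e f) p.2 := by
    unfold pl
    fun_prop
  set G : ℝ × ℂ → ENNReal := fun p =>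
    φ p.1 * K.indicator 1 (pl (p.1 • e) f (cr e f) p.2) with hG
  have mG : Measurable G :=
    (hφ.comp measurable_fst).mul ((measurable_one.indicator hK).comp hc.measurable)
  have e1 : ∫⁻ x in K, φ (dt e x) = ∫⁻ x, G (dt e x, ⟨dt f x, dt (cr e f) x⟩) := by
    rw [← lintegral_indicator hK]
    refine lintegral_congr fun x => ?_
    have : pl (dt e x • e) f (cr e f) ⟨dt f x, dt (cr e f) x⟩ = x :=
      (frame_expand he hf hef x).symm
    simp only [hG, this]
    by_cases hx : x ∈ K <;> simp [hx]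
  rw [e1, (Slice_mp he hf hef).lintegral_comp mG, lintegral_prod _ mG.aemeasurable]
  refine lintegral_congr fun s => ?_
  have hm : MeasurableSet (pl (s • e) f (cr e f) ⁻¹' K) := (continuous_pl _ _ _).measurable hK
  simp only [hG]
  rw [Slice_area he hf hef, ← lintegral_indicator_one hm,
    ← lintegral_const_mul _ (measurable_one.indicator hm)]
  rfl

lemma Slice_ball {e : E3} (he : dt e e = 1) (ρ s : ℝ) :
    μHE[2] ({x : E3 | dt x x ≤ ρ} ∩ {x | dt e x = s}) = ENNReal.ofReal (Real.pi * (ρ - s ^ 2)) := by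
  obtain ⟨f, hf, hef⟩ := exists_frame (n := e)
  rw [Slice_area he hf hef]
  have k : ∀ z : ℂ, dt (pl (s • e) f (cr e f) z) (pl (s • e) f (cr e f) z) = s ^ 2 + ‖z‖ ^ 2 := by
    intro z
    rw [Complex.sq_norm, Complex.normSq_apply]
    simp only [pl, dt_add, add_dt, dt_smul, smul_dt, he, hf, hef, dt_comm f e, dt_cr_left,
      dt_cr_right, dt_comm (cr e f) e, dt_comm (cr e f) f, dt_cr_unit he hf hef]
    ring
  rcases lt_or_ge (ρ - s ^ 2) 0 with h | h
  · have : pl (s • e) f (cr e f) ⁻¹' {x : E3 | dt x x ≤ ρ} = ∅ := by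
      ext z
      simp only [mem_preimage, mem_ofPred_eq, k, mem_empty_iff_false, iff_false, not_le]
      nlinarith [sq_nonneg ‖z‖]
    rw [this, measure_empty, ENNReal.ofReal_of_nonpos]
    nlinarith [Real.pi_pos]
  · have : pl (s • e) f (cr e f) ⁻¹' {x : E3 | dt x x ≤ ρ} =
        Metric.closedBall 0 √(ρ - s ^ 2) := by
      ext z
      simp only [mem_preimage, mem_ofPred_eq, k, mem_closedBall_zero_iff]
      rw [Real.le_sqrt (norm_nonneg _) h]
      constructor <;> intro <;> linarith
    rw [this, Complex.volume_closedBall, ← ENNReal.ofReal_pow (Real.sqrt_nonneg _),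
      Real.sq_sqrt h, mul_comm Real.pi, ENNReal.ofReal_mul h]
    congr 1
    rw [← NNReal.coe_real_pi, ENNReal.ofReal_coe_nnreal]

theorem ball_div {e : E3} (he : dt e e = 1) {Θ Θ' : ℝ → ℝ} (hΘ : ∀ s, HasDerivAt Θ (Θ' s) s)
    (hc : Continuous Θ') :
    ∫ x in {x : E3 | dt x x ≤ 1},
      (4 * dt e x * Θ (dt e x) - (1 - dt e x ^ 2) * Θ' (dt e x)) = 0 := by
  have hB : MeasurableSet {x : E3 | dt x x ≤ 1} :=
    (isClosed_le (by fun_prop) continuous_const).measurableSet
  have hd : Measurable fun x : E3 => dt e x := (by fun_prop : Continuous _).measurable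
  have cΘ : Continuous Θ := continuous_iff_continuousAt.2 fun s => (hΘ s).continuousAt
  set ρ : ℝ → NNReal := fun s => Real.toNNReal (Real.pi * (1 - s ^ 2)) with hρ
  have mρ : Measurable ρ := (by fun_prop : Continuous _).measurable
  have hmap : Measure.map (fun x : E3 => dt e x) (volume.restrict {x : E3 | dt x x ≤ 1}) =
      volume.withDensity fun s => (ρ s : ENNReal) := by
    ext A hA
    rw [Measure.map_apply hd hA, withDensity_apply _ hA, ← lintegral_indicator_one (hd hA),
      ← lintegral_indicator hA]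
    refine (slice_lintegral he hB (φ := A.indicator 1) (measurable_one.indicator hA)).trans ?_
    refine lintegral_congr fun s => ?_
    rw [Slice_ball he]
    by_cases hs : s ∈ A <;> simp [hs, hρ, ENNReal.ofReal]
  set F : ℝ → ℝ := fun s => 4 * s * Θ s - (1 - s ^ 2) * Θ' s with hF
  have cF : Continuous F := by fun_prop
  have e1 : ∫ x in {x : E3 | dt x x ≤ 1}, F (dt e x) = ∫ s, ρ s • F s := by
    rw [← integral_map hd.aemeasurable cF.aestronglyMeasurable, hmap,
      integral_withDensity_eq_integral_smul mρ]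
  have e2 : ∫ s, ρ s • F s = ∫ s in (-1 : ℝ)..1, Real.pi * (1 - s ^ 2) * F s := by
    rw [intervalIntegral.integral_of_le (by norm_num), ← integral_Icc_eq_integral_Ioc,
      ← setIntegral_eq_integral_of_forall_compl_eq_zero (s := Icc (-1 : ℝ) 1)]
    · refine setIntegral_congr_fun measurableSet_Icc fun s hs => ?_
      have : 0 ≤ Real.pi * (1 - s ^ 2) :=
        mul_nonneg Real.pi_pos.le (by nlinarith [hs.1, hs.2])
      simp only [hρ, NNReal.smul_def, Real.coe_toNNReal _ this, smul_eq_mul]
    · intro s hs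
      have : Real.pi * (1 - s ^ 2) ≤ 0 := by
        refine mul_nonpos_of_nonneg_of_nonpos Real.pi_pos.le ?_
        rw [mem_Icc, not_and_or, not_le, not_le] at hs
        rcases hs with h | h <;> nlinarith
      simp only [hρ, Real.toNNReal_of_nonpos this, zero_smul]
  have e3 : ∫ s in (-1 : ℝ)..1, Real.pi * (1 - s ^ 2) * F s = 0 := by
    have := intervalIntegral.integral_eq_sub_of_hasDerivAt (a := -1) (b := 1)
      (f := fun s => -(Real.pi * ((1 - s ^ 2) ^ 2 * Θ s)))
      (f' := fun s => Real.pi * (1 - s ^ 2) * F s) (fun s _ => by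
        have h2 := ((((hasDerivAt_pow 2 s).const_sub 1).fun_pow 2).fun_mul (hΘ s)).const_mul
          Real.pi |>.fun_neg
        refine h2.congr_deriv ?_
        simp only [hF]
        push_cast
        ring) (Continuous.intervalIntegrable (by fun_prop) _ _)
    rw [this]
    norm_num
  exact e1.trans (e2.trans e3)

lemma Crit.Slice_cone (C : Crit u Tr) (i : ι) {x : E3} (hx : x ∈ poly u 1) :
    dt x x ≤ dt (u i) x ^ 2 + rsq u i * (1 + 484 * (1 - dt (u i) x) / rsq u i) ^ 2 := by
  have t0 := C.rsq_pos i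
  set t := rsq u i with ht
  set s := dt (u i) x with hs
  have s1 : s ≤ 1 := hx i
  set g := 1 + 484 * (1 - s) / t with hg
  have g1 : 1 ≤ g := by
    have : 0 ≤ 484 * (1 - s) / t := div_nonneg (by linarith) t0.le
    linarith
  have g0 : 0 < g := by linarith
  have hw : dt (u i) (x - s • u i) = 0 := by rw [dt_sub, dt_smul, C.unit, ← hs]; ring
  have hm : u i + g⁻¹ • (x - s • u i) ∈ fc u 1 {i} := by
    refine ⟨fun l => ?_, fun l hl => by
      rw [mem_singleton_iff.1 hl, dt_add, dt_smul, hw, C.unit]; simp⟩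
    by_cases e : l = i
    · rw [e, dt_add, dt_smul, hw, C.unit]; simp
    have h1 := C.rsq_le e
    have h2 : dt (u l) x ≤ 1 := hx l
    rw [dt_add, dt_smul, dt_sub, dt_smul, dt_comm (u l) (u i)]
    set c := dt (u i) (u l)
    have h3 : t * c ≤ 484 * (1 - c) := by linarith
    have h4 : (1 - s) * c ≤ 484 * (1 - s) / t * (1 - c) := by
      rw [div_mul_eq_mul_div, le_div_iff₀ t0]
      nlinarith
    have h5 : g⁻¹ * (dt (u l) x - s * c) ≤ 1 - c := by
      rw [inv_mul_le_iff₀ g0, hg]
      nlinarith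
    show c + g⁻¹ * (dt (u l) x - s * c) ≤ 1
    linarith
  have h6 := C.le_rsq hm
  have h7 : dt (x - s • u i) (x - s • u i) = dt x x - s ^ 2 := by
    simp only [dt_sub, sub_dt, dt_smul, smul_dt, C.unit, dt_comm x (u i), ← hs]
    ring
  rw [dt_add, add_dt, add_dt, dt_smul, dt_smul, smul_dt, smul_dt, C.unit, hw,
    dt_comm (x - s • u i) (u i), hw, h7, ← ht] at h6
  have h8 : g⁻¹ * (g⁻¹ * (dt x x - s ^ 2)) ≤ t := by linarith
  rw [inv_mul_le_iff₀ g0, inv_mul_le_iff₀ g0] at h8
  nlinarith

theorem Crit.core (C : Crit u Tr) (i : ι) : UU u (u i) (rsq u i) ≤ 10 ^ 7 := by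
  have t0 := C.rsq_pos i
  have cone := @Crit.Slice_cone ι _ _ u Tr C i
  set t := rsq u i with ht
  have cW := continuous_WW t0
  set ψ : ℝ → ℝ := fun s => t ^ 2 * WW t (1 - s) ^ 2 with hψ
  have cψ : Continuous ψ := by fun_prop
  have ψ0 : ∀ s, 0 ≤ ψ s := fun s => by positivity
  set β : ℝ → ℝ := fun s => 8 * 484 ^ 2 * t⁻¹ * (1 + ((1 - s) / t) ^ 2)⁻¹ with hβ
  have iβ : Integrable β :=
    ((integrable_inv_one_add_sq.comp_div t0.ne').comp_sub_left 1).const_mul _
  have vβ : ∫ s, β s = 8 * 484 ^ 2 * Real.pi := by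
    rw [hβ, integral_const_mul,
      integral_sub_left_eq_self (fun z : ℝ => (1 + (z / t) ^ 2)⁻¹) volume 1,
      Measure.integral_comp_div (fun z : ℝ => (1 + z ^ 2)⁻¹), integral_univ_inv_one_add_sq,
      abs_of_pos t0, smul_eq_mul]
    field_simp
  have key : ∫⁻ x in Om u (u i), ENNReal.ofReal (ψ (dt (u i) x)) ≤ ENNReal.ofReal (10 ^ 7) := by
    calc _ ≤ ∫⁻ x in poly u 1, ENNReal.ofReal (ψ (dt (u i) x)) :=
          lintegral_mono_set fun x hx => hx.1
      _ = ∫⁻ s, ENNReal.ofReal (ψ s) * μHE[2] (poly u 1 ∩ {x | dt (u i) x = s}) :=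
          slice_lintegral (C.unit i) (isClosed_poly u 1).measurableSet
            (φ := fun s => ENNReal.ofReal (ψ s)) cψ.measurable.ennreal_ofReal
      _ ≤ ∫⁻ s, ENNReal.ofReal (β s) := by
          refine lintegral_mono fun s => ?_
          have h1 : μHE[2] (poly u 1 ∩ {x | dt (u i) x = s}) ≤
              ENNReal.ofReal (Real.pi * (t * (1 + 484 * (1 - s) / t) ^ 2)) := by
            have := Slice_ball (C.unit i) (s ^ 2 + t * (1 + 484 * (1 - s) / t) ^ 2) s
            rw [add_sub_cancel_left] at this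
            rw [← this]
            refine measure_mono fun x hx => ⟨?_, hx.2⟩
            have h2 := cone hx.1
            rw [show dt (u i) x = s from hx.2] at h2
            exact h2
          refine (mul_le_mul_right h1 _).trans ?_
          rw [← ENNReal.ofReal_mul (ψ0 s)]
          refine ENNReal.ofReal_le_ofReal ?_
          simp only [hψ, hβ, WW]
          set z := 1 - s
          have D0 : 0 < z ^ 2 + t ^ 2 := by positivity
          have a1 : t ^ 2 * (z ^ 2 + t ^ 2)⁻¹ ^ 2 * (Real.pi * (t * (1 + 484 * z / t) ^ 2)) =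
              (t / (z ^ 2 + t ^ 2)) * (Real.pi * ((t + 484 * z) ^ 2 / (z ^ 2 + t ^ 2))) := by
            field_simp
          have a2 : 8 * 484 ^ 2 * t⁻¹ * (1 + (z / t) ^ 2)⁻¹ =
              (t / (z ^ 2 + t ^ 2)) * (4 * (2 * 484 ^ 2)) := by
            field_simp
            ring
          rw [a1, a2]
          refine mul_le_mul_of_nonneg_left ?_ (by positivity)
          refine mul_le_mul Real.pi_le_four ?_ (by positivity) (by norm_num)
          rw [div_le_iff₀ D0]
          nlinarith [sq_nonneg (t - 484 * z), sq_nonneg t]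
      _ = ENNReal.ofReal (8 * 484 ^ 2 * Real.pi) := by
          rw [← ofReal_integral_eq_lintegral_ofReal iβ
            (Eventually.of_forall fun s => by simp only [hβ]; positivity), vβ]
      _ ≤ _ := ENNReal.ofReal_le_ofReal (by nlinarith [Real.pi_le_four])
  have e1 : UU u (u i) t = (∫⁻ x in Om u (u i), ENNReal.ofReal (ψ (dt (u i) x))).toReal :=
    integral_eq_lintegral_of_nonneg_ae (Eventually.of_forall fun x => ψ0 _)
      (Continuous.aestronglyMeasurable (by fun_prop))
  rw [e1]
  exact ENNReal.toReal_le_of_le_ofReal (by norm_num) key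

end Pool.Agent.MP_5cfbf6_gt
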