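import Pool.Agent.MP_5cfbf6_gt.Lattice

set_option autoImplicit false
set_option linter.unusedSectionVars false

namespace Pool.Agent.MP_5cfbf6_gt

open Set Filter Topology MeasureTheory Module

lemma exists_frame {n : E3} : ∃ e : E3, dt e e = 1 ∧ dt n e = 0 := by
  obtain ⟨z, hz, h1, -⟩ := exists_orth2 n n
  refine ⟨‖z‖⁻¹ • z, ?_, by rw [dt_smul, h1, mul_zero]⟩
  have : ‖z‖ ≠ 0 := norm_ne_zero_iff.2 hz
  rw [dt_smul, smul_dt, dt_self]
  field_simp

lemma dt_cr_unit {n e : E3} (hn : dt n n = 1) (he : dt e e = 1) (hne : dt n e = 0) :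
    dt (cr n e) (cr n e) = 1 := by
  rw [dt_cr_cr, hn, he, hne]; ring

/-- expansion in the orthonormal frame `n, e, cr n e` -/
lemma frame_expand {n e : E3} (hn : dt n n = 1) (he : dt e e = 1) (hne : dt n e = 0) (x : E3) :
    x = dt n x • n + dt e x • e + dt (cr n e) x • cr n e := by
  have hd : det3 n e (cr n e) ≠ 0 := by
    rw [← dt_cr, dt_cr_unit hn he hne]; exact one_ne_zero
  have h1 := dt_cr_left n e
  have h2 := dt_cr_right n e
  have h3 := dt_cr_unit hn he hne
  apply eq_of_dt3 hd
  · simp only [dt_add, dt_smul, hn, hne, h1]; ring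
  · simp only [dt_add, dt_smul, he, dt_comm e n, hne, h2]; ring
  · simp only [dt_add, dt_smul, h3, dt_comm (cr n e) n, dt_comm (cr n e) e, h1, h2]; ring

lemma frame_sq {n e : E3} (hn : dt n n = 1) (he : dt e e = 1) (hne : dt n e = 0) (x y : E3) :
    dt x y = dt n x * dt n y + dt e x * dt e y + dt (cr n e) x * dt (cr n e) y := by
  conv_lhs => rw [frame_expand hn he hne x]
  simp only [add_dt, smul_dt]

/-- plane chart -/
noncomputable def pl (b e f : E3) (z : ℂ) : E3 := b + z.re • e + z.im • f

lemma continuous_pl (b e f : E3) : Continuous (pl b e f) := by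
  unfold pl; fun_prop

lemma isometry_pl (b : E3) {e f : E3} (he : dt e e = 1) (hf : dt f f = 1) (hef : dt e f = 0) :
    Isometry (pl b e f) := by
  apply Isometry.of_dist_eq
  intro z w
  have e1 : pl b e f z - pl b e f w = (z - w).re • e + (z - w).im • f := by
    simp only [pl, Complex.sub_re, Complex.sub_im]; module
  rw [dist_eq_norm, dist_eq_norm, e1, ← sq_eq_sq₀ (norm_nonneg _) (norm_nonneg _), ← dt_self,
    Complex.sq_norm, Complex.normSq_apply]
  simp only [dt_add, add_dt, dt_smul, smul_dt, he, hf, hef, dt_comm f e]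
  ring

lemma mem_range_pl {n e b x : E3} (hn : dt n n = 1) (he : dt e e = 1) (hne : dt n e = 0)
    (hx : dt n x = dt n b) : pl b e (cr n e) ⟨dt e (x - b), dt (cr n e) (x - b)⟩ = x := by
  have := frame_expand hn he hne (x - b)
  rw [dt_sub n, hx, sub_self, zero_smul, zero_add] at this
  unfold pl
  rw [add_assoc, ← this]; abel

lemma area_pl {n e b : E3} (hn : dt n n = 1) (he : dt e e = 1) (hne : dt n e = 0) {F : Set E3}
    (hF : ∀ x ∈ F, dt n x = dt n b) : μHE[2] F = volume (pl b e (cr n e) ⁻¹' F) := by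
  have hi := isometry_pl b he (dt_cr_unit hn he hne) (dt_cr_right n e)
  have h1 := hi.euclideanHausdorffMeasure_preimage (d := 2) F
  have h2 : F ∩ range (pl b e (cr n e)) = F :=
    inter_eq_left.2 fun x hx => ⟨_, mem_range_pl hn he hne (hF x hx)⟩
  have h3 : (μHE[finrank ℝ ℂ] : Measure ℂ) = volume :=
    InnerProductSpace.euclideanHausdorffMeasure_eq_volume
  rw [Complex.finrank_real_complex] at h3
  rw [← h3, h1, h2]

lemma isCompact_pl {n e b : E3} (hn : dt n n = 1) (he : dt e e = 1) (hne : dt n e = 0)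
    {F : Set E3} (hF : IsCompact F) : IsCompact (pl b e (cr n e) ⁻¹' F) :=
  (isometry_pl b he (dt_cr_unit hn he hne) (dt_cr_right n e)).isClosedEmbedding.isCompact_preimage hF

lemma convex_pl (b e f : E3) {F : Set E3} (hF : Convex ℝ F) : Convex ℝ (pl b e f ⁻¹' F) := by
  intro z hz w hw s t hs ht hst
  have : pl b e f (s • z + t • w) = s • pl b e f z + t • pl b e f w := by
    obtain rfl : t = 1 - s := by linarith
    simp only [pl, Complex.add_re, Complex.add_im, Complex.smul_re, Complex.smul_im, smul_eq_mul]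
    module
  show pl b e f (s • z + t • w) ∈ F
  rw [this]; exact hF hz hw hs ht hst

end Pool.Agent.MP_5cfbf6_gt
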