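import Pool.Agent.MP_5cfbf6_gt.Hole

set_option autoImplicit false
set_option linter.unusedSectionVars false

namespace Pool.Agent.MP_5cfbf6_gt

open Set Filter Topology MeasureTheory Module

/-- the numerical core of the estimate for a pair of faces that are not nearly antipodal -/
lemma power_num {K q z r s : ℝ} {n : ℕ} (hK : 1 ≤ K) (hq : 0 < q) (hn : q ^ (n + 1) ≤ 1 / 2)
    (hz : 0 ≤ z) (hr : 0 < r) (hs : 0 ≤ s) (h1 : s = r ∨ s ≤ 968000 * z)
    (h2 : ∀ m : ℕ, 2 ^ m * r ≤ z → s ≤ K * q ^ m * z) :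
    s ^ (n + 1) ≤ (968000 ^ (n + 1) + 2 * K ^ (n + 1)) * (z + r) ^ n * r := by
  have hK0 : 0 < K := by linarith
  rcases lt_or_ge z r with hzr | hzr
  · have h3 : s ≤ 968000 * r := by rcases h1 with e | e <;> linarith
    calc s ^ (n + 1) ≤ (968000 * r) ^ (n + 1) := by gcongr
      _ = 968000 ^ (n + 1) * r ^ n * r := by ring
      _ ≤ (968000 ^ (n + 1) + 2 * K ^ (n + 1)) * (z + r) ^ n * r := by
        gcongr
        · exact le_add_of_nonneg_right (by positivity)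
        · linarith
  · obtain ⟨m, hm1, hm2⟩ := exists_nat_pow_near (x := z / r) (y := 2)
      (by rwa [le_div_iff₀ hr, one_mul]) (by norm_num)
    rw [le_div_iff₀ hr] at hm1
    rw [div_lt_iff₀ hr] at hm2
    have h3 : (q ^ (n + 1)) ^ m * z ≤ 2 * r := by
      calc (q ^ (n + 1)) ^ m * z ≤ (1 / 2) ^ m * (2 ^ (m + 1) * r) := by gcongr
        _ = (1 / 2 * 2) ^ m * (2 * r) := by rw [mul_pow]; ring
        _ = 2 * r := by norm_num
    calc s ^ (n + 1) ≤ (K * q ^ m * z) ^ (n + 1) := by gcongr; exact h2 m hm1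
      _ = K ^ (n + 1) * z ^ n * ((q ^ (n + 1)) ^ m * z) := by ring
      _ ≤ K ^ (n + 1) * (z + r) ^ n * (2 * r) := by gcongr; linarith
      _ = (2 * K ^ (n + 1)) * (z + r) ^ n * r := by ring
      _ ≤ (968000 ^ (n + 1) + 2 * K ^ (n + 1)) * (z + r) ^ n * r := by
        gcongr
        exact le_add_of_nonneg_left (by positivity)

lemma power_near : ∃ (K : ℝ) (n : ℕ), 1 ≤ K ∧
    ∀ (ι : Type) [Fintype ι] [DecidableEq ι] (u : ι → E3) (Tr : ι → ι → ι → Prop), Crit u Tr →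
    ∀ i k : ι, -0.9995 ≤ dt (u i) (u k) →
      rsq u k ^ (n + 1) ≤ K * (1 - dt (u i) (u k) + rsq u i) ^ n * rsq u i := by
  obtain ⟨K, q, hK, hq0, hq1, H⟩ := decay
  obtain ⟨n, hn⟩ := exists_pow_lt_of_lt_one (show (0 : ℝ) < 1 / 2 by norm_num) hq1
  have hn' : q ^ (n + 1) ≤ 1 / 2 :=
    (pow_le_pow_of_le_one hq0.le hq1.le (Nat.le_succ n)).trans hn.le
  refine ⟨968000 ^ (n + 1) + 2 * K ^ (n + 1), n, ?_, fun ι _ _ u Tr C i k hc => ?_⟩
  · have : (1 : ℝ) ≤ 968000 ^ (n + 1) := one_le_pow₀ (by norm_num)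
    have : 0 ≤ K ^ (n + 1) := pow_nonneg (by linarith) _
    linarith
  · refine power_num hK hq0 hn' (by linarith [C.cos_le i k]) (C.rsq_pos i) (C.rsq_nonneg k) ?_
      fun m hm => H ι u Tr C i k m hc hm
    by_cases e : i = k
    · exact Or.inl (by rw [e])
    · right
      have h1 := C.rsq_le e
      rw [dt_comm (u k) (u i)] at h1
      have h2 := C.rsq_nonneg k
      nlinarith

/-- a face at a definite angle from two nearly antipodal faces -/
lemma power_mid {ι : Type} [Fintype ι] [DecidableEq ι] {u : ι → E3} {Tr : ι → ι → ι → Prop}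
    (C : Crit u Tr) {i k : ι} (hc : dt (u i) (u k) < -0.9995) :
    ∃ j, -0.9995 ≤ dt (u i) (u j) ∧ -0.9995 ≤ dt (u j) (u k) := by
  obtain ⟨w, hw1, hw2⟩ := exists_frame (n := u i)
  have hw0 : w ≠ 0 := by
    intro e
    rw [e, dt_zero] at hw1
    exact zero_ne_one hw1
  obtain ⟨j, t, -, hx, hj⟩ := FlagX.ray C.sys (b := 0) (C.ball_subset (by simp)) hw0
  have hf : 0 + t • w ∈ fc u 1 {j} := ⟨hx, fun l hl => by rw [mem_singleton_iff.1 hl]; exact hj⟩
  have hj' : dt (u j) (0 + t • w) = 1 := hj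
  have h1 := C.le_rsq hf
  have h2 := C.rsq_le_eight j
  have h3 := C.dt_tan_sq j i (y := 0 + t • w - u j) (by rw [dt_sub, hj', C.unit, sub_self])
  rw [C.sub_sq hj', dt_sub, dt_add, dt_smul, hw2, dt_zero, dt_comm (u j) (u i)] at h3
  have h4 := C.cos_le i j
  have h5 := C.neg_le_cos i j
  set c := dt (u i) (u j) with hcd
  have h6 : c ^ 2 ≤ 0.9429 ^ 2 := by
    have : (1 - c ^ 2) * (dt (0 + t • w) (0 + t • w) - 1) ≤ (1 - c ^ 2) * 8 :=
      mul_le_mul_of_nonneg_left (by linarith) (by nlinarith)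
    nlinarith
  have h7 := abs_le_of_sq_le_sq' h6 (by norm_num)
  have h8 := dt_sq_le (u j) (u k + u i)
  rw [C.unit, dt_add (u k + u i), add_dt, add_dt, C.unit, C.unit, dt_comm (u k) (u i)] at h8
  have h9 : dt (u j) (u k + u i) ^ 2 ≤ 0.0317 ^ 2 := by nlinarith
  have h10 := abs_le_of_sq_le_sq' h9 (by norm_num)
  rw [dt_add, dt_comm (u j) (u i), ← hcd] at h10
  exact ⟨j, by linarith [h7.1], by linarith [h7.2, h10.1]⟩

theorem power : ∃ (K : ℝ) (D : ℕ), 1 ≤ K ∧ 1 ≤ D ∧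
    ∀ (ι : Type) [Fintype ι] [DecidableEq ι] (u : ι → E3) (Tr : ι → ι → ι → Prop), Crit u Tr →
    ∀ i k : ι, rsq u k ^ D ≤ K * (1 - dt (u i) (u k) + rsq u i) ^ (D - 1) * rsq u i := by
  obtain ⟨K, n, hK, H⟩ := power_near
  have hM : K ≤ K * 10 ^ n := le_mul_of_one_le_right (by linarith) (one_le_pow₀ (by norm_num))
  have hM1 : 1 ≤ K * 10 ^ n := hK.trans hM
  have hK0 : 0 < K := by linarith
  refine ⟨(K * 10 ^ n) ^ (n + 2), n * (n + 1) + n + 1, one_le_pow₀ hM1, by omega,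
    fun ι _ _ u Tr C i k => ?_⟩
  rw [Nat.add_sub_cancel, show n * (n + 1) + n + 1 = (n + 1) * (n + 1) by ring, pow_mul]
  have ri := C.rsq_pos i
  have rk := C.rsq_pos k
  have hz := C.cos_le i k
  rcases le_or_gt (-0.9995) (dt (u i) (u k)) with hc | hc
  · have h1 := H ι u Tr C i k hc
    set y := 1 - dt (u i) (u k) + rsq u i with hy
    have y0 : rsq u i ≤ y := by linarith
    calc (rsq u k ^ (n + 1)) ^ (n + 1) ≤ (K * y ^ n * rsq u i) ^ (n + 1) := by gcongr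
      _ = K ^ (n + 1) * (y ^ (n * (n + 1)) * rsq u i ^ n) * rsq u i := by ring
      _ ≤ (K * 10 ^ n) ^ (n + 2) * (y ^ (n * (n + 1)) * y ^ n) * rsq u i := by
        have y1 : 0 < y := ri.trans_le y0
        have : K ^ (n + 1) ≤ (K * 10 ^ n) ^ (n + 2) :=
          (pow_le_pow_left₀ hK0.le hM _).trans (pow_le_pow_right₀ hM1 (by omega))
        gcongr
      _ = _ := by rw [pow_add y]
  · obtain ⟨j, h1, h2⟩ := power_mid C hc
    have rj := C.rsq_pos j
    have key : ∀ a b : ι, -0.9995 ≤ dt (u a) (u b) →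
        rsq u b ^ (n + 1) ≤ K * 10 ^ n * rsq u a := fun a b hab => by
      refine (H ι u Tr C a b hab).trans ?_
      have := C.rsq_pos a
      have := C.rsq_le_eight a
      have := C.cos_le a b
      gcongr
      linarith
    have k1 := key i j h1
    have k2 := key j k h2
    calc (rsq u k ^ (n + 1)) ^ (n + 1) ≤ (K * 10 ^ n * rsq u j) ^ (n + 1) := by gcongr
      _ = (K * 10 ^ n) ^ (n + 1) * rsq u j ^ (n + 1) := mul_pow _ _ _
      _ ≤ (K * 10 ^ n) ^ (n + 1) * (K * 10 ^ n * rsq u i) := by gcongr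
      _ = (K * 10 ^ n) ^ (n + 2) * 1 * rsq u i := by ring
      _ ≤ _ := by
        gcongr
        exact one_le_pow₀ (by linarith)

end Pool.Agent.MP_5cfbf6_gt
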