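import Pool.Agent.MP_5cfbf6_gt.Iface2

set_option autoImplicit false
set_option linter.unusedSectionVars false

namespace Pool.Agent.MP_5cfbf6_gt

open Set Filter Topology MeasureTheory Module

variable {ι : Type} [Fintype ι] [DecidableEq ι]
variable {u : ι → E3} {h : ι → ℝ} {Tr : ι → ι → ι → Prop}

namespace PyrX

open FlagX

/-- the radial weight -/
noncomputable def rad : Measure ℝ :=
  (volume.restrict (Ioc (0 : ℝ) 1)).withDensity fun l => ENNReal.ofReal (l ^ 2)

instance sfinite_rad : SFinite rad := by unfold rad; infer_instance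

lemma sfin {i : ι} (hu : dt (u i) (u i) = 1) :
    SFinite ((μHE[2] : Measure E3).restrict (fc u h {i})) := by
  obtain ⟨e, he, hne⟩ := exists_frame (n := u i)
  have hi := isometry_pl (h i • u i) he (dt_cr_unit hu he hne) (dt_cr_right (u i) e)
  have h1 := hi.map_euclideanHausdorffMeasure (d := 2)
  have h3 : (μHE[finrank ℝ ℂ] : Measure ℂ) = volume :=
    InnerProductSpace.euclideanHausdorffMeasure_eq_volume
  rw [Complex.finrank_real_complex] at h3
  have h2 : fc u h {i} ⊆ range (pl (h i • u i) e (cr (u i) e)) := fun x hx =>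
    ⟨_, mem_range_pl hu he hne (by rw [dt_smul, hu, mul_one]; exact hx.2 i rfl)⟩
  rw [← Measure.restrict_restrict_of_subset h2, ← h1, h3]
  infer_instance

lemma meas_pyr (u : ι → E3) (h : ι → ℝ) (i : ι) : MeasurableSet (pyr u h i) := by
  have h1 := MeasurableSet.iInter fun l => (isClosed_le
    (f := fun x => h i * dt (u l) x) (g := fun x => h l * dt (u i) x)
    (by fun_prop) (by fun_prop)).measurableSet
  rw [← ofPred_forall] at h1
  exact (isOpen_lt (f := fun _ => (0 : ℝ)) (g := fun x => dt (u i) x) continuous_const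
    (by fun_prop)).measurableSet.inter ((isClosed_le (f := fun x => dt (u i) x)
      (g := fun _ => h i) (by fun_prop) continuous_const).measurableSet.inter h1)

lemma smul_mem {i : ι} (hi : 0 < h i) {t : ℝ} (ht : t ∈ Ioc (0 : ℝ) 1) {y : E3}
    (hy : y ∈ fc u h {i}) : t • y ∈ pyr u h i := by
  have h4 : dt (u i) (t • y) = t * h i := by rw [dt_smul, hy.2 i rfl]
  refine ⟨h4 ▸ mul_pos ht.1 hi, by nlinarith [ht.2], fun l => ?_⟩
  rw [h4, dt_smul]
  have := mul_le_mul_of_nonneg_left (hy.1 l) (mul_pos ht.1 hi).le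
  linarith

lemma key {i : ι} (hi : 0 < h i) (hu : dt (u i) (u i) = 1) :
    volume.restrict (pyr u h i) = ENNReal.ofReal (h i) •
      Measure.map (fun p : ℝ × E3 => p.1 • p.2)
        (rad.prod ((μHE[2] : Measure E3).restrict (fc u h {i}))) := by
  have := sfin (h := h) hu
  have hu0 : u i ≠ 0 := fun e => by simp [e] at hu
  have hn : ‖u i‖ = 1 := by
    rw [MP_5cfbf6_gt.dt_self] at hu
    exact (sq_eq_sq₀ (norm_nonneg _) zero_le_one).1 (by rw [hu, one_pow])
  have hv : h i • u i ≠ 0 := smul_ne_zero hi.ne' hu0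
  have hΦ : Measurable fun p : ℝ × E3 => p.1 • p.2 := by fun_prop
  ext t ht
  have h1 := EuclideanGeometry.euclideanHausdorffMeasure_eq_lintegral (0 : E3) hv
    (ht.inter (meas_pyr u h i))
  have h2 : ∀ l : ℝ, μHE[2] (t ∩ pyr u h i ∩ AffineSubspace.mk' (l • h i • u i +ᵥ (0 : E3))
      (Submodule.orthogonal (ℝ ∙ h i • u i))) =
      (Ioc (0 : ℝ) 1).indicator (fun l => ENNReal.ofReal (l ^ 2) *
        (μHE[2] : Measure E3).restrict (fc u h {i})
          (Prod.mk l ⁻¹' ((fun p : ℝ × E3 => p.1 • p.2) ⁻¹' t))) l := by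
    intro l
    have h3 : ∀ x : E3, x ∈ (AffineSubspace.mk' (l • h i • u i +ᵥ (0 : E3))
        (Submodule.orthogonal (ℝ ∙ h i • u i)) : Set E3) ↔ dt (u i) x = l * h i := fun x => by
      rw [SetLike.mem_coe, AffineSubspace.mem_mk', ← perp, mem_perp, smul_dt, vadd_eq_add, add_zero,
        vsub_eq_sub, dt_sub, dt_smul, dt_smul, hu, mul_one, mul_eq_zero, or_iff_right hi.ne',
        sub_eq_zero]
    by_cases hl : l ∈ Ioc (0 : ℝ) 1
    · rw [indicator_of_mem hl, ENNReal.ofReal_pow hl.1.le, ← Real.enorm_eq_ofReal hl.1.le,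
        Measure.restrict_apply (measurable_prodMk_left (hΦ ht))]
      refine Eq.trans ?_ (Measure.euclideanHausdorffMeasure_smul₀ 2 hl.1.ne' _)
      congr 1
      ext x
      rw [mem_smul_set_iff_inv_smul_mem₀ hl.1.ne', mem_inter_iff, h3, mem_inter_iff, mem_inter_iff,
        mem_preimage, mem_preimage]
      simp only [smul_inv_smul₀ hl.1.ne']
      refine ⟨fun hx => ⟨hx.1.1, (pyr_mem hi hx.1.2 hx.2).2⟩, fun hx => ⟨⟨hx.1, ?_⟩, ?_⟩⟩
      · simpa only [smul_inv_smul₀ hl.1.ne'] using smul_mem hi hl hx.2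
      · have h4 := hx.2.2 i rfl
        rwa [dt_smul, inv_mul_eq_iff_eq_mul₀ hl.1.ne'] at h4
    · rw [indicator_of_notMem hl]
      exact measure_mono_null (fun x hx => (hl (pyr_mem hi hx.1.2 ((h3 x).1 hx.2)).1).elim)
        measure_empty
  rw [InnerProductSpace.euclideanHausdorffMeasure_eq_volume, finrank_euclideanSpace_fin] at h1
  simp only [show 3 - 1 = 2 from rfl, h2] at h1
  rw [Measure.restrict_apply ht, h1, lintegral_indicator measurableSet_Ioc, Measure.smul_apply,
    Measure.map_apply hΦ ht, Measure.prod_apply (hΦ ht), rad,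
    lintegral_withDensity_eq_lintegral_mul _ (by fun_prop) (measurable_measure_prodMk_left (hΦ ht)),
    ← ofReal_norm, norm_smul, hn, mul_one, Real.norm_of_nonneg hi.le]
  rfl

lemma pyr_sub (hh : ∀ i, 0 < h i) (i : ι) : pyr u h i ⊆ poly u h := fun x hx l =>
  le_of_mul_le_mul_left ((hx.2.2 l).trans (by
    rw [mul_comm (h i)]; exact mul_le_mul_of_nonneg_left hx.2.1 (hh l).le)) (hh i)

lemma split (S : Sys u h Tr) (hh : ∀ i, 0 < h i) :
    volume.restrict (poly u h) = ∑ i, volume.restrict (pyr u h i) := by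
  rw [← Measure.sum_fintype, ← Measure.restrict_iUnion_ae ?_
    fun i => (meas_pyr u h i).nullMeasurableSet]
  · refine Measure.restrict_congr_set (ae_eq_set.2 ⟨?_, ?_⟩)
    · refine measure_mono_null (t := {0}) (fun x hx => by_contra fun e => hx.2 ?_)
        (measure_singleton 0)
      obtain ⟨i, t, h1, h2, h3⟩ := ray S (b := 0) (fun l => by simpa using (hh l).le) e
      rw [zero_add] at h2 h3
      rw [dt_smul] at h3
      refine mem_iUnion.2 ⟨i, h1, hx.1 i, fun l => ?_⟩
      have := h2 l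
      rw [dt_smul] at this
      rw [← h3]
      nlinarith
    · rw [sdiff_eq_empty.2 (iUnion_subset (pyr_sub hh)), measure_empty]
  · intro i j hij
    obtain ⟨c, hc, H⟩ := S.exists_center i
    refine measure_mono_null (fun x hx => ?_) (vol_plane (a := h j • u i - h i • u j) ?_ 0)
    · show dt (h j • u i - h i • u j) x = 0
      rw [sub_dt, smul_dt, smul_dt]
      linarith [hx.1.2.2 j, hx.2.2.2 i]
    · intro e
      have := congrArg (fun v => dt v c) e
      simp only [sub_dt, smul_dt, zero_dt, hc] at this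
      nlinarith [H j (Ne.symm hij), hh i]

end PyrX

open PyrX

theorem Sys.mu_fc_lt_top (S : Sys u h Tr) (hu : ∀ i, dt (u i) (u i) = 1) (i : ι) :
    μHE[2] (fc u h {i}) < ⊤ := by
  obtain ⟨e, he, hne⟩ := exists_frame (n := u i)
  rw [area_pl (b := h i • u i) (hu i) he hne fun x hx => by
    rw [dt_smul, hu, mul_one]; exact hx.2 i rfl]
  exact (isCompact_pl (hu i) he hne (S.isCompact_fc {i})).measure_lt_top

theorem pyr_lintegral1 {i : ι} (hi : 0 < h i) (hu : dt (u i) (u i) = 1) {φ : E3 → ENNReal}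
    (hφ : Measurable φ) :
    ∫⁻ x in FlagX.pyr u h i, φ x = ENNReal.ofReal (h i) * ∫⁻ x in fc u h {i},
      (∫⁻ l in Ioc (0 : ℝ) 1, ENNReal.ofReal (l ^ 2) * φ (l • x)) ∂μHE[2] := by
  have := sfin (h := h) hu
  rw [key hi hu, lintegral_smul_measure, lintegral_map hφ (by fun_prop),
    lintegral_prod_symm' _ (by fun_prop), smul_eq_mul]
  congr 2
  funext x
  rw [rad, lintegral_withDensity_eq_lintegral_mul _ (by fun_prop) (by fun_prop)]
  rfl

theorem Sys.pyr_lintegral (S : Sys u h Tr) (hh : ∀ i, 0 < h i) (hu : ∀ i, dt (u i) (u i) = 1)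
    {φ : E3 → ENNReal} (hφ : Measurable φ) :
    ∫⁻ x in poly u h, φ x = ∑ i, ENNReal.ofReal (h i) * ∫⁻ x in fc u h {i},
      (∫⁻ l in Ioc (0 : ℝ) 1, ENNReal.ofReal (l ^ 2) * φ (l • x)) ∂μHE[2] := by
  rw [split S hh, lintegral_finsetSum_measure]
  exact Finset.sum_congr rfl fun i _ => pyr_lintegral1 (hh i) (hu i) hφ

theorem Sys.pyr_integral1 (S : Sys u h Tr) (hh : ∀ i, 0 < h i) (hu : ∀ i, dt (u i) (u i) = 1)
    (i : ι) {φ : E3 → ℝ} (hφ : Continuous φ) :
    ∫ x in FlagX.pyr u h i, φ x = h i * ∫ x in fc u h {i},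
      (∫ l in (0 : ℝ)..1, l ^ 2 * φ (l • x)) ∂μHE[2] := by
  have := sfin (h := h) (hu i)
  have hΦ : Measurable fun p : ℝ × E3 => p.1 • p.2 := by fun_prop
  have i1 : Integrable φ (volume.restrict (FlagX.pyr u h i)) :=
    (hφ.continuousOn.integrableOn_compact S.isCompact).mono_set (pyr_sub hh i)
  rw [key (hh i) (hu i), integrable_smul_measure (by simpa using hh i) ENNReal.ofReal_ne_top,
    integrable_map_measure hφ.aestronglyMeasurable hΦ.aemeasurable] at i1
  rw [key (hh i) (hu i), integral_smul_measure, integral_map hΦ.aemeasurable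
    hφ.aestronglyMeasurable, integral_prod_symm (fun p : ℝ × E3 => φ (p.1 • p.2)) i1,
    ENNReal.toReal_ofReal (hh i).le, smul_eq_mul]
  congr 2
  funext x
  rw [rad, integral_withDensity_eq_integral_toReal_smul (by fun_prop)
    (Eventually.of_forall fun _ => ENNReal.ofReal_lt_top), intervalIntegral.integral_of_le zero_le_one]
  simp only [ENNReal.toReal_ofReal (sq_nonneg _), smul_eq_mul]

theorem Sys.pyr_integral (S : Sys u h Tr) (hh : ∀ i, 0 < h i) (hu : ∀ i, dt (u i) (u i) = 1)
    {φ : E3 → ℝ} (hφ : Continuous φ) :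
    ∫ x in poly u h, φ x = ∑ i, h i * ∫ x in fc u h {i},
      (∫ l in (0 : ℝ)..1, l ^ 2 * φ (l • x)) ∂μHE[2] := by
  rw [split S hh, integral_finsetSum_measure fun i _ =>
    (hφ.continuousOn.integrableOn_compact S.isCompact).mono_set (pyr_sub hh i)]
  exact Finset.sum_congr rfl fun i _ => S.pyr_integral1 hh hu i hφ

theorem Sys.integrableOn_fc (S : Sys u h Tr) (hu : ∀ i, dt (u i) (u i) = 1) (i : ι)
    {φ : E3 → ℝ} (hφ : Continuous φ) : IntegrableOn φ (fc u h {i}) μHE[2] := by
  obtain ⟨B, hB⟩ := (S.isCompact_fc {i}).exists_bound_of_continuousOn hφ.continuousOn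
  exact Measure.integrableOn_of_bounded (S.mu_fc_lt_top hu i).ne hφ.aestronglyMeasurable
    (ae_restrict_of_forall_mem (isClosed_fc u h {i}).measurableSet hB)

end Pool.Agent.MP_5cfbf6_gt
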