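import Pool.Agent.MP_5cfbf6_gt.Lattice

set_option autoImplicit false
set_option linter.unusedSectionVars false

namespace Pool.Agent.MP_5cfbf6_gt

open Set Filter Topology MeasureTheory Module

theorem extreme_triple {ι : Type} [Fintype ι] [DecidableEq ι] {u : ι → E3} {h : ι → ℝ} {x : E3}
    (hx : x ∈ (poly u h).extremePoints ℝ) : ∃ i j k, dt (u i) x = h i ∧ dt (u j) x = h j ∧
      dt (u k) x = h k ∧ det3 (u i) (u j) (u k) ≠ 0 := by
  by_contra H
  push Not at H
  by_cases h1 : ∃ i j, dt (u i) x = h i ∧ dt (u j) x = h j ∧ cr (u i) (u j) ≠ 0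
  · obtain ⟨i, j, hi, hj, hz⟩ := h1
    exact not_extreme hz (fun l hl => by rw [dt_cr, H i j l hi hj hl]) hx
  push Not at h1
  by_cases h2 : ∃ i, dt (u i) x = h i ∧ u i ≠ 0
  · obtain ⟨i, hi, hu⟩ := h2
    obtain ⟨z, hz, e1, -⟩ := exists_orth2 (u i) (u i)
    refine not_extreme hz (fun l hl => ?_) hx
    have e : dt (u i) (u i) * dt (u l) z =
        dt (u i) (u l) * dt (u i) z + dt (cr (u i) (u l)) (cr (u i) z) := by
      simp [dt]; ring
    rw [h1 i l hi hl, e1, zero_dt, mul_zero, add_zero] at e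
    exact (mul_eq_zero.1 e).resolve_left (dt_self_pos hu).ne'
  push Not at h2
  obtain ⟨z, hz, -⟩ := exists_orth2 0 0
  exact not_extreme hz (fun l hl => by rw [h2 l hl, zero_dt]) hx

theorem rep1_isExposed {ι : Type} [Fintype ι] [DecidableEq ι] (u : ι → E3) (h : ι → ℝ)
    (A : Set ι) : IsExposed ℝ (poly u h) (fc u h A) := by
  classical
  rintro ⟨x0, m0⟩
  refine ⟨dtL (∑ l ∈ Finset.univ.filter (· ∈ A), u l), ?_⟩
  ext x
  simp only [mem_ofPred_eq, dtL_apply, sum_dt]
  constructor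
  · intro hx
    refine ⟨hx.1, fun y hy => Finset.sum_le_sum fun l hl => ?_⟩
    rw [hx.2 l (by simpa using hl)]; exact hy l
  · rintro ⟨hx, H1⟩
    refine ⟨hx, fun l hl => ?_⟩
    have h2 := H1 x0 m0.1
    by_contra hne
    have : ∑ l ∈ Finset.univ.filter (· ∈ A), dt (u l) x
        < ∑ l ∈ Finset.univ.filter (· ∈ A), dt (u l) x0 := by
      apply Finset.sum_lt_sum
      · intro m hm
        rw [m0.2 m (by simpa using hm)]; exact hx m
      · exact ⟨l, by simpa using hl, by rw [m0.2 l hl]; exact lt_of_le_of_ne (hx l) hne⟩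
    linarith

theorem isExtreme_fc {ι : Type} [Fintype ι] [DecidableEq ι] (u : ι → E3) (h : ι → ℝ) (A : Set ι) :
    IsExtreme ℝ (poly u h) (fc u h A) := (rep1_isExposed u h A).isExtreme

theorem isExposed_fc {ι : Type} [Fintype ι] [DecidableEq ι] (u : ι → E3) (h : ι → ℝ) (A : Set ι) :
    IsExposed ℝ (poly u h) (fc u h A) := rep1_isExposed u h A

theorem IsPolytope.isCompact {P : Set E3} (hP : IsPolytope P) : IsCompact P := by
  obtain ⟨⟨S, rfl⟩, -⟩ := hP
  exact S.finite_toSet.isCompact_convexHull ℝ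

theorem rep1_half (a y : E3) : Convex ℝ {x : E3 | dt a (x - y) ≤ 1} := by
  intro x hx z hz s t hs ht hst
  have e : s • x + t • z - y = s • (x - y) + t • (z - y) := by
    rw [smul_sub, smul_sub, ← add_sub_add_comm, ← add_smul, hst, one_smul]
  simp only [mem_ofPred_eq] at hx hz ⊢
  rw [e, dt_add, dt_smul, dt_smul]
  nlinarith

theorem rep1_half' (y : E3) : Convex ℝ {a : E3 | dt a y ≤ 1} := by
  simpa only [sub_zero, dt_comm y] using rep1_half y 0

theorem exists_hrep {P : Set E3} (hP : IsPolytope P) :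
    ∃ (ι : Type) (_ : Fintype ι) (_ : DecidableEq ι) (u : ι → E3) (h : ι → ℝ),
      (∀ i, dt (u i) (u i) = 1) ∧ P = poly u h ∧
      (∀ i, (fc u h {i}).Nonempty ∧ vectorSpan ℝ (fc u h {i}) = perp (u i)) ∧
      Function.Injective (fun i => fc u h {i}) := by
  classical
  have hPc := hP.isCompact
  obtain ⟨⟨S, rfl⟩, x0, hx0⟩ := hP
  obtain ⟨ε, hε, hball⟩ := Metric.mem_nhds_iff.1 (mem_interior_iff_mem_nhds.1 hx0)
  set v : S → E3 := fun s => s.1 - x0 with hv
  set Q := poly v fun _ => 1 with hQ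
  have key : ∀ a ∈ Q, ∀ x ∈ convexHull ℝ (S : Set E3), dt a (x - x0) ≤ 1 := fun a ha =>
    convexHull_min (fun s hs => by
      have := ha ⟨s, hs⟩
      rwa [dt_comm] at this) (rep1_half a x0)
  have hQc : IsCompact Q := by
    refine Metric.isCompact_of_isClosed_isBounded (isClosed_poly _ _)
      ((Metric.isBounded_closedBall (x := (0 : E3)) (r := 2 / ε)).subset fun a ha => ?_)
    rw [mem_closedBall_zero_iff]
    rcases (norm_nonneg a).eq_or_lt with e | e
    · rw [← e]; positivity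
    have := key a ha (x0 + (ε / 2 / ‖a‖) • a) (hball (by
      rw [Metric.mem_ball, dist_eq_norm, add_sub_cancel_left, norm_smul,
        Real.norm_of_nonneg (by positivity), div_mul_cancel₀ _ e.ne']
      linarith))
    rw [add_sub_cancel_left, dt_smul, dt_self, sq, ← mul_assoc, div_mul_cancel₀ _ e.ne'] at this
    rw [le_div_iff₀ hε]
    linarith
  have hfin : (Q.extremePoints ℝ).Finite := by
    refine (finite_range fun t : S × S × S => sol (v t.1) (v t.2.1) (v t.2.2) 1 1 1).subset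
      fun a ha => ?_
    obtain ⟨i, j, k, h1, h2, h3, h4⟩ := extreme_triple ha
    refine ⟨(i, j, k), ?_⟩
    rw [eq_sol h4 a, h1, h2, h3]
  have hpos : ∀ a : Q.extremePoints ℝ, 0 < ‖a.1‖ := fun a => by
    obtain ⟨i, -, -, h1, -⟩ := extreme_triple a.2
    refine norm_pos_iff.2 fun e => ?_
    rw [e, dt_zero] at h1
    exact zero_ne_one h1
  let _ : Fintype (Q.extremePoints ℝ) := hfin.fintype
  set u : Q.extremePoints ℝ → E3 := fun a => ‖a.1‖⁻¹ • a.1 with hu
  set h : Q.extremePoints ℝ → ℝ := fun a => ‖a.1‖⁻¹ * (1 + dt a.1 x0) with hh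
  have hle : ∀ a x, dt (u a) x ≤ h a ↔ dt a.1 (x - x0) ≤ 1 := fun a x => by
    rw [hu, hh, smul_dt, mul_le_mul_iff_right₀ (inv_pos.2 (hpos a)), dt_sub, sub_le_iff_le_add]
  have heq : ∀ a x, dt (u a) x = h a ↔ dt a.1 (x - x0) = 1 := fun a x => by
    rw [hu, hh, smul_dt, mul_right_inj' (inv_pos.2 (hpos a)).ne', dt_sub, sub_eq_iff_eq_add]
  have hPe : convexHull ℝ (S : Set E3) = poly u h := by
    refine Subset.antisymm (fun x hx a => (hle a x).2 (key a.1 a.2.1 x hx)) fun x hx => ?_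
    by_contra hn
    obtain ⟨f, c, h1, h2⟩ := geometric_hahn_banach_closed_point (convex_convexHull ℝ _)
      hPc.isClosed hn
    obtain ⟨w, hw⟩ := exists_dt f
    simp only [hw] at h1 h2
    have hc : 0 < c - dt w x0 := sub_pos.2 (h1 x0 (interior_subset hx0))
    have ha : (c - dt w x0)⁻¹ • w ∈ Q := fun s => by
      rw [dt_smul, inv_mul_le_iff₀ hc, dt_comm, hv, dt_sub]
      linarith [h1 s.1 (subset_convexHull ℝ _ s.2)]
    rw [← closure_convexHull_extremePoints hQc (convex_poly _ _)] at ha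
    have := closure_minimal (convexHull_min (fun a ha => (hle ⟨a, ha⟩ x).1 (hx _))
      (rep1_half' (x - x0))) (isClosed_le (by fun_prop) continuous_const) ha
    rw [mem_ofPred_eq, smul_dt, inv_mul_le_iff₀ hc, dt_sub] at this
    linarith
  have hmem : ∀ (a : Q.extremePoints ℝ) (s : S), s.1 ∈ fc u h {a} ↔ dt (v s) a.1 = 1 := by
    intro a s
    rw [dt_comm, hv, ← heq]
    exact ⟨fun hs => hs.2 a rfl, fun hs => ⟨hPe ▸ subset_convexHull ℝ _ s.2, by simpa using hs⟩⟩
  refine ⟨Q.extremePoints ℝ, inferInstance, inferInstance, u, h, fun a => ?_, hPe, fun a => ?_,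
    fun a b hab => ?_⟩
  · rw [hu, smul_dt, dt_smul, dt_self]
    field_simp [(hpos a).ne']
  · obtain ⟨i, j, k, h1, h2, h3, h4⟩ := extreme_triple a.2
    refine ⟨⟨_, (hmem a i).2 h1⟩, le_antisymm (vectorSpan_le_perp fun x hx => hx.2 a rfl)
      fun z hz => ?_⟩
    rw [mem_perp, hu, smul_dt, mul_eq_zero] at hz
    replace hz := hz.resolve_left (inv_pos.2 (hpos a)).ne'
    have hd : det3 (v i) (v j - v i) (v k - v i) ≠ 0 := by
      have : det3 (v i) (v j - v i) (v k - v i) = det3 (v i) (v j) (v k) := by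
        simp only [det3, dt, cr_0, cr_1, cr_2, PiLp.sub_apply]; ring
      rwa [this]
    obtain ⟨α, β, γ, e⟩ : ∃ α β γ : ℝ, z = α • v i + β • (v j - v i) + γ • (v k - v i) :=
      ⟨_, _, _, decomp hd z⟩
    rw [e, dt_add, dt_add, dt_smul, dt_smul, dt_smul, dt_sub _ (v j) (v i), dt_sub _ (v k) (v i),
      dt_comm _ (v i), dt_comm _ (v j), dt_comm _ (v k), h1, h2, h3] at hz
    have hα : α = 0 := by linarith
    rw [e, hα, zero_smul, zero_add, hv]
    simp only [sub_sub_sub_cancel_right]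
    exact Submodule.add_mem _
      (Submodule.smul_mem _ _ (vsub_mem_vectorSpan ℝ ((hmem a j).2 h2) ((hmem a i).2 h1)))
      (Submodule.smul_mem _ _ (vsub_mem_vectorSpan ℝ ((hmem a k).2 h3) ((hmem a i).2 h1)))
  · obtain ⟨i, j, k, h1, h2, h3, h4⟩ := extreme_triple a.2
    have : ∀ s, dt (v s) a.1 = 1 → dt (v s) a.1 = dt (v s) b.1 := fun s hs => by
      have := (hmem a s).2 hs
      simp only at hab
      rw [hab, hmem] at this
      rw [hs, this]
    exact Subtype.ext (eq_of_dt3 h4 (this i h1) (this j h2) (this k h3))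

end Pool.Agent.MP_5cfbf6_gt
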