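import Pool.Agent.MP_5cfbf6_gt.Rep1

set_option autoImplicit false
set_option linter.unusedSectionVars false

namespace Pool.Agent.MP_5cfbf6_gt

open Set Filter Topology MeasureTheory Module

/-- at an extreme point of a simple polytope exactly three constraints are active -/
theorem simple_act {ι : Type} [Fintype ι] [DecidableEq ι] {u : ι → E3} {h : ι → ℝ}
    (hu : ∀ i, dt (u i) (u i) = 1)
    (hf : ∀ i, vectorSpan ℝ (fc u h {i}) = perp (u i))
    (hinj : Function.Injective (fun i => fc u h {i})) (hs : IsSimple (poly u h))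
    {v : E3} (hv : v ∈ (poly u h).extremePoints ℝ) :
    ∃ i j k, dt (u i) v = h i ∧ dt (u j) v = h j ∧ dt (u k) v = h k ∧
      det3 (u i) (u j) (u k) ≠ 0 ∧ ∀ l, dt (u l) v = h l → l = i ∨ l = j ∨ l = k := by
  obtain ⟨i, j, k, hi, hj, hk, hd⟩ := extreme_triple hv
  refine ⟨i, j, k, hi, hj, hk, hd, fun l hl => ?_⟩
  have une : ∀ m, u m ≠ 0 := by
    intro m e
    have := hu m
    rw [e, zero_dt] at this
    exact zero_ne_one this
  have mem : ∀ m, dt (u m) v = h m → fc u h {m} ∈ {F ∈ twoFaces (poly u h) | v ∈ F} := by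
    intro m hm
    refine ⟨⟨isExposed_fc u h {m}, ?_⟩, hv.1, ?_⟩
    · rw [hf m, finrank_perp (une m)]
    · intro a ha
      rw [mem_singleton_iff.1 ha, hm]
  have h3 := hs v hv
  have hfin : {F ∈ twoFaces (poly u h) | v ∈ F}.Finite := by
    apply Set.finite_of_ncard_ne_zero
    rw [h3]; norm_num
  have ij : i ≠ j := by rintro rfl; exact hd (det3_same12 _ _)
  have ik : i ≠ k := by rintro rfl; exact hd (det3_same13 _ _)
  have jk : j ≠ k := by rintro rfl; exact hd (det3_same23 _ _)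
  have sub : ({fc u h {i}, fc u h {j}, fc u h {k}} : Set (Set E3))
      ⊆ {F ∈ twoFaces (poly u h) | v ∈ F} := by
    intro F hF
    rcases hF with rfl | rfl | rfl
    · exact mem i hi
    · exact mem j hj
    · exact mem k hk
  have c3 : ({fc u h {i}, fc u h {j}, fc u h {k}} : Set (Set E3)).ncard = 3 :=
    Set.ncard_eq_three.2 ⟨_, _, _, fun e => ij (hinj e), fun e => ik (hinj e),
      fun e => jk (hinj e), rfl⟩
  have e := Set.eq_of_subset_of_ncard_le sub (by rw [h3, c3]) hfin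
  have hm := mem l hl
  rw [← e] at hm
  rcases hm with e1 | e1 | e1
  · exact Or.inl (hinj e1)
  · exact Or.inr (Or.inl (hinj e1))
  · exact Or.inr (Or.inr (hinj e1))

theorem exists_sys {P : Set E3} (hP : IsPolytope P) (hs : IsSimple P) :
    ∃ (ι : Type) (_ : Fintype ι) (_ : DecidableEq ι) (u : ι → E3) (h : ι → ℝ)
      (Tr : ι → ι → ι → Prop), Sys u h Tr ∧ (∀ i, dt (u i) (u i) = 1) ∧ P = poly u h := by
  obtain ⟨ι, i1, i2, u, h, hu, rfl, hf, hinj⟩ := exists_hrep hP
  have hc := hP.isCompact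
  let Tr : ι → ι → ι → Prop := fun i j k => det3 (u i) (u j) (u k) ≠ 0 ∧
    ∀ l, l ≠ i → l ≠ j → l ≠ k → dt (u l) (vx u h i j k) < h l
  have cover : ∀ x ∈ poly u h,
      ∃ i j k, Tr i j k ∧ ∀ l, dt (u l) x = h l → l = i ∨ l = j ∨ l = k := by
    intro x hx
    have hne : (fc u h {l | dt (u l) x = h l}).Nonempty := ⟨x, hx, fun l hl => hl⟩
    have hcf : IsCompact (fc u h {l | dt (u l) x = h l}) :=
      hc.of_isClosed_subset (isClosed_fc u h _) (fc_subset u h _)
    obtain ⟨v, hv⟩ := hcf.extremePoints_nonempty hne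
    have hv2 := (isExtreme_fc u h _).extremePoints_subset_extremePoints hv
    obtain ⟨i, j, k, hi, hj, hk, hd, H⟩ := simple_act hu (fun i => (hf i).2) hinj hs hv2
    have ev : v = vx u h i j k := by
      have := eq_sol hd v
      rw [hi, hj, hk] at this
      exact this
    refine ⟨i, j, k, ⟨hd, fun l h1 h2 h3 => ?_⟩, fun l hl => H l (hv.1.2 l hl)⟩
    rw [← ev]
    refine lt_of_le_of_ne (hv2.1 l) fun e => ?_
    rcases H l e with e | e | e
    · exact h1 e
    · exact h2 e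
    · exact h3 e
  have s12 : ∀ i j k, Tr i j k → Tr j i k := by
    intro i j k T
    refine ⟨?_, fun l h1 h2 h3 => ?_⟩
    · rw [det3_swap12]; exact neg_ne_zero.2 T.1
    · rw [vx_swap12]; exact T.2 l h2 h1 h3
  have s23 : ∀ i j k, Tr i j k → Tr i k j := by
    intro i j k T
    refine ⟨?_, fun l h1 h2 h3 => ?_⟩
    · rw [det3_swap23]; exact neg_ne_zero.2 T.1
    · rw [vx_swap23]; exact T.2 l h1 h3 h2
  refine ⟨ι, i1, i2, u, h, Tr, ⟨s12, s23, fun i j k T => T.1, fun i j k T => T.2, cover,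
    hc.isBounded, fun i => ?_, ?_⟩, hu, rfl⟩
  · obtain ⟨x, hx⟩ := (hf i).1
    obtain ⟨a, b, c, T, H⟩ := cover x hx.1
    rcases H i (hx.2 i rfl) with rfl | rfl | rfl
    · exact ⟨b, c, T⟩
    · exact ⟨a, c, s12 _ _ _ T⟩
    · exact ⟨a, b, s12 _ _ _ (s23 _ _ _ T)⟩
  · obtain ⟨x, hx⟩ := hP.2
    obtain ⟨a, b, c, T, -⟩ := cover x (interior_subset hx)
    exact ⟨a, b, c, T⟩

theorem Sys.encard_face {ι : Type} [Fintype ι] [DecidableEq ι] {u : ι → E3} {h : ι → ℝ}
    {Tr : ι → ι → ι → Prop} (S : Sys u h Tr) (i : ι) :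
    (fc u h {i} ∩ (poly u h).extremePoints ℝ).encard ≤ ({j | Adj Tr i j}.ncard : ℕ∞) := by
  have sub : fc u h {i} ∩ (poly u h).extremePoints ℝ ⊆ ep u Tr h i '' {j | Adj Tr i j} := by
    rintro x ⟨hx, hv⟩
    have key : ∃ j k, Tr i j k ∧ x = vx u h i j k := by
      obtain ⟨a, b, c, T, e⟩ := S.extreme_sub hv
      have hi := hx.2 i rfl
      rw [e] at hi
      rcases S.vx_act T hi with rfl | rfl | rfl
      · exact ⟨b, c, T, e⟩
      · exact ⟨a, c, S.s12 _ _ _ T, by rw [e, vx_swap12]⟩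
      · exact ⟨a, b, S.s12 _ _ _ (S.s23 _ _ _ T),
          e.trans ((vx_swap23 u h _ _ _).trans (vx_swap12 u h _ _ _))⟩
    obtain ⟨j, k, T, e⟩ := key
    rcases lt_or_gt_of_ne (S.det _ _ _ T) with d | d
    · have T' := S.s23 _ _ _ T
      refine ⟨k, ⟨j, T'⟩, ?_⟩
      have := S.eq_kp T' (by rw [det3_swap23]; linarith)
      unfold ep
      rw [← this, e, vx_swap23]
    · refine ⟨j, ⟨k, T⟩, ?_⟩
      unfold ep
      rw [← S.eq_kp T d, e]
  refine (Set.encard_le_encard sub).trans ((Set.encard_image_le _ _).trans ?_)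
  rw [(Set.toFinite _).cast_ncard_eq]

end Pool.Agent.MP_5cfbf6_gt
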