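import Pool.Agent.MP_5cfbf6_gt.Grow
import Pool.Agent.MP_5cfbf6_gt.Path

set_option autoImplicit false
set_option linter.unusedSectionVars false

namespace Pool.Agent.MP_5cfbf6_gt

open Set Filter Topology MeasureTheory Module

lemma sep_ncard_le {ι : Type} [Fintype ι] (B : Set ι) (N : ι → Set ι) (M : ℕ)
    (h : ∀ b, (N b).ncard ≤ M) : (⋃ b ∈ B, N b).ncard ≤ B.ncard * M := by
  induction B, B.toFinite using Set.Finite.induction_on with
  | empty => simp
  | @insert a s ha hs ih =>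
    rw [biUnion_insert, ncard_insert_of_notMem ha hs, add_mul, one_mul]
    have h1 := ncard_union_le (N a) (⋃ b ∈ s, N b)
    have h2 := h a
    omega

lemma sep_lt_norm {x : E3} {c r : ℝ} (hr : 0 ≤ r) (h : ¬ dt x x ≤ c ^ 2 * r) :
    c * √r < ‖x‖ := by
  refine lt_of_pow_lt_pow_left₀ 2 (norm_nonneg _) ?_
  rw [mul_pow, Real.sq_sqrt hr, ← dt_self]
  exact not_le.1 h

theorem separators : ∃ K D : ℕ,
    ∀ (ι : Type) [Fintype ι] [DecidableEq ι] (u : ι → E3) (Tr : ι → ι → ι → Prop), Crit u Tr →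
    ∀ (k : ℕ) (B : Set ι), B.ncard ≤ k → ∃ E : Set ι, E.ncard ≤ K * (k + 1) ^ D ∧
      ∀ i j, i ∉ E → j ∉ E → ∃ W : (adjG Tr).Walk i j, ∀ l ∈ W.support, l ∉ B := by
  classical
  obtain ⟨K, D, H⟩ := near_card
  refine ⟨K * 80 ^ D, D + 1, fun ι _ _ u Tr C k B hB => ?_⟩
  have hn : ∀ i, ‖u i‖ = 1 := fun i => by
    have h := C.unit i
    rw [dt_self] at h
    exact (pow_eq_one_iff_of_nonneg (norm_nonneg _) two_ne_zero).1 h
  have hL : ((80 * k + 79 : ℕ) : ℝ) + 1 = 80 * ((k : ℝ) + 1) := by push_cast; ring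
  refine ⟨⋃ b ∈ B, {j | dt (u j - u b) (u j - u b) ≤
    (((80 * k + 79 : ℕ) : ℝ) + 1) ^ 2 * rsq u b}, ?_, fun i j hi hj => ?_⟩
  · refine (sep_ncard_le B _ _ fun b => H ι u Tr C b (80 * k + 79)).trans ?_
    have h1 : 80 * k + 79 + 1 = 80 * (k + 1) := by ring
    rw [h1, mul_pow]
    calc B.ncard * (K * (80 ^ D * (k + 1) ^ D)) ≤ (k + 1) * (K * (80 ^ D * (k + 1) ^ D)) :=
          Nat.mul_le_mul_right _ (by omega)
      _ = _ := by ring
  · have key : ∀ i, i ∉ (⋃ b ∈ B, {j | dt (u j - u b) (u j - u b) ≤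
        (((80 * k + 79 : ℕ) : ℝ) + 1) ^ 2 * rsq u b}) → ∀ b ∈ B.toFinite.toFinset,
        80 * ((k : ℝ) + 1) * √(rsq u b) < ‖u i - u b‖ := fun i hi b hb => by
      refine sep_lt_norm (C.rsq_nonneg b) fun h => hi ?_
      exact mem_biUnion ((Finite.mem_toFinset _).1 hb) (by rw [hL]; exact h)
    obtain ⟨w, hw⟩ := exists_detour B.toFinite.toFinset u (fun b => √(rsq u b)) hn
      (fun _ => Real.sqrt_nonneg _) (hn i) (hn j) (k := k)
      (by rwa [← ncard_eq_toFinset_card B B.toFinite]) (key i hi) (key j hj)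
    exact C.walk_of_detour B fun p hp =>
      ⟨(hw p hp).1, fun b hb => (hw p hp).2 b ((Finite.mem_toFinset _).2 hb)⟩

end Pool.Agent.MP_5cfbf6_gt
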