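import Pool.Agent.MP_5cfbf6_gt.Vec

set_option autoImplicit false
set_option linter.unusedSectionVars false

namespace Pool.Agent.MP_5cfbf6_gt

open Set Filter Topology

variable {ι : Type} [Fintype ι] [DecidableEq ι]

def poly (u : ι → E3) (h : ι → ℝ) : Set E3 := {x | ∀ i, dt (u i) x ≤ h i}

def fc (u : ι → E3) (h : ι → ℝ) (A : Set ι) : Set E3 :=
  {x | x ∈ poly u h ∧ ∀ i ∈ A, dt (u i) x = h i}

noncomputable def vx (u : ι → E3) (h : ι → ℝ) (i j k : ι) : E3 :=
  sol (u i) (u j) (u k) (h i) (h j) (h k)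

structure Sys (u : ι → E3) (h : ι → ℝ) (Tr : ι → ι → ι → Prop) : Prop where
  s12 : ∀ i j k, Tr i j k → Tr j i k
  s23 : ∀ i j k, Tr i j k → Tr i k j
  det : ∀ i j k, Tr i j k → det3 (u i) (u j) (u k) ≠ 0
  strict : ∀ i j k, Tr i j k → ∀ l, l ≠ i → l ≠ j → l ≠ k → dt (u l) (vx u h i j k) < h l
  cover : ∀ x ∈ poly u h, ∃ i j k, Tr i j k ∧ ∀ l, dt (u l) x = h l → l = i ∨ l = j ∨ l = k
  bdd : Bornology.IsBounded (poly u h)
  used : ∀ i, ∃ j k, Tr i j k
  ne : ∃ i j k, Tr i j k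

lemma vx_swap12 (u : ι → E3) (h : ι → ℝ) (i j k : ι) : vx u h j i k = vx u h i j k :=
  sol_swap12 _ _ _ _ _ _
lemma vx_swap23 (u : ι → E3) (h : ι → ℝ) (i j k : ι) : vx u h i k j = vx u h i j k :=
  sol_swap23 _ _ _ _ _ _

lemma convex_poly (u : ι → E3) (h : ι → ℝ) : Convex ℝ (poly u h) := by
  intro x hx y hy a b ha hb hab i
  rw [dt_add, dt_smul, dt_smul]
  have := hx i; have := hy i
  calc _ ≤ a * h i + b * h i := by gcongr
    _ = h i := by rw [← add_mul, hab, one_mul]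

lemma isClosed_poly (u : ι → E3) (h : ι → ℝ) : IsClosed (poly u h) := by
  have : poly u h = ⋂ i, {x | dt (u i) x ≤ h i} := by ext x; simp [poly]
  rw [this]
  exact isClosed_iInter fun i => isClosed_le (by fun_prop) continuous_const

lemma convex_fc (u : ι → E3) (h : ι → ℝ) (A : Set ι) : Convex ℝ (fc u h A) := by
  intro x hx y hy a b ha hb hab
  refine ⟨convex_poly u h hx.1 hy.1 ha hb hab, fun i hi => ?_⟩
  rw [dt_add, dt_smul, dt_smul, hx.2 i hi, hy.2 i hi, ← add_mul, hab, one_mul]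

lemma isClosed_fc (u : ι → E3) (h : ι → ℝ) (A : Set ι) : IsClosed (fc u h A) := by
  have : fc u h A = poly u h ∩ ⋂ i ∈ A, {x | dt (u i) x = h i} := by ext x; simp [fc]
  rw [this]
  exact (isClosed_poly u h).inter (isClosed_biInter fun i _ =>
    isClosed_eq (by fun_prop) continuous_const)

lemma fc_subset (u : ι → E3) (h : ι → ℝ) (A : Set ι) : fc u h A ⊆ poly u h := fun _ hx => hx.1

/-- strict inequalities persist under small moves -/
lemma exists_move (u : ι → E3) (h : ι → ℝ) (x z : E3) :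
    ∃ δ > 0, ∀ t : ℝ, |t| ≤ δ → ∀ l, dt (u l) x < h l → dt (u l) (x + t • z) < h l := by
  have : ∀ᶠ t : ℝ in 𝓝 0, ∀ l, dt (u l) x < h l → dt (u l) (x + t • z) < h l := by
    rw [eventually_all]
    intro l
    by_cases hl : dt (u l) x < h l
    · have hc : Continuous fun t : ℝ => dt (u l) (x + t • z) := by fun_prop
      have := hc.continuousAt (x := 0) |>.eventually_lt continuousAt_const (by simpa using hl)
      exact this.mono fun t ht _ => ht
    · exact Eventually.of_forall fun t h' => absurd h' hl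
  obtain ⟨ε, hε, H⟩ := Metric.eventually_nhds_iff.1 this
  refine ⟨ε / 2, by positivity, fun t ht => H ?_⟩
  rw [Real.dist_eq, sub_zero]; linarith

namespace Sys

variable {u : ι → E3} {h : ι → ℝ} {Tr : ι → ι → ι → Prop}

lemma rot (S : Sys u h Tr) {i j k : ι} (T : Tr i j k) : Tr j k i := S.s23 _ _ _ (S.s12 _ _ _ T)

lemma ne12 (S : Sys u h Tr) {i j k : ι} (T : Tr i j k) : i ≠ j := by
  rintro rfl; exact S.det _ _ _ T (det3_same12 _ _)
lemma ne13 (S : Sys u h Tr) {i j k : ι} (T : Tr i j k) : i ≠ k := by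
  rintro rfl; exact S.det _ _ _ T (det3_same13 _ _)
lemma ne23 (S : Sys u h Tr) {i j k : ι} (T : Tr i j k) : j ≠ k := by
  rintro rfl; exact S.det _ _ _ T (det3_same23 _ _)

lemma vx1 (S : Sys u h Tr) {i j k : ι} (T : Tr i j k) (y : ι → ℝ) :
    dt (u i) (vx u y i j k) = y i := dt_sol1 (S.det _ _ _ T) _ _ _
lemma vx2 (S : Sys u h Tr) {i j k : ι} (T : Tr i j k) (y : ι → ℝ) :
    dt (u j) (vx u y i j k) = y j := dt_sol2 (S.det _ _ _ T) _ _ _
lemma vx3 (S : Sys u h Tr) {i j k : ι} (T : Tr i j k) (y : ι → ℝ) :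
    dt (u k) (vx u y i j k) = y k := dt_sol3 (S.det _ _ _ T) _ _ _

lemma vx_mem (S : Sys u h Tr) {i j k : ι} (T : Tr i j k) : vx u h i j k ∈ poly u h := by
  intro l
  by_cases h1 : l = i
  · rw [h1, S.vx1 T]
  by_cases h2 : l = j
  · rw [h2, S.vx2 T]
  by_cases h3 : l = k
  · rw [h3, S.vx3 T]
  exact (S.strict _ _ _ T l h1 h2 h3).le

lemma vx_act (S : Sys u h Tr) {i j k : ι} (T : Tr i j k) {l : ι}
    (hl : dt (u l) (vx u h i j k) = h l) : l = i ∨ l = j ∨ l = k := by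
  by_contra hc
  push Not at hc
  exact (S.strict _ _ _ T l hc.1 hc.2.1 hc.2.2).ne hl

lemma eq_vx (S : Sys u h Tr) {i j k : ι} (T : Tr i j k) {x : E3} (h1 : dt (u i) x = h i)
    (h2 : dt (u j) x = h j) (h3 : dt (u k) x = h k) : x = vx u h i j k :=
  eq_of_dt3 (S.det _ _ _ T) (by rw [h1, S.vx1 T]) (by rw [h2, S.vx2 T]) (by rw [h3, S.vx3 T])

lemma isCompact (S : Sys u h Tr) : IsCompact (poly u h) :=
  Metric.isCompact_of_isClosed_isBounded (isClosed_poly u h) S.bdd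

lemma isCompact_fc (S : Sys u h Tr) (A : Set ι) : IsCompact (fc u h A) :=
  S.isCompact.of_isClosed_subset (isClosed_fc u h A) (fc_subset u h A)

lemma u_ne (S : Sys u h Tr) (i : ι) : u i ≠ 0 := by
  obtain ⟨j, k, T⟩ := S.used i
  intro e
  apply S.det _ _ _ T
  rw [e, det3, zero_dt]

/-- points near a vertex with prescribed slacks -/
lemma near_vx (S : Sys u h Tr) {i j k : ι} (T : Tr i j k) (a b c : ℝ) :
    ∃ δ > 0, ∀ t : ℝ, |t| ≤ δ → ∃ x : E3, x = vx u h i j k - t • sol (u i) (u j) (u k) a b c ∧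
      dt (u i) x = h i - t * a ∧ dt (u j) x = h j - t * b ∧ dt (u k) x = h k - t * c ∧
      ∀ l, l ≠ i → l ≠ j → l ≠ k → dt (u l) x < h l := by
  obtain ⟨δ, hδ, H⟩ := exists_move u h (vx u h i j k) (-sol (u i) (u j) (u k) a b c)
  have hd := S.det _ _ _ T
  refine ⟨δ, hδ, fun t ht => ⟨_, rfl, ?_, ?_, ?_, ?_⟩⟩
  · rw [dt_sub, dt_smul, S.vx1 T, dt_sol1 hd]
  · rw [dt_sub, dt_smul, S.vx2 T, dt_sol2 hd]
  · rw [dt_sub, dt_smul, S.vx3 T, dt_sol3 hd]
  · intro l h1 h2 h3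
    have := H t ht l (S.strict _ _ _ T l h1 h2 h3)
    rwa [smul_neg, ← sub_eq_add_neg] at this

/-- a point with prescribed active set -/
lemma exists_act (S : Sys u h Tr) {i j k : ι} (T : Tr i j k) (A : Set ι)
    (hA : ∀ l ∈ A, l = i ∨ l = j ∨ l = k) :
    ∃ x ∈ poly u h, ∀ l, dt (u l) x = h l ↔ l ∈ A := by
  classical
  obtain ⟨δ, hδ, H⟩ := S.near_vx T (if i ∈ A then 0 else 1) (if j ∈ A then 0 else 1)
    (if k ∈ A then 0 else 1)
  obtain ⟨x, -, h1, h2, h3, h4⟩ := H δ (by rw [abs_of_pos hδ])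
  have key : ∀ l, dt (u l) x ≤ h l ∧ (dt (u l) x = h l ↔ l ∈ A) := by
    intro l
    by_cases e1 : l = i
    · subst e1; rw [h1]; by_cases hl : l ∈ A <;> simp [hl, hδ.le, hδ.ne']
    by_cases e2 : l = j
    · subst e2; rw [h2]; by_cases hl : l ∈ A <;> simp [hl, hδ.le, hδ.ne']
    by_cases e3 : l = k
    · subst e3; rw [h3]; by_cases hl : l ∈ A <;> simp [hl, hδ.le, hδ.ne']
    have := h4 l e1 e2 e3
    refine ⟨this.le, ⟨fun e => absurd e this.ne, fun hl => ?_⟩⟩
    rcases hA l hl with e | e | e <;> contradiction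
  exact ⟨x, fun l => (key l).1, fun l => (key l).2⟩

lemma exists_strict (S : Sys u h Tr) : ∃ x : E3, ∀ l, dt (u l) x < h l := by
  obtain ⟨i, j, k, T⟩ := S.ne
  obtain ⟨x, hx, H⟩ := S.exists_act T ∅ (by simp)
  exact ⟨x, fun l => lt_of_le_of_ne (hx l) fun e => (H l).1 e⟩

lemma exists_center (S : Sys u h Tr) (i : ι) :
    ∃ c : E3, dt (u i) c = h i ∧ ∀ l, l ≠ i → dt (u l) c < h l := by
  obtain ⟨j, k, T⟩ := S.used i
  obtain ⟨x, hx, H⟩ := S.exists_act T {i} (by simp)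
  exact ⟨x, (H i).2 rfl, fun l hl => lt_of_le_of_ne (hx l) fun e => hl ((H l).1 e)⟩

/-- the cover property with a prescribed first index -/
lemma cover1 (S : Sys u h Tr) {x : E3} (hx : x ∈ poly u h) {i : ι} (hi : dt (u i) x = h i) :
    ∃ j k, Tr i j k ∧ ∀ l, dt (u l) x = h l → l = i ∨ l = j ∨ l = k := by
  obtain ⟨a, b, c, T, H⟩ := S.cover x hx
  rcases H i hi with rfl | rfl | rfl
  · exact ⟨b, c, T, H⟩
  · exact ⟨a, c, S.s12 _ _ _ T, fun l hl => by rcases H l hl with e | e | e <;> simp [e]⟩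
  · exact ⟨a, b, S.rot (S.rot T), fun l hl => by rcases H l hl with e | e | e <;> simp [e]⟩

lemma cover2 (S : Sys u h Tr) {x : E3} (hx : x ∈ poly u h) {i j : ι} (hij : i ≠ j)
    (hi : dt (u i) x = h i) (hj : dt (u j) x = h j) :
    ∃ k, Tr i j k ∧ ∀ l, dt (u l) x = h l → l = i ∨ l = j ∨ l = k := by
  obtain ⟨b, c, T, H⟩ := S.cover1 hx hi
  rcases H j hj with e | rfl | rfl
  · exact absurd e.symm hij
  · exact ⟨c, T, H⟩
  · exact ⟨b, S.s23 _ _ _ T, fun l hl => by rcases H l hl with e | e | e <;> simp [e]⟩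

theorem eventually (S : Sys u h Tr) :
    ∀ᶠ p : (ι → E3) × (ι → ℝ) in 𝓝 (u, h), Sys p.1 p.2 Tr := by
  have e1 : ∀ᶠ p : (ι → E3) × (ι → ℝ) in 𝓝 (u, h),
      ∀ i j k, Tr i j k → det3 (p.1 i) (p.1 j) (p.1 k) ≠ 0 := by
    simp only [eventually_all]
    intro i j k T
    have hc : Continuous fun p : (ι → E3) × (ι → ℝ) => det3 (p.1 i) (p.1 j) (p.1 k) := by
      fun_prop
    exact hc.continuousAt.eventually_ne (S.det _ _ _ T)
  have e2 : ∀ᶠ p : (ι → E3) × (ι → ℝ) in 𝓝 (u, h),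
      ∀ i j k, Tr i j k → ∀ l, l ≠ i → l ≠ j → l ≠ k →
        dt (p.1 l) (vx p.1 p.2 i j k) < p.2 l := by
    simp only [eventually_all]
    intro i j k T l h1 h2 h3
    have hc : ContinuousAt (fun p : (ι → E3) × (ι → ℝ) => dt (p.1 l) (vx p.1 p.2 i j k))
        (u, h) := by
      simp only [vx, dt_sol]
      refine ContinuousAt.mul (ContinuousAt.inv₀ ?_ (S.det _ _ _ T)) ?_
      · exact Continuous.continuousAt (by fun_prop)
      · exact Continuous.continuousAt (by fun_prop)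
    exact hc.eventually_lt (Continuous.continuousAt (by fun_prop)) (S.strict _ _ _ T l h1 h2 h3)
  obtain ⟨x0, hx0⟩ := S.exists_strict
  have e3 : ∀ᶠ p : (ι → E3) × (ι → ℝ) in 𝓝 (u, h), ∀ l, dt (p.1 l) x0 < p.2 l := by
    simp only [eventually_all]
    intro l
    exact ContinuousAt.eventually_lt (Continuous.continuousAt (by fun_prop))
      (Continuous.continuousAt (by fun_prop)) (hx0 l)
  obtain ⟨R, hR⟩ := S.bdd.subset_ball x0
  have e4 : ∀ᶠ p : (ι → E3) × (ι → ℝ) in 𝓝 (u, h), ∀ y ∈ Metric.closedBall x0 R,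
      y ∈ poly p.1 p.2 → (y ∈ Metric.ball x0 R ∧
        ∃ i j k, Tr i j k ∧ ∀ l, dt (p.1 l) y = p.2 l → l = i ∨ l = j ∨ l = k) := by
    apply (isCompact_closedBall x0 R).eventually_forall_of_forall_eventually
    intro y _
    by_cases hy : y ∈ poly u h
    · obtain ⟨i, j, k, T, H⟩ := S.cover y hy
      have a1 : ∀ᶠ z : ((ι → E3) × (ι → ℝ)) × E3 in 𝓝 ((u, h), y), z.2 ∈ Metric.ball x0 R :=
        continuous_snd.continuousAt.eventually (Metric.isOpen_ball.mem_nhds (hR hy))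
      have a2 : ∀ᶠ z : ((ι → E3) × (ι → ℝ)) × E3 in 𝓝 ((u, h), y),
          ∀ l, dt (u l) y < h l → dt (z.1.1 l) z.2 < z.1.2 l := by
        simp only [eventually_all]
        intro l hl
        exact ContinuousAt.eventually_lt (Continuous.continuousAt (by fun_prop))
          (Continuous.continuousAt (by fun_prop)) hl
      filter_upwards [a1, a2] with z h1 h2 _
      refine ⟨h1, i, j, k, T, fun l hl => H l ?_⟩
      by_contra hne
      exact (h2 l (lt_of_le_of_ne (hy l) hne)).ne hl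
    · simp only [poly, mem_ofPred_eq, not_forall, not_le] at hy
      obtain ⟨l, hl⟩ := hy
      have a2 : ∀ᶠ z : ((ι → E3) × (ι → ℝ)) × E3 in 𝓝 ((u, h), y),
          z.1.2 l < dt (z.1.1 l) z.2 :=
        ContinuousAt.eventually_lt (Continuous.continuousAt (by fun_prop))
          (Continuous.continuousAt (by fun_prop)) hl
      filter_upwards [a2] with z h2 h3
      exact absurd (h3 l) (not_le.2 h2)
  have hR0 : 0 < R := by
    have := hR (show x0 ∈ poly u h from fun l => (hx0 l).le)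
    simpa using this
  filter_upwards [e1, e2, e3, e4] with p h1 h2 h3 h4
  have hsub : poly p.1 p.2 ⊆ Metric.closedBall x0 R := by
    intro y hy
    by_contra hc
    rw [Metric.mem_closedBall, not_le, dist_eq_norm] at hc
    have hn : 0 < ‖y - x0‖ := hR0.trans hc
    set t := R / ‖y - x0‖ with ht
    have t0 : 0 ≤ t := by positivity
    have t1 : t ≤ 1 := by rw [ht, div_le_one hn]; exact hc.le
    have hm : (1 - t) • x0 + t • y ∈ poly p.1 p.2 :=
      convex_poly _ _ (fun l => (h3 l).le) hy (by linarith) t0 (by ring)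
    have hd : dist ((1 - t) • x0 + t • y) x0 = R := by
      rw [dist_eq_norm]
      have : (1 - t) • x0 + t • y - x0 = t • (y - x0) := by module
      rw [this, norm_smul, Real.norm_of_nonneg t0, ht, div_mul_cancel₀ _ hn.ne']
    have := (h4 _ (by rw [Metric.mem_closedBall, hd]) hm).1
    rw [Metric.mem_ball, hd] at this
    exact lt_irrefl _ this
  exact ⟨S.s12, S.s23, h1, h2, fun x hx => (h4 x (hsub hx) hx).2,
    Metric.isBounded_closedBall.subset hsub, S.used, S.ne⟩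

end Sys

end Pool.Agent.MP_5cfbf6_gt
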