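import Pool.Agent.MP_5cfbf6_gt.Iface

set_option autoImplicit false
set_option linter.unusedSectionVars false

namespace Pool.Agent.MP_5cfbf6_gt

open Set Filter Topology MeasureTheory Module

lemma mp_coord : MeasurePreserving (fun z : E3 => ((z 2, z 0, z 1) : ℝ × ℝ × ℝ)) := by
  have h1 := PiLp.volume_preserving_ofLp (Fin 3)
  have h2 := volume_preserving_piFinSuccAbove (fun _ : Fin 3 => ℝ) 2
  have h3 := (MeasurePreserving.id (volume : Measure ℝ)).prod (volume_preserving_finTwoArrow ℝ)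
  exact (h3.comp h2).comp h1

lemma lint_Icc {f : ℝ → ℝ} (hf : Continuous f) {D : ℝ} (hD : 0 ≤ D)
    (h0 : ∀ t ∈ Icc 0 D, 0 ≤ f t) :
    ∫⁻ t, (Icc 0 D).indicator (fun t => ENNReal.ofReal (f t)) t
      = ENNReal.ofReal (∫ t in (0 : ℝ)..D, f t) := by
  rw [lintegral_indicator measurableSet_Icc, intervalIntegral.integral_of_le hD,
    ← integral_Icc_eq_integral_Ioc, ofReal_integral_eq_lintegral_ofReal
      (hf.continuousOn.integrableOn_Icc) ((ae_restrict_iff' measurableSet_Icc).2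
        (Eventually.of_forall h0))]

lemma vol_tri (m : ℝ) {k0 k1 : ℝ} (hk0 : 0 < k0) (hk1 : 0 < k1) :
    volume {p : ℝ × ℝ | 0 ≤ p.1 ∧ 0 ≤ p.2 ∧ k0 * p.1 + k1 * p.2 < m}
      = ENNReal.ofReal ((max m 0) ^ 2 / (2 * k0 * k1)) := by
  rcases le_total m 0 with hm | hm
  · have : {p : ℝ × ℝ | 0 ≤ p.1 ∧ 0 ≤ p.2 ∧ k0 * p.1 + k1 * p.2 < m} = ∅ := by
      rw [eq_empty_iff_forall_notMem]
      rintro p ⟨h1, h2, h3⟩
      nlinarith [mul_nonneg hk0.le h1, mul_nonneg hk1.le h2]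
    rw [this, max_eq_right hm]; simp
  have hS : MeasurableSet {p : ℝ × ℝ | 0 ≤ p.1 ∧ 0 ≤ p.2 ∧ k0 * p.1 + k1 * p.2 < m} := by
    measurability
  rw [Measure.volume_eq_prod, Measure.prod_apply hS, max_eq_left hm]
  have : (fun x : ℝ => volume (Prod.mk x ⁻¹'
      {p : ℝ × ℝ | 0 ≤ p.1 ∧ 0 ≤ p.2 ∧ k0 * p.1 + k1 * p.2 < m}))
      = (Icc 0 (m / k0)).indicator fun t => ENNReal.ofReal ((m - k0 * t) / k1) := by
    funext x
    by_cases hx : x ∈ Icc 0 (m / k0)
    · rw [indicator_of_mem hx]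
      have : Prod.mk x ⁻¹' {p : ℝ × ℝ | 0 ≤ p.1 ∧ 0 ≤ p.2 ∧ k0 * p.1 + k1 * p.2 < m}
          = Ico 0 ((m - k0 * x) / k1) := by
        ext y
        simp only [mem_preimage, mem_ofPred_eq, mem_Ico, hx.1, true_and, lt_div_iff₀ hk1]
        constructor <;> rintro ⟨a, b⟩ <;> exact ⟨a, by linarith⟩
      rw [this, Real.volume_Ico, sub_zero]
    · rw [indicator_of_notMem hx]
      have : Prod.mk x ⁻¹' {p : ℝ × ℝ | 0 ≤ p.1 ∧ 0 ≤ p.2 ∧ k0 * p.1 + k1 * p.2 < m} = ∅ := by
        rw [eq_empty_iff_forall_notMem]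
        rintro y ⟨h1, h2, h3⟩
        apply hx
        refine ⟨h1, ?_⟩
        rw [le_div_iff₀ hk0]
        simp only at h1 h2 h3
        nlinarith [mul_nonneg hk1.le h2]
      rw [this, measure_empty]
  rw [this, lint_Icc (by fun_prop) (by positivity)]
  · congr 1
    have : ∀ t : ℝ, HasDerivAt (fun t => (m * t - k0 * t ^ 2 / 2) / k1) ((m - k0 * t) / k1) t := by
      intro t
      have := ((((hasDerivAt_id t).const_mul m).sub
        (((hasDerivAt_pow 2 t).const_mul k0).div_const 2))).div_const k1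
      exact this.congr_deriv (by simp; ring)
    rw [intervalIntegral.integral_eq_sub_of_hasDerivAt (fun t _ => this t)
      (Continuous.intervalIntegrable (by fun_prop) _ _)]
    field_simp; ring
  · intro t ht
    have := (le_div_iff₀ hk0).1 ht.2
    apply div_nonneg _ hk1.le
    linarith

theorem vol_wedge (m0 m1 : ℝ) {D k0 k1 : ℝ} (hD : 0 ≤ D) (hk0 : 0 < k0) (hk1 : 0 < k1) :
    volume {z : E3 | 0 ≤ z 0 ∧ 0 ≤ z 1 ∧ 0 ≤ z 2 ∧ z 2 ≤ D ∧ k0 * z 0 + k1 * z 1 < m0 + m1 * z 2}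
      = ENNReal.ofReal ((∫ τ in (0 : ℝ)..D, (max (m0 + m1 * τ) 0) ^ 2) / (2 * k0 * k1)) := by
  set S : Set (ℝ × ℝ × ℝ) := {p | 0 ≤ p.2.1 ∧ 0 ≤ p.2.2 ∧ 0 ≤ p.1 ∧ p.1 ≤ D ∧
    k0 * p.2.1 + k1 * p.2.2 < m0 + m1 * p.1} with hSd
  have hS : MeasurableSet S := by rw [hSd]; measurability
  have h1 := mp_coord.measure_preimage hS.nullMeasurableSet
  refine h1.trans ?_
  rw [Measure.volume_eq_prod, Measure.prod_apply hS]
  have : (fun x : ℝ => volume (Prod.mk x ⁻¹' S))
      = (Icc 0 D).indicator fun t => ENNReal.ofReal ((max (m0 + m1 * t) 0) ^ 2 / (2 * k0 * k1)) := by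
    funext x
    by_cases hx : x ∈ Icc 0 D
    · rw [indicator_of_mem hx, ← vol_tri _ hk0 hk1]
      congr 1
      ext y
      simp [hSd, hx.1, hx.2]
    · rw [indicator_of_notMem hx]
      have : Prod.mk x ⁻¹' S = ∅ := by
        rw [eq_empty_iff_forall_notMem]
        rintro y ⟨-, -, h3, h4, -⟩
        exact hx ⟨h3, h4⟩
      rw [this, measure_empty]
  rw [this, lint_Icc (by fun_prop) hD (fun t _ => by positivity), intervalIntegral.integral_div]

lemma vol_le_null {A B N : Set E3} (hN : volume N = 0) (h : A ⊆ B ∪ N) : volume A ≤ volume B :=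
  (measure_mono h).trans ((measure_union_le _ _).trans (by rw [hN, add_zero]))

lemma vol_plane {a : E3} (ha : a ≠ 0) (c : ℝ) : volume {z : E3 | dt a z = c} = 0 := by
  have hp := dt_self_pos ha
  have e : {z : E3 | dt a z = c}
      = (AffineSubspace.mk' ((c / dt a a) • a) (perp a) : Set E3) := by
    ext z
    simp only [mem_ofPred_eq, SetLike.mem_coe, AffineSubspace.mem_mk', vsub_eq_sub, mem_perp,
      dt_sub, dt_smul, div_mul_cancel₀ _ hp.ne', sub_eq_zero]
  rw [e]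
  apply Measure.addHaar_affineSubspace
  intro htop
  have : (c / dt a a) • a + a ∈ AffineSubspace.mk' ((c / dt a a) • a) (perp a) := by
    rw [htop]; trivial
  rw [AffineSubspace.mem_mk', vsub_eq_sub, add_sub_cancel_left, mem_perp] at this
  exact hp.ne' this

lemma vol_plane' {a0 a1 a2 : ℝ} (ha : a0 ≠ 0 ∨ a1 ≠ 0 ∨ a2 ≠ 0) (c : ℝ) :
    volume {z : E3 | a0 * z 0 + a1 * z 1 + a2 * z 2 = c} = 0 := by
  have := vol_plane (a := !₂[a0, a1, a2]) (by
    intro e
    have h0 := congrArg (fun v : E3 => v 0) e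
    have h1 := congrArg (fun v : E3 => v 1) e
    have h2 := congrArg (fun v : E3 => v 2) e
    simp at h0 h1 h2
    tauto) c
  simpa [dt] using this

theorem vol_tet {α0 α1 α2 : ℝ} (h0 : 0 < α0) (h1 : 0 < α1) (h2 : 0 < α2) :
    volume (tet α0 α1 α2) = ENNReal.ofReal (1 / (6 * α0 * α1 * α2)) := by
  have hw := vol_wedge 1 (-α2) (D := 1 / α2) (by positivity) h0 h1
  have hi : ∫ τ in (0 : ℝ)..1 / α2, (max (1 + -α2 * τ) 0) ^ 2 = 1 / (3 * α2) := by
    rw [intervalIntegral.integral_congr (g := fun τ => (1 - α2 * τ) ^ 2)]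
    · have : ∀ t : ℝ, HasDerivAt (fun t => -(1 - α2 * t) ^ 3 / (3 * α2)) ((1 - α2 * t) ^ 2) t := by
        intro t
        have := (((((hasDerivAt_id t).const_mul α2).const_sub 1).pow 3).neg).div_const (3 * α2)
        exact this.congr_deriv (by simp; field_simp)
      rw [intervalIntegral.integral_eq_sub_of_hasDerivAt (fun t _ => this t)
        (Continuous.intervalIntegrable (by fun_prop) _ _)]
      field_simp; ring
    · intro t ht
      rw [uIcc_of_le (by positivity)] at ht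
      have := (le_div_iff₀ h2).1 ht.2
      simp only
      rw [max_eq_left (by linarith)]; ring
  rw [hi] at hw
  have e : 1 / (3 * α2) / (2 * α0 * α1) = 1 / (6 * α0 * α1 * α2) := by field_simp; ring
  rw [e] at hw
  rw [← hw]
  apply le_antisymm
  · refine vol_le_null (vol_plane' (a1 := α1) (a2 := α2) (Or.inl h0.ne') 1) ?_
    rintro z ⟨⟨a, b, c⟩, d⟩
    rcases d.eq_or_lt with d | d
    · exact Or.inr d
    · refine Or.inl ⟨a, b, c, ?_, by linarith⟩
      rw [le_div_iff₀ h2]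
      nlinarith [mul_nonneg h0.le a, mul_nonneg h1.le b]
  · apply measure_mono
    rintro z ⟨a, b, c, -, d⟩
    exact ⟨⟨a, b, c⟩, by linarith⟩

theorem vol_tet_open :
    volume {z : E3 | 0 < z 0 ∧ 0 < z 1 ∧ 0 < z 2 ∧ z 0 + z 1 + z 2 < 1} = ENNReal.ofReal (1 / 6) := by
  have h := vol_tet one_pos one_pos one_pos
  norm_num at h
  norm_num
  rw [← h]
  apply le_antisymm
  · apply measure_mono
    rintro z ⟨a, b, c, d⟩
    exact ⟨⟨a.le, b.le, c.le⟩, by linarith⟩
  · have n0 := vol_plane' (a0 := 1) (a1 := 0) (a2 := 0) (by simp) 0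
    have n1 := vol_plane' (a0 := 0) (a1 := 1) (a2 := 0) (by simp) 0
    have n2 := vol_plane' (a0 := 0) (a1 := 0) (a2 := 1) (by simp) 0
    have n3 := vol_plane' (a0 := 1) (a1 := 1) (a2 := 1) (by simp) 1
    have n := measure_union_null (measure_union_null n0 n1) (measure_union_null n2 n3)
    refine vol_le_null n ?_
    rintro z ⟨⟨a, b, c⟩, d⟩
    by_contra hc
    simp only [mem_union, mem_ofPred_eq, not_or] at hc
    obtain ⟨h1, ⟨h2, h3⟩, h4, h5⟩ := hc
    apply h1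
    exact ⟨lt_of_le_of_ne a fun e => h2 (by linarith), lt_of_le_of_ne b fun e => h3 (by linarith),
      lt_of_le_of_ne c fun e => h4 (by linarith), by
        have := lt_of_le_of_ne d h5; linarith⟩

end Pool.Agent.MP_5cfbf6_gt
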