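import Pool.Agent.MP_5cfbf6_gt.Rep1

set_option autoImplicit false
set_option linter.unusedSectionVars false

namespace Pool.Agent.MP_5cfbf6_gt

open Set Filter Topology MeasureTheory Module

/-- coatoms of the face lattice -/
def TypCoat (P F : Set E3) : Prop :=
  IsExposed ℝ P F ∧ F ≠ P ∧ ∀ G, IsExposed ℝ P G → F ⊆ G → G = F ∨ G = P

/-- atoms of the face lattice -/
def TypAtom (P F : Set E3) : Prop :=
  IsExposed ℝ P F ∧ F ≠ ∅ ∧ ∀ G, IsExposed ℝ P G → G ⊆ F → G = F ∨ G = ∅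

lemma typ_sub_of_span {P F G : Set E3} (hF : IsExposed ℝ P F) (hne : F.Nonempty) (hG : G ⊆ P)
    (hFG : F ⊆ G) (h : vectorSpan ℝ G ≤ vectorSpan ℝ F) : G ⊆ F := by
  obtain ⟨l, hl⟩ := hF hne
  obtain ⟨x, hx⟩ := hne
  have hk : vectorSpan ℝ F ≤ LinearMap.ker (l : E3 →ₗ[ℝ] ℝ) := by
    rw [vectorSpan_def, Submodule.span_le]
    rintro _ ⟨a, ha, b, hb, rfl⟩
    rw [hl] at ha hb
    show l (a - b) = 0
    rw [map_sub, le_antisymm (hb.2 a ha.1) (ha.2 b hb.1), sub_self]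
  intro y hy
  have h1 : l (y - x) = 0 := hk (h (vsub_mem_vectorSpan ℝ hy (hFG hx)))
  rw [map_sub, sub_eq_zero] at h1
  rw [hl] at hx ⊢
  exact ⟨hG hy, fun z hz => h1 ▸ hx.2 z hz⟩

lemma typ_rank {P : Set E3} (hP : IsPolytope P) : finrank ℝ (vectorSpan ℝ P) = 3 := by
  have h : affineSpan ℝ P = ⊤ :=
    affineSpan_eq_top_of_nonempty_interior (hP.2.mono (interior_mono (subset_convexHull ℝ P)))
  rw [AffineSubspace.vectorSpan_eq_top_of_affineSpan_eq_top ℝ E3 E3 h]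
  simp

lemma typ_exists_fc {ι : Type} [Fintype ι] [DecidableEq ι] {u : ι → E3} {h : ι → ℝ}
    (hP : IsPolytope (poly u h)) {F : Set E3} (hF : IsExposed ℝ (poly u h) F)
    (hne : F ≠ poly u h) : ∃ i, F ⊆ fc u h {i} := by
  rcases F.eq_empty_or_nonempty with rfl | h0
  · by_contra hc
    push Not at hc
    have : poly u h = univ := eq_univ_of_forall fun x i => absurd (empty_subset _) (hc i)
    exact noncompact_univ E3 (this ▸ hP.isCompact)
  · have h1 := fc_act_of_exposed hF h0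
    rcases (act u h F).eq_empty_or_nonempty with h2 | ⟨i, hi⟩
    · rw [h2] at h1
      refine absurd (h1.symm.trans ?_) hne
      ext x
      simp [fc]
    · exact ⟨i, h1 ▸ fc_anti u h (singleton_subset_iff.2 hi)⟩

lemma typ_coat {P : Set E3} (hP : IsPolytope P) {F : Set E3} : F ∈ twoFaces P ↔ TypCoat P F := by
  obtain ⟨ι, _, _, u, h, hu, rfl, hf, -⟩ := exists_hrep hP
  have hr : ∀ i, finrank ℝ (vectorSpan ℝ (fc u h {i})) = 2 := fun i => by
    rw [(hf i).2]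
    refine finrank_perp fun e => ?_
    have := hu i
    rw [e, dt_zero] at this
    exact zero_ne_one this
  have h3 := typ_rank hP
  constructor
  · rintro ⟨hF, h2⟩
    refine ⟨hF, fun e => by rw [e, h3] at h2; omega, fun G hG hFG => ?_⟩
    by_cases e : G = poly u h
    · exact Or.inr e
    obtain ⟨j, hj⟩ := typ_exists_fc hP hG e
    have hne : F.Nonempty := by
      rw [nonempty_iff_ne_empty]
      rintro rfl
      rw [vectorSpan_empty, finrank_bot] at h2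
      omega
    have e2 : vectorSpan ℝ F = vectorSpan ℝ (fc u h {j}) :=
      Submodule.eq_of_le_of_finrank_eq (vectorSpan_mono ℝ (hFG.trans hj)) (by rw [h2, hr])
    exact Or.inl ((typ_sub_of_span hF hne hG.subset hFG
      (e2 ▸ vectorSpan_mono ℝ hj)).antisymm hFG)
  · rintro ⟨hF, hne, H⟩
    obtain ⟨i, hi⟩ := typ_exists_fc hP hF hne
    rcases H _ (isExposed_fc u h {i}) hi with e | e
    · exact ⟨hF, e ▸ hr i⟩
    · have := hr i
      rw [e, h3] at this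
      omega

lemma typ_single {P : Set E3} (hP : IsPolytope P) {v : E3} (hv : v ∈ P.extremePoints ℝ) :
    IsExposed ℝ P {v} := by
  obtain ⟨ι, _, _, u, h, -, rfl, -, -⟩ := exists_hrep hP
  obtain ⟨i, j, k, h1, h2, h3, hd⟩ := extreme_triple hv
  have : fc u h {i, j, k} = {v} := by
    ext x
    constructor
    · intro hx
      exact eq_of_dt3 hd (by rw [h1, hx.2 i (by simp)]) (by rw [h2, hx.2 j (by simp)])
        (by rw [h3, hx.2 k (by simp)])
    · rintro rfl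
      refine ⟨hv.1, fun l hl => ?_⟩
      rcases hl with rfl | rfl | rfl <;> assumption
  exact this ▸ isExposed_fc u h _

lemma typ_atom {P : Set E3} (hP : IsPolytope P) {F : Set E3} :
    TypAtom P F ↔ ∃ v ∈ P.extremePoints ℝ, {v} = F := by
  constructor
  · rintro ⟨hF, hne, H⟩
    obtain ⟨v, hv⟩ := (hF.isCompact hP.isCompact).extremePoints_nonempty
      (nonempty_iff_ne_empty.2 hne)
    have hv2 := hF.isExtreme.extremePoints_subset_extremePoints hv
    rcases H _ (typ_single hP hv2) (singleton_subset_iff.2 hv.1) with e | e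
    · exact ⟨v, hv2, e⟩
    · exact absurd e (singleton_ne_empty v)
  · rintro ⟨v, hv, rfl⟩
    exact ⟨typ_single hP hv, singleton_ne_empty v, fun G _ hG =>
      (subset_singleton_iff_eq.1 hG).symm⟩

/-- an isomorphism of face lattices as a pair of maps on sets -/
structure TypIso (P Q : Set E3) (φ ψ : Set E3 → Set E3) : Prop where
  e1 : ∀ F, IsExposed ℝ P F → IsExposed ℝ Q (φ F)
  e2 : ∀ G, IsExposed ℝ Q G → IsExposed ℝ P (ψ G)
  l1 : ∀ F, IsExposed ℝ P F → ψ (φ F) = F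
  l2 : ∀ G, IsExposed ℝ Q G → φ (ψ G) = G
  m1 : ∀ F F', IsExposed ℝ P F → IsExposed ℝ P F' → F ⊆ F' → φ F ⊆ φ F'
  m2 : ∀ G G', IsExposed ℝ Q G → IsExposed ℝ Q G' → G ⊆ G' → ψ G ⊆ ψ G'

lemma SameType.typIso {P Q : Set E3} (e : SameType P Q) : ∃ φ ψ, TypIso P Q φ ψ := by
  classical
  obtain ⟨e⟩ := e
  refine ⟨fun F => if h : IsExposed ℝ P F then (e ⟨F, h⟩).1 else ∅,
    fun G => if h : IsExposed ℝ Q G then (e.symm ⟨G, h⟩).1 else ∅, fun F hF => ?_, fun F hF => ?_,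
    fun F hF => ?_, fun F hF => ?_, fun F F' hF hF' h => ?_, fun F F' hF hF' h => ?_⟩
  · rw [dif_pos hF]
    exact (e ⟨F, hF⟩).2
  · rw [dif_pos hF]
    exact (e.symm ⟨F, hF⟩).2
  · simp only [dif_pos hF, dif_pos (e ⟨F, hF⟩).2, Subtype.coe_eta, OrderIso.symm_apply_apply]
  · simp only [dif_pos hF, dif_pos (e.symm ⟨F, hF⟩).2, Subtype.coe_eta, OrderIso.apply_symm_apply]
  · rw [dif_pos hF, dif_pos hF']
    exact e.monotone (a := ⟨F, hF⟩) (b := ⟨F', hF'⟩) h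
  · rw [dif_pos hF, dif_pos hF']
    exact e.symm.monotone (a := ⟨F, hF⟩) (b := ⟨F', hF'⟩) h

namespace TypIso

variable {P Q : Set E3} {φ ψ : Set E3 → Set E3}

lemma symm (e : TypIso P Q φ ψ) : TypIso Q P ψ φ := ⟨e.e2, e.e1, e.l2, e.l1, e.m2, e.m1⟩

lemma top (e : TypIso P Q φ ψ) : φ P = Q := by
  refine (e.e1 P (IsExposed.refl P)).subset.antisymm ?_
  have h := e.e2 Q (IsExposed.refl Q)
  have := e.m1 _ _ h (IsExposed.refl P) h.subset
  rwa [e.l2 Q (IsExposed.refl Q)] at this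

lemma bot (e : TypIso P Q φ ψ) : φ ∅ = ∅ := by
  have := e.m1 _ _ isExposed_empty (e.e2 ∅ isExposed_empty) (empty_subset _)
  rw [e.l2 ∅ isExposed_empty] at this
  exact subset_empty_iff.1 this

lemma coat (e : TypIso P Q φ ψ) {F : Set E3} (h : TypCoat P F) : TypCoat Q (φ F) := by
  refine ⟨e.e1 F h.1, fun c => h.2.1 ?_, fun G hG hs => ?_⟩
  · rw [← e.l1 F h.1, c, e.symm.top]
  · have h1 := e.m2 _ _ (e.e1 F h.1) hG hs
    rw [e.l1 F h.1] at h1
    rcases h.2.2 _ (e.e2 G hG) h1 with c | c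
    · exact Or.inl (by rw [← c, e.l2 G hG])
    · exact Or.inr (by rw [← e.l2 G hG, c, e.top])

lemma atom (e : TypIso P Q φ ψ) {F : Set E3} (h : TypAtom P F) : TypAtom Q (φ F) := by
  refine ⟨e.e1 F h.1, fun c => h.2.1 ?_, fun G hG hs => ?_⟩
  · rw [← e.l1 F h.1, c, e.symm.bot]
  · have h1 := e.m2 _ _ hG (e.e1 F h.1) hs
    rw [e.l1 F h.1] at h1
    rcases h.2.2 _ (e.e2 G hG) h1 with c | c
    · exact Or.inl (by rw [← c, e.l2 G hG])
    · exact Or.inr (by rw [← e.l2 G hG, c, e.bot])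

lemma injOn (e : TypIso P Q φ ψ) {S : Set (Set E3)} (hS : ∀ F ∈ S, IsExposed ℝ P F) :
    InjOn φ S := fun F hF F' hF' h => by rw [← e.l1 F (hS F hF), h, e.l1 F' (hS F' hF')]

end TypIso

lemma typ_encard {P : Set E3} (hP : IsPolytope P) (F : Set E3) :
    (F ∩ P.extremePoints ℝ).encard = {A | TypAtom P A ∧ A ⊆ F}.encard := by
  rw [← (singleton_injective (α := E3)).encard_image]
  congr 1
  ext A
  simp only [mem_image, mem_inter_iff, mem_ofPred_eq, typ_atom hP]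
  constructor
  · rintro ⟨v, ⟨h1, h2⟩, rfl⟩
    exact ⟨⟨v, h2, rfl⟩, singleton_subset_iff.2 h1⟩
  · rintro ⟨⟨v, h2, rfl⟩, h1⟩
    exact ⟨v, ⟨singleton_subset_iff.1 h1, h2⟩, rfl⟩

theorem SameType.simple {P Q : Set E3} (hP : IsPolytope P) (hQ : IsPolytope Q)
    (e : SameType P Q) (hs : IsSimple P) : IsSimple Q := by
  obtain ⟨φ, ψ, e⟩ := e.typIso
  intro v hv
  have hv1 := typ_single hQ hv
  obtain ⟨w, hw, hwv⟩ := (typ_atom hP).1 (e.symm.atom ((typ_atom hQ).2 ⟨v, hv, rfl⟩))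
  rw [← hs w hw, ← (e.injOn (S := {F ∈ twoFaces P | w ∈ F})
    fun F hF => hF.1.1).ncard_image]
  congr 1
  ext G
  constructor
  · rintro ⟨h1, h2⟩
    refine ⟨ψ G, ⟨(typ_coat hP).2 (e.symm.coat ((typ_coat hQ).1 h1)), ?_⟩, e.l2 G h1.1⟩
    rw [← singleton_subset_iff, hwv]
    exact e.m2 _ _ hv1 h1.1 (singleton_subset_iff.2 h2)
  · rintro ⟨F, ⟨h1, h2⟩, rfl⟩
    refine ⟨(typ_coat hQ).2 (e.coat ((typ_coat hP).1 h1)), ?_⟩
    rw [← singleton_subset_iff, ← e.l2 _ hv1, ← hwv]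
    exact e.m1 _ _ (typ_single hP hw) h1.1 (singleton_subset_iff.2 h2)

theorem SameType.face {P Q : Set E3} (hP : IsPolytope P) (hQ : IsPolytope Q)
    (e : SameType P Q) {F : Set E3} (hF : F ∈ twoFaces P) :
    ∃ G ∈ twoFaces Q, (G ∩ Q.extremePoints ℝ).encard = (F ∩ P.extremePoints ℝ).encard := by
  obtain ⟨φ, ψ, e⟩ := e.typIso
  refine ⟨φ F, (typ_coat hQ).2 (e.coat ((typ_coat hP).1 hF)), ?_⟩
  rw [typ_encard hP, typ_encard hQ, ← (e.injOn (S := {A | TypAtom P A ∧ A ⊆ F})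
    fun A hA => hA.1.1).encard_image]
  congr 1
  ext G
  constructor
  · rintro ⟨h1, h2⟩
    refine ⟨ψ G, ⟨e.symm.atom h1, ?_⟩, e.l2 G h1.1⟩
    have := e.m2 _ _ h1.1 (e.e1 F hF.1) h2
    rwa [e.l1 F hF.1] at this
  · rintro ⟨A, ⟨h1, h2⟩, rfl⟩
    exact ⟨e.atom h1, e.m1 _ _ h1.1 hF.1 h2⟩

end Pool.Agent.MP_5cfbf6_gt
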