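import Pool.Agent.MP_5cfbf6_gt.Alg

set_option autoImplicit false
set_option linter.unusedSectionVars false

namespace Pool.Agent.MP_5cfbf6_gt

open Set Filter Topology MeasureTheory Module

variable {ι : Type} [Fintype ι] [DecidableEq ι]
variable {u : ι → E3} {Tr : ι → ι → ι → Prop}

lemma var1_one_pos (i : ι) : 0 < (1 : ι → ℝ) i := one_pos

lemma var1_norm_le {a : E3} (h : dt a a ≤ 1) : ‖a‖ ≤ 1 := by
  rw [dt_self] at h
  nlinarith [norm_nonneg a]

lemma var1_norm_eq {a : E3} (h : dt a a = 1) : ‖a‖ = 1 := by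
  rw [dt_self] at h
  nlinarith [norm_nonneg a]

lemma Sys.var1_ar (S : Sys u 1 Tr) (hu : ∀ i, dt (u i) (u i) = 1) {c : ι → E3} (hc : Ctr u 1 c)
    (i : ι) : ar u 1 i = (∑ j, DD u Tr 1 c i j) / 2 := by
  have := S.ar_eq var1_one_pos hc i
  rwa [var1_norm_eq (hu i), Pi.one_apply, one_mul, one_mul] at this

lemma Sys.var1_sum_ar (S : Sys u 1 Tr) (hu : ∀ i, dt (u i) (u i) = 1) :
    ∑ i, ar u 1 i = 3 * vol u 1 := by
  rw [S.vol_eq var1_one_pos (S.ctr_u hu), Finset.sum_congr rfl fun i _ => S.var1_ar hu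
    (S.ctr_u hu) i, ← Finset.sum_div]
  ring

lemma Sys.var1_sum_pos (S : Sys u 1 Tr) : 0 < ∑ i, ar u 1 i := by
  obtain ⟨i, -⟩ := S.ne
  exact Finset.sum_pos (fun i _ => S.ar_pos var1_one_pos i) ⟨i, Finset.mem_univ _⟩

theorem Sys.vol_le_of (S : Sys u 1 Tr) (O : Opt u 1 Tr) (hu : ∀ i, dt (u i) (u i) = 1)
    {a : ι → E3} (Sa : Sys a 1 Tr) (ha : ∀ i, dt (a i) (a i) ≤ 1) : vol u 1 ≤ vol a 1 := by
  obtain ⟨c, hc⟩ := Sa.exists_ctr
  have h1 : ∑ i, ar a 1 i ≤ 3 * vol a 1 := by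
    have : ∑ i, ar a 1 i ≤ ∑ i, (∑ j, DD a Tr 1 c i j) / 2 := Finset.sum_le_sum fun i _ => by
      have e := Sa.ar_eq var1_one_pos hc i
      rw [Pi.one_apply, one_mul] at e
      have := mul_le_of_le_one_left (Sa.sum_DD_pos var1_one_pos hc i).le (var1_norm_le (ha i))
      linarith
    rw [← Finset.sum_div] at this
    rw [Sa.vol_eq var1_one_pos hc]
    linarith
  have h2 := O a 1 Sa
  have h3 := Sa.var1_sum_pos
  have h4 := S.var1_sum_pos
  rw [S.var1_sum_ar hu] at h2 h4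
  have hV : 0 < vol u 1 := by linarith
  have hV' : 0 < vol a 1 := by linarith
  have h5 : vol a 1 ^ 2 / (3 * vol a 1) ^ 3 ≤ vol a 1 ^ 2 / (∑ i, ar a 1 i) ^ 3 := by gcongr
  have h6 := h5.trans h2
  have e : ∀ V : ℝ, 0 < V → V ^ 2 / (3 * V) ^ 3 = 1 / (27 * V) := fun V hV => by
    field_simp
    norm_num
  rw [e _ hV, e _ hV'] at h6
  have := le_of_one_div_le_one_div (by positivity) h6
  linarith

lemma var1_dt_deriv {a : ℝ → E3} {w : E3} (h : HasDerivAt a w 0) (x : E3) :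
    HasDerivAt (fun ε => dt (a ε) x) (dt w x) 0 := by
  have := (dtL x).hasFDerivAt.comp_hasDerivAt 0 h
  simpa only [Function.comp_def, dtL_apply, dt_comm x] using this

lemma var1_inv_deriv {f g k : ℝ → ℝ} {p q r : ℝ} (hf : HasDerivAt f p 0) (hg : HasDerivAt g q 0)
    (hk : HasDerivAt k r 0) (f0 : f 0 = 1) (g0 : g 0 = 1) (k0 : k 0 = 1) :
    HasDerivAt (fun ε => 1 / (6 * f ε * g ε * k ε)) (-((p + q + r) / 6)) 0 := by
  have h1 := (((hf.const_mul 6).mul hg).mul hk).inv (by simp [f0, g0, k0])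
  simp only [one_div]
  refine HasDerivAt.congr_deriv h1 ?_
  simp only [Pi.mul_apply, f0, g0, k0]
  ring

/-- first variation of the flag upper bound -/
lemma Sys.var1_key (S : Sys u 1 Tr) {c : ι → E3} (hc : Ctr u 1 c) {a : ℝ → ι → E3} {w : ι → E3}
    (h0 : a 0 = u) (ha : ∀ k, HasDerivAt (fun ε => a ε k) (w k) 0) {φ : ℝ → ℝ} {φ' : ℝ}
    (hφ : HasDerivAt φ φ' 0) (hφ0 : φ 0 = vol u 1) (hle : ∀ᶠ ε in 𝓝 (0 : ℝ), φ ε ≤ vol (a ε) 1) :
    ∑ k, ∑ l, DD u Tr 1 c k l * (dt (w k) (c k) + dt (w k) (ep u Tr 1 k l)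
      + dt (w k) (em u Tr 1 k l)) = -6 * φ' := by
  let g : ι → ι → ℝ → ℝ := fun k l ε =>
    1 / (6 * dt (a ε k) (c k) * dt (a ε k) (ep u Tr 1 k l) * dt (a ε k) (em u Tr 1 k l))
  have a1 : ∀ k, dt (a 0 k) (c k) = 1 := fun k => by rw [h0]; exact (hc k).1
  have a2 : ∀ k l, Adj Tr k l → dt (a 0 k) (ep u Tr 1 k l) = 1 := fun k l A => by
    rw [h0]; exact S.ep1 A 1
  have a3 : ∀ k l, Adj Tr k l → dt (a 0 k) (em u Tr 1 k l) = 1 := fun k l A => by
    rw [h0]; exact S.em1 A 1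
  have z : ∀ k l, ¬ Adj Tr k l → DD u Tr 1 c k l = 0 := fun k l A => by simp [DD, mu_of_not A]
  have hG : HasDerivAt (fun ε => ∑ k, ∑ l, DD u Tr 1 c k l * g k l ε)
      (∑ k, ∑ l, DD u Tr 1 c k l * -((dt (w k) (c k) + dt (w k) (ep u Tr 1 k l)
        + dt (w k) (em u Tr 1 k l)) / 6)) 0 := by
    refine HasDerivAt.fun_sum fun k _ => HasDerivAt.fun_sum fun l _ => ?_
    by_cases A : Adj Tr k l
    · exact (var1_inv_deriv (var1_dt_deriv (ha k) _) (var1_dt_deriv (ha k) _)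
        (var1_dt_deriv (ha k) _) (a1 k) (a2 k l A) (a3 k l A)).const_mul _
    · simp only [z k l A, zero_mul]
      exact hasDerivAt_const _ _
  have hG0 : ∑ k, ∑ l, DD u Tr 1 c k l * g k l 0 = vol u 1 := by
    rw [S.vol_eq var1_one_pos hc, Finset.sum_div]
    refine Finset.sum_congr rfl fun k _ => ?_
    rw [Finset.sum_div]
    refine Finset.sum_congr rfl fun l _ => ?_
    by_cases A : Adj Tr k l
    · simp only [g, a1 k, a2 k l A, a3 k l A]
      ring
    · simp [z k l A]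
  have hp : ∀ᶠ ε in 𝓝 (0 : ℝ), ∀ k l, Adj Tr k l → 0 < dt (a ε k) (c k) ∧
      0 < dt (a ε k) (ep u Tr 1 k l) ∧ 0 < dt (a ε k) (em u Tr 1 k l) := by
    simp only [eventually_all]
    intro k l A
    refine Eventually.and ?_ (Eventually.and ?_ ?_)
    · exact continuousAt_const.eventually_lt (var1_dt_deriv (ha k) _).continuousAt
        (by rw [a1]; exact one_pos)
    · exact continuousAt_const.eventually_lt (var1_dt_deriv (ha k) _).continuousAt
        (by rw [a2 k l A]; exact one_pos)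
    · exact continuousAt_const.eventually_lt (var1_dt_deriv (ha k) _).continuousAt
        (by rw [a3 k l A]; exact one_pos)
  have hm : IsLocalMin (fun ε => ∑ k, ∑ l, DD u Tr 1 c k l * g k l ε - φ ε) 0 := by
    filter_upwards [hp, hle] with ε h1 h2
    have := S.vol_le_flags var1_one_pos hc (poly (a ε) 1) (fun k l => tet (dt (a ε k) (c k))
      (dt (a ε k) (ep u Tr 1 k l)) (dt (a ε k) (em u Tr 1 k l))) (fun k l => g k l ε)
      (fun k l _ y hy hx => ⟨hy, by
        have := hx k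
        rw [dt_lin, Pi.one_apply] at this
        linarith⟩)
      (fun k l A => by
        obtain ⟨b1, b2, b3⟩ := h1 k l A
        positivity)
      (fun k l A => by
        obtain ⟨b1, b2, b3⟩ := h1 k l A
        exact (vol_tet b1 b2 b3).le)
    rw [hG0, hφ0, sub_self, sub_nonneg]
    exact h2.trans this
  have e := hm.hasDerivAt_eq_zero (hG.sub hφ)
  rw [sub_eq_zero] at e
  rw [← e, Finset.mul_sum]
  refine Finset.sum_congr rfl fun k _ => ?_
  rw [Finset.mul_sum]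
  exact Finset.sum_congr rfl fun l _ => by ring

lemma Sys.var1_tangent (S : Sys u 1 Tr) (O : Opt u 1 Tr) (hu : ∀ i, dt (u i) (u i) = 1)
    {c : ι → E3} (hc : Ctr u 1 c) {w : ι → E3} (hw : ∀ k, dt (u k) (w k) = 0) :
    ∑ k, ∑ l, DD u Tr 1 c k l * (dt (w k) (c k) + dt (w k) (ep u Tr 1 k l)
      + dt (w k) (em u Tr 1 k l)) = 0 := by
  let a : ℝ → ι → E3 := fun ε k => (1 - ε ^ 2 * dt (w k) (w k)) • u k + ε • w k
  have h0 : a 0 = u := by
    ext1 k
    simp [a]
  have hS : ∀ᶠ ε in 𝓝 (0 : ℝ), Sys (a ε) 1 Tr := by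
    have hc : Continuous fun ε : ℝ => (a ε, (1 : ι → ℝ)) := by fun_prop
    exact (hc.tendsto' 0 (u, 1) (by rw [h0])).eventually S.eventually
  have hs : ∀ᶠ ε in 𝓝 (0 : ℝ), ∀ k, ε ^ 2 * dt (w k) (w k) < 1 := by
    simp only [eventually_all]
    intro k
    exact ContinuousAt.eventually_lt (by fun_prop) continuousAt_const (by simp)
  have := S.var1_key hc (a := a) (w := w) h0 (fun k => by
      have h1 : HasDerivAt (fun ε : ℝ => 1 - ε ^ 2 * dt (w k) (w k)) 0 0 := by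
        simpa using ((hasDerivAt_pow 2 (0 : ℝ)).mul_const (dt (w k) (w k))).const_sub 1
      exact ((h1.smul_const (u k)).add ((hasDerivAt_id (0 : ℝ)).smul_const (w k))).congr_deriv
        (by simp))
    (hasDerivAt_const 0 (vol u 1)) rfl (by
      filter_upwards [hS, hs] with ε h1 h2
      refine S.vol_le_of O hu h1 fun k => ?_
      simp only [a, dt_add, add_dt, dt_smul, smul_dt, hu, hw, dt_comm (w k) (u k)]
      nlinarith [mul_nonneg (mul_nonneg (sq_nonneg ε) (dt_self_nonneg (w k)))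
        (sub_nonneg.2 (h2 k).le)])
  simpa using this

lemma Sys.var1_ctr (S : Sys u 1 Tr) (hu : ∀ i, dt (u i) (u i) = 1) (i : ι)
    {c : E3} (hc1 : dt (u i) c = 1) (hc : ∀ l, l ≠ i → dt (u l) c < 1) :
    Ctr u 1 (Function.update u i c) := fun k => by
  by_cases e : k = i
  · subst e
    rw [Function.update_self]
    exact ⟨hc1, hc⟩
  · rw [Function.update_of_ne e]
    exact S.ctr_u hu k

theorem Sys.first_var (S : Sys u 1 Tr) (O : Opt u 1 Tr) (hu : ∀ i, dt (u i) (u i) = 1) (i : ι)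
    {c : E3} (hc1 : dt (u i) c = 1) (hc : ∀ l, l ≠ i → dt (u l) c < 1) {v : E3}
    (hv : dt (u i) v = 0) :
    ∑ j, mu u Tr 1 i j * (1 - dt (u j) c)
      * (dt v c + dt v (ep u Tr 1 i j) + dt v (em u Tr 1 i j)) = 0 := by
  have := S.var1_tangent O hu (S.var1_ctr hu i hc1 hc) (w := Pi.single i v) fun k => by
    by_cases e : k = i
    · rw [e, Pi.single_eq_same, hv]
    · rw [Pi.single_eq_of_ne e, dt_zero]
  rw [Finset.sum_eq_single i (fun k _ e => by simp [Pi.single_eq_of_ne e]) (by simp)] at this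
  simpa [DD] using this

lemma Sys.var1_ep (S : Sys u 1 Tr) {i j : ι} (A : Adj Tr i j) :
    ep u Tr 1 i j ∈ fc u 1 {i} ∧ em u Tr 1 i j ∈ fc u 1 {i} :=
  ⟨⟨S.ep_mem A, fun l hl => by rw [mem_singleton_iff.1 hl]; exact S.ep1 A 1⟩,
   ⟨S.em_mem A, fun l hl => by rw [mem_singleton_iff.1 hl]; exact S.em1 A 1⟩⟩

theorem Sys.strip (S : Sys u 1 Tr) (O : Opt u 1 Tr) (hu : ∀ i, dt (u i) (u i) = 1) (i : ι)
    {e : E3} {ρ : ℝ} (he : dt (u i) e = 0) (H : ∀ x ∈ fc u 1 {i}, dt e x ≤ ρ) :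
    ∀ x ∈ fc u 1 {i}, -2 * ρ ≤ dt e x := by
  have key : ∀ c : E3, dt (u i) c = 1 → (∀ l, l ≠ i → dt (u l) c < 1) → -2 * ρ ≤ dt e c := by
    intro c hc1 hc
    have h1 := S.first_var O hu i hc1 hc he
    have hC := S.var1_ctr hu i hc1 hc
    have eD : ∀ j, DD u Tr 1 (Function.update u i c) i j = mu u Tr 1 i j * (1 - dt (u j) c) :=
      fun j => by simp [DD]
    have h2 := S.sum_DD_pos var1_one_pos hC i
    simp only [← eD] at h1
    have h3 : ∑ j, DD u Tr 1 (Function.update u i c) i j * (dt e c + dt e (ep u Tr 1 i j)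
        + dt e (em u Tr 1 i j)) ≤
        ∑ j, DD u Tr 1 (Function.update u i c) i j * (dt e c + 2 * ρ) := by
      refine Finset.sum_le_sum fun j _ => ?_
      by_cases A : Adj Tr i j
      · refine mul_le_mul_of_nonneg_left ?_ (S.DD_nonneg var1_one_pos hC i j)
        linarith [H _ (S.var1_ep A).1, H _ (S.var1_ep A).2]
      · simp [DD, mu_of_not A]
    rw [h1, ← Finset.sum_mul] at h3
    linarith [nonneg_of_mul_nonneg_right h3 h2]
  intro x hx
  have ht : Tendsto (fun t : ℝ => (1 - t) * dt e x) (𝓝[>] 0) (𝓝 (dt e x)) :=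
    (Continuous.tendsto' (by fun_prop) 0 _ (by simp)).mono_left nhdsWithin_le_nhds
  refine ge_of_tendsto ht ?_
  filter_upwards [Ioo_mem_nhdsGT (zero_lt_one' ℝ)] with t ht
  have := key ((1 - t) • x + t • u i) (by
      rw [dt_add, dt_smul, dt_smul, hx.2 i rfl, hu, Pi.one_apply]; ring) fun l hl => by
    have b1 : dt (u l) x ≤ 1 := hx.1 l
    have b2 := S.cos_lt hu hl
    rw [dt_add, dt_smul, dt_smul]
    nlinarith [ht.1, ht.2]
  rwa [dt_add, dt_smul, dt_smul, dt_comm e (u i), he, mul_zero, add_zero] at this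

lemma var1_vol_stretch (u : ι → E3) (x : E3) {ε : ℝ} (h : 0 < 1 + ε * dt x x) :
    vol (fun k => u k + ε • dt (u k) x • x) 1 = vol u 1 / (1 + ε * dt x x) := by
  let M := lin (!₂[1, 0, 0] + (ε * x 0) • x) (!₂[0, 1, 0] + (ε * x 1) • x)
    (!₂[0, 0, 1] + (ε * x 2) • x)
  have hd : LinearMap.det M = 1 + ε * dt x x := by
    rw [det_lin]
    simp [det3, dt]
    ring
  have e : poly (fun k => u k + ε • dt (u k) x • x) 1 = M ⁻¹' poly u 1 := by
    ext y
    refine forall_congr' fun k => ?_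
    have : dt (u k + ε • dt (u k) x • x) y = dt (u k) (M y) := by
      rw [dt_lin]
      simp [dt]
      ring
    rw [this]
  unfold vol
  rw [e, Measure.addHaar_preimage_linearMap _ (by rw [hd]; exact h.ne'), hd, ENNReal.toReal_mul,
    ENNReal.toReal_ofReal (abs_nonneg _), abs_of_pos (inv_pos.2 h), div_eq_inv_mul]

lemma Sys.var1_moment (S : Sys u 1 Tr) (O : Opt u 1 Tr) (hu : ∀ i, dt (u i) (u i) = 1) (x : E3) :
    ∑ k, ar u 1 k * dt (u k) x ^ 2 = vol u 1 * dt x x := by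
  have h1 : HasDerivAt (fun ε : ℝ => 1 + ε * dt x x) (dt x x) 0 := by
    simpa using ((hasDerivAt_id (0 : ℝ)).mul_const (dt x x)).const_add 1
  have h2 : HasDerivAt (fun ε : ℝ => vol u 1 / (1 + ε * dt x x)) (-(vol u 1 * dt x x)) 0 := by
    have := (hasDerivAt_const (0 : ℝ) (vol u 1)).div h1 (by simp)
    exact this.congr_deriv (by simp)
  have := S.var1_key (S.ctr_u hu) (a := fun ε k => u k + ε • dt (u k) x • x)
    (w := fun k => dt (u k) x • x) (by ext1 k; simp) (fun k => by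
      simpa using ((hasDerivAt_id (0 : ℝ)).smul_const (dt (u k) x • x)).const_add (u k))
    h2 (by simp) (by
      filter_upwards [(continuousAt_const (y := (0 : ℝ))).eventually_lt h1.continuousAt
        (by simp)] with ε hε
      exact (var1_vol_stretch u x hε).ge)
  have e : ∀ k, ∑ l, DD u Tr 1 u k l * (dt (dt (u k) x • x) (u k)
      + dt (dt (u k) x • x) (ep u Tr 1 k l) + dt (dt (u k) x • x) (em u Tr 1 k l))
      = 6 * (ar u 1 k * dt (u k) x ^ 2) := fun k => by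
    have f := S.first_var O hu k (hu k) (fun l hl => S.cos_lt hu hl) (v := x - dt (u k) x • u k)
      (by rw [dt_sub, dt_smul, hu]; ring)
    have : ∑ l, DD u Tr 1 u k l * (dt (dt (u k) x • x) (u k)
        + dt (dt (u k) x • x) (ep u Tr 1 k l) + dt (dt (u k) x • x) (em u Tr 1 k l))
        = dt (u k) x * ∑ j, mu u Tr 1 k j * (1 - dt (u j) (u k))
          * (dt (x - dt (u k) x • u k) (u k) + dt (x - dt (u k) x • u k) (ep u Tr 1 k j)
            + dt (x - dt (u k) x • u k) (em u Tr 1 k j))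
          + 3 * dt (u k) x ^ 2 * ∑ l, DD u Tr 1 u k l := by
      rw [Finset.mul_sum, Finset.mul_sum, ← Finset.sum_add_distrib]
      refine Finset.sum_congr rfl fun l _ => ?_
      by_cases A : Adj Tr k l
      · simp only [DD, sub_dt, smul_dt, hu, S.ep1 A, S.em1 A, Pi.one_apply]
        ring
      · simp [DD, mu_of_not A]
    rw [this, f, S.var1_ar hu (S.ctr_u hu)]
    ring
  rw [Finset.sum_congr rfl fun k _ => e k, ← Finset.mul_sum] at this
  linarith

theorem Sys.radius (S : Sys u 1 Tr) (O : Opt u 1 Tr) (hu : ∀ i, dt (u i) (u i) = 1) :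
    ∀ x ∈ poly u 1, dt x x ≤ 9 := by
  intro x hx
  have h1 := S.var1_moment O hu x
  have h2 := S.mink hu var1_one_pos x
  have h3 := S.var1_sum_ar hu
  have h4 := S.var1_sum_pos
  have h5 : 0 ≤ ∑ k, ar u 1 k * ((dt (u k) x + ‖x‖) * (1 - dt (u k) x)) :=
    Finset.sum_nonneg fun k _ => by
      have b1 := abs_le.1 (abs_dt_le (u k) x)
      rw [var1_norm_eq (hu k), one_mul] at b1
      have b2 : dt (u k) x ≤ 1 := hx k
      exact mul_nonneg (S.ar_pos var1_one_pos k).le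
        (mul_nonneg (by linarith [b1.1]) (by linarith))
  have h6 : ∑ k, ar u 1 k * ((dt (u k) x + ‖x‖) * (1 - dt (u k) x)) =
      (1 - ‖x‖) * ∑ k, ar u 1 k * dt (u k) x + ‖x‖ * ∑ k, ar u 1 k
        - ∑ k, ar u 1 k * dt (u k) x ^ 2 := by
    rw [Finset.mul_sum, Finset.mul_sum, ← Finset.sum_add_distrib, ← Finset.sum_sub_distrib]
    exact Finset.sum_congr rfl fun k _ => by ring
  rw [h6, h1, h2, h3, dt_self] at h5
  rw [dt_self]
  have hV : 0 < vol u 1 := by linarith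
  have h7 : 0 ≤ vol u 1 * (3 * ‖x‖ - ‖x‖ ^ 2) := by linarith
  have h8 := nonneg_of_mul_nonneg_right h7 hV
  nlinarith [norm_nonneg x]

end Pool.Agent.MP_5cfbf6_gt
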