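import Pool.Agent.MP_5cfbf6_gt.Var1
import Pool.Agent.MP_5cfbf6_gt.Cut

set_option autoImplicit false
set_option linter.unusedSectionVars false

namespace Pool.Agent.MP_5cfbf6_gt

open Set Filter Topology MeasureTheory Module

variable {ι : Type} [Fintype ι] [DecidableEq ι]
variable {u : ι → E3} {Tr : ι → ι → ι → Prop}

/-- the perturbed normals -/
noncomputable def var2N (u v : ι → E3) (ε : ℝ) (k : ι) : E3 :=
  (1 / (1 + ε ^ 2 * dt (v k) (v k) / 2)) • (u k + ε • v k)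

lemma var2N_dt (u v : ι → E3) (ε : ℝ) (k : ι) (x : E3) : dt (var2N u v ε k) x =
    (dt (u k) x + ε * dt (v k) x) / (1 + ε ^ 2 * dt (v k) (v k) / 2) := by
  rw [var2N, smul_dt, add_dt, smul_dt]; ring

lemma var2N_le (hu : ∀ i, dt (u i) (u i) = 1) {v : ι → E3} (hv : ∀ i, dt (u i) (v i) = 0) (ε : ℝ)
    (k : ι) : dt (var2N u v ε k) (var2N u v ε k) ≤ 1 := by
  rw [var2N_dt, dt_comm (u k), dt_comm (v k) (var2N u v ε k), var2N_dt, var2N_dt, hu, hv,
    dt_comm (v k) (u k), hv]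
  have h0 : 0 ≤ ε ^ 2 * dt (v k) (v k) := mul_nonneg (sq_nonneg ε) (dt_self_nonneg _)
  have hp : 0 < 1 + ε ^ 2 * dt (v k) (v k) / 2 := by linarith
  rw [div_le_one hp, ← mul_div_assoc, ← add_div, div_le_iff₀ hp]
  nlinarith [sq_nonneg (ε ^ 2 * dt (v k) (v k))]

lemma Sys.var2_eventually (S : Sys u 1 Tr) (v : ι → E3) :
    ∀ᶠ ε : ℝ in 𝓝 0, Sys (var2N u v ε) 1 Tr := by
  have hc : Continuous fun ε : ℝ => (var2N u v ε, (1 : ι → ℝ)) := by
    refine Continuous.prodMk (continuous_pi fun k => ?_) continuous_const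
    have h1 : Continuous fun ε : ℝ => 1 / (1 + ε ^ 2 * dt (v k) (v k) / 2) :=
      continuous_const.div (by fun_prop) fun ε => by
        linarith [mul_nonneg (sq_nonneg ε) (dt_self_nonneg (v k))]
    exact h1.smul (by fun_prop : Continuous fun ε : ℝ => u k + ε • v k)
  have h0 : (var2N u v 0, (1 : ι → ℝ)) = (u, 1) := by
    congr 1
    ext1 k
    simp [var2N]
  have := hc.tendsto 0
  rw [h0] at this
  exact this.eventually S.eventually

/-- the cut tetrahedron of the flag `k l` -/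
def var2Z (u v : ι → E3) (Tr : ι → ι → ι → Prop) (ε : ℝ) (k l : ι) : Set E3 :=
  cutE (dt (v k) (v k)) (dt (v l) (v l)) (dt (u k) (u l)) (dt (v k) (ep u Tr 1 k l))
    (dt (v k) (em u Tr 1 k l)) (dt (v l) (u k)) (dt (v l) (ep u Tr 1 k l))
    (dt (v l) (em u Tr 1 k l)) ε

lemma Sys.var2_le (S : Sys u 1 Tr) (O : Opt u 1 Tr) (hu : ∀ i, dt (u i) (u i) = 1)
    {v : ι → E3} (hv : ∀ i, dt (u i) (v i) = 0) {ε : ℝ} (Sa : Sys (var2N u v ε) 1 Tr)
    (hf : ∀ k l, Adj Tr k l → volume (var2Z u v Tr ε k l) ≠ ⊤) :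
    vol u 1 ≤ ∑ k, ∑ l, DD u Tr 1 u k l * (volume (var2Z u v Tr ε k l)).toReal := by
  refine (S.vol_le_of O hu Sa (var2N_le hu hv ε)).trans (S.vol_le_flags (fun _ => one_pos)
    (S.ctr_u hu) _ (var2Z u v Tr ε) _ (fun k l A z hz hx => ⟨⟨hz, ?_⟩, ?_⟩)
    (fun _ _ _ => ENNReal.toReal_nonneg) fun k l A => (ENNReal.ofReal_toReal (hf k l A)).ge)
  · have := hx k
    rw [dt_lin, var2N_dt, var2N_dt, var2N_dt, hu, S.ep1 A, S.em1 A, dt_comm (v k) (u k), hv,
      mul_zero, add_zero] at this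
    simp only [Pi.one_apply] at this
    linarith
  · have := hx l
    rw [dt_lin, var2N_dt, var2N_dt, var2N_dt, S.ep2 A, S.em2 A, dt_comm (u l) (u k)] at this
    simp only [Pi.one_apply] at this
    linarith

theorem Sys.second_var (S : Sys u 1 Tr) (O : Opt u 1 Tr) (hu : ∀ i, dt (u i) (u i) = 1)
    (v : ι → E3) (hv : ∀ i, dt (u i) (v i) = 0) :
    0 ≤ ∑ k, ∑ l, mu u Tr 1 k l * ((1 - dt (u k) (u l)) * (3 * dt (v k) (v k)
        + 2 * QQ (dt (v k) (ep u Tr 1 k l)) (dt (v k) (em u Tr 1 k l)))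
      - QQ (dt (v l - v k) (ep u Tr 1 k l)) (dt (v l - v k) (em u Tr 1 k l))) := by
  obtain ⟨X, hX⟩ : ∃ X : ι → ι → ℝ, ∀ k l, X k l = (3 * dt (v k) (v k) / 2
      + QQ (dt (v k) (ep u Tr 1 k l)) (dt (v k) (em u Tr 1 k l))) / 3
      - QQ (dt (v l) (ep u Tr 1 k l) - dt (v k) (ep u Tr 1 k l))
        (dt (v l) (em u Tr 1 k l) - dt (v k) (em u Tr 1 k l)) / (6 * (1 - dt (u k) (u l))) :=
    ⟨_, fun _ _ => rfl⟩
  have hD := S.DD_nonneg (fun _ => one_pos) (S.ctr_u hu)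
  have hV := S.vol_eq (fun _ => one_pos) (S.ctr_u hu)
  have key : ∀ η : ℝ, 0 < η → 0 ≤ ∑ k, ∑ l, DD u Tr 1 u k l * X k l + η * (6 * vol u 1) := by
    intro η hη
    have e1 : ∀ᶠ ε : ℝ in 𝓝 0, Sys (var2N u v ε) 1 Tr ∧ ∀ k l, Adj Tr k l →
        volume (var2Z u v Tr ε k l) ≠ ⊤ ∧ (volume (var2Z u v Tr ε k l)).toReal
          + (volume (var2Z u v Tr (-ε) k l)).toReal ≤ 1 / 3 + ε ^ 2 * (X k l + η) := by
      refine (S.var2_eventually v).and ?_
      simp only [eventually_all]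
      intro k l A
      rw [hX]
      exact cut_asymp _ _ _ _ _ _ _ (S.cos_lt hu (S.adj_ne A)) hη
    have e2 : Tendsto (fun ε : ℝ => -ε) (𝓝 0) (𝓝 0) := by
      simpa using (continuous_neg (G := ℝ)).tendsto 0
    obtain ⟨ε, ⟨⟨a1, a2⟩, a3, a4⟩, e0⟩ :=
      (((e1.and (e2.eventually e1)).filter_mono (nhdsWithin_le_nhds (s := {0}ᶜ))).and
        self_mem_nhdsWithin).exists
    have b1 := S.var2_le O hu hv a1 fun k l A => (a2 k l A).1
    have b2 := S.var2_le O hu hv a3 fun k l A => (a4 k l A).1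
    have b3 : ∑ k, ∑ l, DD u Tr 1 u k l * (volume (var2Z u v Tr ε k l)).toReal
        + ∑ k, ∑ l, DD u Tr 1 u k l * (volume (var2Z u v Tr (-ε) k l)).toReal
        ≤ ∑ k, ∑ l, DD u Tr 1 u k l * (1 / 3 + ε ^ 2 * (X k l + η)) := by
      rw [← Finset.sum_add_distrib]
      refine Finset.sum_le_sum fun k _ => ?_
      rw [← Finset.sum_add_distrib]
      refine Finset.sum_le_sum fun l _ => ?_
      by_cases A : Adj Tr k l
      · rw [← mul_add]
        exact mul_le_mul_of_nonneg_left (a2 k l A).2 (hD k l)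
      · simp [DD, mu_of_not A]
    have b4 : ∑ k, ∑ l, DD u Tr 1 u k l * (1 / 3 + ε ^ 2 * (X k l + η)) = 2 * vol u 1
        + ε ^ 2 * (∑ k, ∑ l, DD u Tr 1 u k l * X k l + η * (6 * vol u 1)) := by
      rw [hV, mul_div_cancel₀ _ (by norm_num : (6 : ℝ) ≠ 0), ← mul_div_assoc]
      simp only [Finset.mul_sum, Finset.sum_div, ← Finset.sum_add_distrib]
      refine Finset.sum_congr rfl fun k _ => Finset.sum_congr rfl fun l _ => ?_
      ring
    have e3 : 0 < ε ^ 2 := by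
      have : ε ≠ 0 := e0
      positivity
    exact nonneg_of_mul_nonneg_right (by linarith) e3
  have h0 : 0 ≤ ∑ k, ∑ l, DD u Tr 1 u k l * X k l := by
    have : Tendsto (fun η : ℝ => ∑ k, ∑ l, DD u Tr 1 u k l * X k l + η * (6 * vol u 1)) (𝓝[>] 0)
        (𝓝 (∑ k, ∑ l, DD u Tr 1 u k l * X k l + 0 * (6 * vol u 1))) :=
      (Continuous.tendsto (by fun_prop) 0).mono_left nhdsWithin_le_nhds
    simpa using ge_of_tendsto this (eventually_nhdsWithin_of_forall key)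
  refine (mul_nonneg (by norm_num : (0 : ℝ) ≤ 6) h0).trans (le_of_eq ?_)
  simp only [Finset.mul_sum]
  refine Finset.sum_congr rfl fun k _ => Finset.sum_congr rfl fun l _ => ?_
  by_cases A : Adj Tr k l
  · have : 1 - dt (u k) (u l) ≠ 0 := (sub_pos.2 (S.cos_lt hu (S.adj_ne A))).ne'
    rw [hX, DD, sub_dt, sub_dt, dt_comm (u l) (u k)]
    simp only [Pi.one_apply]
    field_simp
    ring
  · simp [DD, mu_of_not A]

theorem Sys.second_single (S : Sys u 1 Tr) (O : Opt u 1 Tr) (hu : ∀ i, dt (u i) (u i) = 1)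
    (i : ι) {v : E3} (hv : dt (u i) v = 0) (hv1 : dt v v = 1) :
    ∑ j, mu u Tr 1 i j * dt (u i) (u j) * QQ (dt v (ep u Tr 1 i j)) (dt v (em u Tr 1 i j))
      ≤ 3 * ar u 1 i := by
  have H := S.second_var O hu (fun k => if k = i then v else 0) fun k => by
    split_ifs with h
    · rw [h, hv]
    · simp
  obtain ⟨Q, hQ⟩ : ∃ Q : ι → ℝ, ∀ j, Q j = QQ (dt v (ep u Tr 1 i j)) (dt v (em u Tr 1 i j)) :=
    ⟨_, fun _ => rfl⟩
  have hii : mu u Tr 1 i i = 0 := mu_of_not (fun A => S.adj_ne A rfl) _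
  rw [Finset.sum_congr rfl fun k _ => Finset.sum_congr rfl fun l _ => show _ =
    (if k = i then mu u Tr 1 i l * ((1 - dt (u i) (u l)) * (3 + 2 * Q l) - Q l) else 0)
      + (if l = i then -(mu u Tr 1 i k * Q k) else 0) from ?_] at H
  · simp only [Finset.sum_add_distrib, Finset.sum_ite_eq', Finset.mem_univ, if_true,
      Finset.sum_ite_irrel, Finset.sum_const_zero] at H
    rw [S.ar_one hu, ← mul_div_assoc, le_div_iff₀ two_pos, Finset.mul_sum, Finset.sum_mul,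
      ← sub_nonneg, ← Finset.sum_sub_distrib]
    rw [← Finset.sum_add_distrib] at H
    refine H.trans (le_of_eq (Finset.sum_congr rfl fun j _ => ?_))
    rw [hQ]
    ring
  · by_cases hk : k = i <;> by_cases hl : l = i
    · simp [hk, hl, hii]
    · simp only [hk, hl, if_true, if_false, hv1, hQ, zero_sub, neg_dt, QQ]
      ring
    · by_cases A : Adj Tr i k
      · simp only [hk, hl, if_true, if_false, hQ, sub_zero, zero_dt, QQ, S.ep_swap A, S.em_swap A,
          S.mu_symm 1 i k]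
        ring
      · simp [hk, hl, S.mu_symm 1 i k, mu_of_not A]
    · simp [hk, hl, QQ]

end Pool.Agent.MP_5cfbf6_gt
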