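import Pool.Agent.MP_5cfbf6_gt.Defs

set_option autoImplicit false

namespace Pool.Agent.MP_5cfbf6_gt

open Set Filter Topology

def dt (x y : E3) : ℝ := x 0 * y 0 + x 1 * y 1 + x 2 * y 2

def cr (x y : E3) : E3 :=
  !₂[x 1 * y 2 - x 2 * y 1, x 2 * y 0 - x 0 * y 2, x 0 * y 1 - x 1 * y 0]

def det3 (a b c : E3) : ℝ := dt a (cr b c)

@[simp] lemma cr_0 (x y : E3) : cr x y 0 = x 1 * y 2 - x 2 * y 1 := rfl
@[simp] lemma cr_1 (x y : E3) : cr x y 1 = x 2 * y 0 - x 0 * y 2 := rfl
@[simp] lemma cr_2 (x y : E3) : cr x y 2 = x 0 * y 1 - x 1 * y 0 := rfl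

lemma ext3 {x y : E3} (h0 : x 0 = y 0) (h1 : x 1 = y 1) (h2 : x 2 = y 2) : x = y := by
  ext i; fin_cases i <;> assumption

lemma dt_eq_inner (x y : E3) : dt x y = inner ℝ x y := by
  simp [dt, PiLp.inner_apply, Fin.sum_univ_three]; ring

lemma dt_self (x : E3) : dt x x = ‖x‖ ^ 2 := by
  rw [dt_eq_inner, real_inner_self_eq_norm_sq]

lemma dt_self_nonneg (x : E3) : 0 ≤ dt x x := by rw [dt_self]; positivity

lemma dt_self_pos {x : E3} (h : x ≠ 0) : 0 < dt x x := by rw [dt_self]; positivity

lemma eq_zero_of_dt_self {x : E3} (h : dt x x = 0) : x = 0 := by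
  by_contra h'; exact (dt_self_pos h').ne' h

lemma abs_dt_le (x y : E3) : |dt x y| ≤ ‖x‖ * ‖y‖ := by
  rw [dt_eq_inner]; exact abs_real_inner_le_norm x y

lemma dt_le (x y : E3) : dt x y ≤ ‖x‖ * ‖y‖ := (le_abs_self _).trans (abs_dt_le x y)

lemma dt_sq_le (x y : E3) : dt x y ^ 2 ≤ dt x x * dt y y := by
  unfold dt
  nlinarith [sq_nonneg (x 1 * y 2 - x 2 * y 1), sq_nonneg (x 2 * y 0 - x 0 * y 2),
    sq_nonneg (x 0 * y 1 - x 1 * y 0)]

lemma dt_comm (x y : E3) : dt x y = dt y x := by unfold dt; ring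
lemma dt_add (u x y : E3) : dt u (x + y) = dt u x + dt u y := by simp [dt]; ring
lemma dt_sub (u x y : E3) : dt u (x - y) = dt u x - dt u y := by simp [dt]; ring
lemma dt_smul (u x : E3) (t : ℝ) : dt u (t • x) = t * dt u x := by simp [dt]; ring
lemma dt_neg (u x : E3) : dt u (-x) = -dt u x := by simp [dt]; ring
lemma add_dt (u v x : E3) : dt (u + v) x = dt u x + dt v x := by simp [dt]; ring
lemma sub_dt (u v x : E3) : dt (u - v) x = dt u x - dt v x := by simp [dt]; ring
lemma smul_dt (u x : E3) (t : ℝ) : dt (t • u) x = t * dt u x := by simp [dt]; ring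
lemma neg_dt (u x : E3) : dt (-u) x = -dt u x := by simp [dt]; ring
@[simp] lemma dt_zero (u : E3) : dt u 0 = 0 := by simp [dt]
@[simp] lemma zero_dt (u : E3) : dt 0 u = 0 := by simp [dt]

lemma dt_sum {ι : Type} (u : E3) (s : Finset ι) (f : ι → E3) :
    dt u (∑ i ∈ s, f i) = ∑ i ∈ s, dt u (f i) := by
  simp only [dt_eq_inner, inner_sum]

lemma sum_dt {ι : Type} (u : E3) (s : Finset ι) (f : ι → E3) :
    dt (∑ i ∈ s, f i) u = ∑ i ∈ s, dt (f i) u := by
  simp only [dt_eq_inner, sum_inner]

@[fun_prop] lemma continuous_dt {X : Type} [TopologicalSpace X] {f g : X → E3}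
    (hf : Continuous f) (hg : Continuous g) : Continuous fun x => dt (f x) (g x) := by
  unfold dt; fun_prop

@[fun_prop] lemma continuous_cr {X : Type} [TopologicalSpace X] {f g : X → E3}
    (hf : Continuous f) (hg : Continuous g) : Continuous fun x => cr (f x) (g x) := by
  unfold cr; fun_prop

@[fun_prop] lemma continuous_det3 {X : Type} [TopologicalSpace X] {f g k : X → E3}
    (hf : Continuous f) (hg : Continuous g) (hk : Continuous k) :
    Continuous fun x => det3 (f x) (g x) (k x) := by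
  unfold det3; fun_prop

/-- the linear functional `dt u` as a continuous linear map -/
noncomputable def dtL (u : E3) : E3 →L[ℝ] ℝ := innerSL ℝ u

@[simp] lemma dtL_apply (u x : E3) : dtL u x = dt u x := by
  simp [dtL, dt_eq_inner]

lemma exists_dt (l : E3 →L[ℝ] ℝ) : ∃ u : E3, ∀ x, l x = dt u x := by
  refine ⟨(InnerProductSpace.toDual ℝ E3).symm l, fun x => ?_⟩
  rw [dt_eq_inner, InnerProductSpace.toDual_symm_apply]

lemma det3_swap12 (a b c : E3) : det3 b a c = -det3 a b c := by simp [det3, dt]; ring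
lemma det3_swap23 (a b c : E3) : det3 a c b = -det3 a b c := by simp [det3, dt]; ring
lemma det3_rot (a b c : E3) : det3 b c a = det3 a b c := by simp [det3, dt]; ring
lemma dt_cr (a b c : E3) : dt c (cr a b) = det3 a b c := by simp [det3, dt]; ring
lemma dt_cr_left (a b : E3) : dt a (cr a b) = 0 := by simp [dt]; ring
lemma dt_cr_right (a b : E3) : dt b (cr a b) = 0 := by simp [dt]; ring
lemma cr_anti (a b : E3) : cr b a = -cr a b := by
  apply ext3 <;> simp <;> ring
lemma det3_same12 (a c : E3) : det3 a a c = 0 := by simp [det3, dt]; ring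
lemma det3_same13 (a c : E3) : det3 a c a = 0 := by simp [det3, dt]; ring
lemma det3_same23 (a c : E3) : det3 c a a = 0 := by simp [det3, dt]; ring

lemma dt_cr_cr (a b : E3) : dt (cr a b) (cr a b) = dt a a * dt b b - dt a b ^ 2 := by
  simp [dt]; ring

/-- solution of `a.x = p, b.x = q, c.x = r` -/
noncomputable def sol (a b c : E3) (p q r : ℝ) : E3 :=
  (det3 a b c)⁻¹ • (p • cr b c + q • cr c a + r • cr a b)

lemma dt_sol (a b c : E3) (p q r : ℝ) (x : E3) :
    dt x (sol a b c p q r)
      = (det3 a b c)⁻¹ * (p * det3 x b c + q * det3 a x c + r * det3 a b x) := by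
  unfold sol
  rw [dt_smul]; congr 1
  simp [det3, dt]; ring

lemma dt_sol1 {a b c : E3} (h : det3 a b c ≠ 0) (p q r : ℝ) : dt a (sol a b c p q r) = p := by
  rw [dt_sol, det3_same12, det3_same13]; field_simp; ring
lemma dt_sol2 {a b c : E3} (h : det3 a b c ≠ 0) (p q r : ℝ) : dt b (sol a b c p q r) = q := by
  rw [dt_sol, det3_same12, det3_same23]; field_simp; ring
lemma dt_sol3 {a b c : E3} (h : det3 a b c ≠ 0) (p q r : ℝ) : dt c (sol a b c p q r) = r := by
  rw [dt_sol, det3_same13, det3_same23]; field_simp; ring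

lemma eq_sol {a b c : E3} (h : det3 a b c ≠ 0) (x : E3) :
    x = sol a b c (dt a x) (dt b x) (dt c x) := by
  unfold sol
  have : dt a x • cr b c + dt b x • cr c a + dt c x • cr a b = det3 a b c • x := by
    apply ext3 <;> simp [det3, dt] <;> ring
  rw [this, smul_smul, inv_mul_cancel₀ h, one_smul]

lemma eq_of_dt3 {a b c : E3} (h : det3 a b c ≠ 0) {x y : E3} (h1 : dt a x = dt a y)
    (h2 : dt b x = dt b y) (h3 : dt c x = dt c y) : x = y := by
  rw [eq_sol h x, eq_sol h y, h1, h2, h3]

lemma sol_swap12 (a b c : E3) (p q r : ℝ) : sol b a c q p r = sol a b c p q r := by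
  unfold sol
  rw [det3_swap12, cr_anti c a, cr_anti b c, cr_anti a b, inv_neg]
  apply ext3 <;> simp <;> ring

lemma sol_swap23 (a b c : E3) (p q r : ℝ) : sol a c b p r q = sol a b c p q r := by
  unfold sol
  rw [det3_swap23, cr_anti c a, cr_anti b c, cr_anti a b, inv_neg]
  apply ext3 <;> simp <;> ring

lemma sol_add (a b c : E3) (p q r p' q' r' : ℝ) :
    sol a b c (p + p') (q + q') (r + r') = sol a b c p q r + sol a b c p' q' r' := by
  unfold sol
  apply ext3 <;> simp <;> ring

lemma sol_smul (a b c : E3) (t p q r : ℝ) :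
    sol a b c (t * p) (t * q) (t * r) = t • sol a b c p q r := by
  unfold sol
  apply ext3 <;> simp <;> ring

/-- decomposition of a vector in the basis `a, b, c` -/
lemma decomp {a b c : E3} (h : det3 a b c ≠ 0) (x : E3) :
    x = (det3 x b c / det3 a b c) • a + (det3 a x c / det3 a b c) • b
      + (det3 a b x / det3 a b c) • c := by
  have : det3 a b c • x = det3 x b c • a + det3 a x c • b + det3 a b x • c := by
    apply ext3 <;> simp [det3, dt] <;> ring
  have h2 : x = (det3 a b c)⁻¹ • (det3 a b c • x) := by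
    rw [smul_smul, inv_mul_cancel₀ h, one_smul]
  rw [this] at h2
  conv_lhs => rw [h2]
  simp only [smul_add, smul_smul, div_eq_inv_mul]

/-- a vector orthogonal to `a` and `b` is parallel to the cross product -/
lemma par_cr {a b x : E3} (h1 : dt a x = 0) (h2 : dt b x = 0) :
    dt (cr a b) (cr a b) • x = dt x (cr a b) • cr a b := by
  have e : dt (cr a b) (cr a b) • x - dt x (cr a b) • cr a b
      = dt a x • (dt b b • a - dt a b • b) + dt b x • (dt a a • b - dt a b • a) := by
    apply ext3 <;> simp [dt] <;> ring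
  rw [h1, h2, zero_smul, zero_smul, add_zero, sub_eq_zero] at e
  exact e

lemma cr_ne_zero {a b c : E3} (h : det3 a b c ≠ 0) : cr a b ≠ 0 := by
  intro h0
  rw [← dt_cr, h0, dt_zero] at h
  exact h rfl

lemma exists_orth2 (a b : E3) : ∃ z : E3, z ≠ 0 ∧ dt a z = 0 ∧ dt b z = 0 := by
  by_cases h : cr a b = 0
  · by_cases ha : a = 0
    · by_cases hb : b 0 = 0 ∧ b 1 = 0
      · refine ⟨!₂[1, 0, 0], ?_, by simp [ha], by simp [dt, hb.1]⟩
        intro e; have := congrArg (fun v : E3 => v 0) e; simp at this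
      · refine ⟨!₂[-b 1, b 0, 0], ?_, by simp [ha], by simp [dt]; ring⟩
        intro e
        have e0 := congrArg (fun v : E3 => v 0) e
        have e1 := congrArg (fun v : E3 => v 1) e
        simp at e0 e1
        exact hb ⟨e1, e0⟩
    · have key : ∀ z, dt a z = 0 → dt b z = 0 := by
        intro z hz
        have e : dt a a * dt b z = dt a b * dt a z + dt (cr a b) (cr a z) := by
          simp [dt]; ring
        rw [h, hz, zero_dt] at e
        have := dt_self_pos ha
        simp at e
        rcases e with e | e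
        · exact absurd e this.ne'
        · exact e
      by_cases hb : a 0 = 0 ∧ a 1 = 0
      · have : dt a !₂[1, 0, 0] = 0 := by simp [dt, hb.1]
        refine ⟨!₂[1, 0, 0], ?_, this, key _ this⟩
        intro e; have := congrArg (fun v : E3 => v 0) e; simp at this
      · have : dt a !₂[-a 1, a 0, 0] = 0 := by simp [dt]; ring
        refine ⟨!₂[-a 1, a 0, 0], ?_, this, key _ this⟩
        intro e
        have e0 := congrArg (fun v : E3 => v 0) e
        have e1 := congrArg (fun v : E3 => v 1) e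
        simp at e0 e1
        exact hb ⟨e1, e0⟩
  · exact ⟨cr a b, h, dt_cr_left a b, dt_cr_right a b⟩

lemma exists_orth3 {a b c : E3} (h : det3 a b c = 0) :
    ∃ z : E3, z ≠ 0 ∧ dt a z = 0 ∧ dt b z = 0 ∧ dt c z = 0 := by
  by_cases h1 : cr a b = 0
  · by_cases ha : a = 0
    · obtain ⟨z, hz, e1, e2⟩ := exists_orth2 b c
      exact ⟨z, hz, by simp [ha], e1, e2⟩
    · obtain ⟨z, hz, e1, e2⟩ := exists_orth2 a c
      refine ⟨z, hz, e1, ?_, e2⟩
      have e : dt a a * dt b z = dt a b * dt a z + dt (cr a b) (cr a z) := by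
        simp [dt]; ring
      rw [h1, e1, zero_dt] at e
      have := dt_self_pos ha
      simp at e
      rcases e with e | e
      · exact absurd e this.ne'
      · exact e
  · exact ⟨cr a b, h1, dt_cr_left a b, dt_cr_right a b, by rw [dt_cr, h]⟩

end Pool.Agent.MP_5cfbf6_gt
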